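import Pool.Agent.H25.DP.SmF
import Pool.Agent.H25.DP.LinF
import Pool.Agent.H67.KH.Krull

/-! # EX.Irr : a smooth plane sextic is irreducible (about 100 lines)

`K` algebraically closed.  Let `f ∣ x y`, show `f ∣ x` or `f ∣ y`: it suffices that `f` is irreducible (`UniqueFactorizationMonoid.irreducible_iff_prime`, `Ideal.span_singleton_prime`).  `f ≠ 0` (otherwise all gradients vanish), not a unit (homogeneous of degree 6, so `f(0) = 0`).
Let `f = g h`.  Then `g`, `h` are homogeneous (factors of a nonzero homogeneous polynomial over a domain: Mathlib may have `MvPolynomial.IsHomogeneous` of factors; else compare the lowest and highest components), of degrees `m + n = 6`.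
If `m, n > 0`: `g`, `h` have a common nontrivial zero `c` (`H67.KH.krull` with `n = 2`, see its use in `Pool/Agent/H25/DP/Kru.lean`: two polynomials in three variables without constant term), and `grad f c = g(c) grad h c + h(c) grad g c = 0`: contradiction to `Sm`.
So `m = 0` or `n = 0` and one factor is a nonzero constant: a unit. -/

namespace H25.EX

open H25.DP

/-- the substitution `x ↦ t x` -/
private noncomputable def irrT (K : Type) [Field K] : MvPolynomial (Fin 3) K →ₐ[K] Polynomial (MvPolynomial (Fin 3) K) :=
  MvPolynomial.aeval (fun i => Polynomial.X * Polynomial.C (MvPolynomial.X i))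

private theorem irrT_hom {K : Type} [Field K] {f : MvPolynomial (Fin 3) K} {n : ℕ} (hf : f.IsHomogeneous n) :
    irrT K f = Polynomial.X ^ n * Polynomial.C f := by
  have h1 := ev_smul hf (F := Polynomial (MvPolynomial (Fin 3) K)) Polynomial.X (fun i => Polynomial.C (MvPolynomial.X i))
  have h2 : ev f (fun i => (Polynomial.C (MvPolynomial.X i) : Polynomial (MvPolynomial (Fin 3) K))) = Polynomial.C f := by
    have h3 := ev_map (Polynomial.CAlgHom : MvPolynomial (Fin 3) K →ₐ[K] Polynomial (MvPolynomial (Fin 3) K)) f MvPolynomial.X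
    rw [ev, MvPolynomial.aeval_X_left_apply] at h3
    exact h3.symm
  rw [h2] at h1
  exact h1

private theorem irrT_coeff {K : Type} [Field K] (g : MvPolynomial (Fin 3) K) (n : ℕ) :
    (irrT K g).coeff n = MvPolynomial.homogeneousComponent n g := by
  have h1 : irrT K g = ∑ i ∈ Finset.range (g.totalDegree + 1), Polynomial.X ^ i * Polynomial.C (MvPolynomial.homogeneousComponent i g) := by
    conv_lhs => rw [← MvPolynomial.sum_homogeneousComponent g]
    rw [map_sum]
    exact Finset.sum_congr rfl fun i _ => irrT_hom (MvPolynomial.homogeneousComponent_isHomogeneous i g)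
  rw [h1, Polynomial.finsetSum_coeff]
  have h2 : ∀ i, (Polynomial.X ^ i * Polynomial.C (MvPolynomial.homogeneousComponent i g)).coeff n =
      if i = n then MvPolynomial.homogeneousComponent i g else 0 := by
    intro i
    rw [mul_comm, Polynomial.coeff_C_mul_X_pow]
    by_cases h : n = i
    · rw [if_pos h, if_pos h.symm]
    · rw [if_neg h, if_neg fun h' => h h'.symm]
  rw [Finset.sum_congr rfl fun i _ => h2 i, Finset.sum_ite_eq']
  by_cases h : n ∈ Finset.range (g.totalDegree + 1)
  · rw [if_pos h]
  · rw [if_neg h]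
    rw [Finset.mem_range, not_lt] at h
    exact (MvPolynomial.homogeneousComponent_eq_zero n g (by omega)).symm

private theorem irrT_mono {K : Type} [Field K] (g : MvPolynomial (Fin 3) K)
    (h : (irrT K g).natTrailingDegree = (irrT K g).natDegree) : g.IsHomogeneous (irrT K g).natDegree := by
  have h1 : g = MvPolynomial.homogeneousComponent (irrT K g).natDegree g := by
    have h2 : ∀ i, i ≠ (irrT K g).natDegree → MvPolynomial.homogeneousComponent i g = 0 := by
      intro i hi
      rw [← irrT_coeff]
      rcases Nat.lt_or_gt_of_ne hi with h3 | h3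
      · exact Polynomial.coeff_eq_zero_of_lt_natTrailingDegree (by rw [h]; exact h3)
      · exact Polynomial.coeff_eq_zero_of_natDegree_lt h3
    by_cases h3 : (irrT K g).natDegree ∈ Finset.range (g.totalDegree + 1)
    · conv_lhs => rw [← MvPolynomial.sum_homogeneousComponent g]
      exact Finset.sum_eq_single_of_mem _ h3 fun i _ hi => h2 i hi
    · have h4 : g = 0 := by
        rw [← MvPolynomial.sum_homogeneousComponent g]
        refine Finset.sum_eq_zero fun i hi => h2 i ?_
        intro h5
        exact h3 (h5 ▸ hi)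
      rw [h4, map_zero]
  have h2 := MvPolynomial.homogeneousComponent_isHomogeneous (irrT K g).natDegree g
  rw [← h1] at h2
  exact h2

private theorem irr_fac {K : Type} [Field K] {f g h : MvPolynomial (Fin 3) K} {d : ℕ} (hf : f.IsHomogeneous d) (hf0 : f ≠ 0)
    (hgh : f = g * h) : ∃ m n, m + n = d ∧ g.IsHomogeneous m ∧ h.IsHomogeneous n := by
  have h1 : irrT K g * irrT K h = Polynomial.X ^ d * Polynomial.C f := by
    rw [← map_mul, ← hgh, irrT_hom hf]
  have hX : (Polynomial.X ^ d : Polynomial (MvPolynomial (Fin 3) K)) ≠ 0 := pow_ne_zero _ Polynomial.X_ne_zero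
  have hC : (Polynomial.C f : Polynomial (MvPolynomial (Fin 3) K)) ≠ 0 := Polynomial.C_ne_zero.2 hf0
  have h2 : irrT K g * irrT K h ≠ 0 := by
    rw [h1]
    exact mul_ne_zero hX hC
  have hg : irrT K g ≠ 0 := left_ne_zero_of_mul h2
  have hh : irrT K h ≠ 0 := right_ne_zero_of_mul h2
  have h3 : (irrT K g).natDegree + (irrT K h).natDegree = d := by
    rw [← Polynomial.natDegree_mul hg hh, h1, Polynomial.natDegree_mul hX hC, Polynomial.natDegree_X_pow, Polynomial.natDegree_C,
      add_zero]
  have h4 : (irrT K g).natTrailingDegree + (irrT K h).natTrailingDegree = d := by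
    rw [← Polynomial.natTrailingDegree_mul hg hh, h1, Polynomial.natTrailingDegree_mul hX hC, Polynomial.natTrailingDegree_C,
      add_zero]
    rw [← Polynomial.monomial_one_right_eq_X_pow, Polynomial.natTrailingDegree_monomial one_ne_zero]
  have h5 := Polynomial.natTrailingDegree_le_natDegree (irrT K g)
  have h6 := Polynomial.natTrailingDegree_le_natDegree (irrT K h)
  exact ⟨_, _, h3, irrT_mono g (by omega), irrT_mono h (by omega)⟩

private theorem irr_zero {K : Type} [Field K] {n : ℕ} (hn : n ≠ 0) {f : MvPolynomial (Fin 3) K} (hf : f.IsHomogeneous n) :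
    MvPolynomial.eval (0 : Fin 3 → K) f = 0 := by
  rw [MvPolynomial.eval_zero, MvPolynomial.constantCoeff_eq, hf.coeff_eq_zero]
  rw [map_zero]
  exact hn.symm

private theorem irr_unit {K : Type} [Field K] {f : MvPolynomial (Fin 3) K} (hf0 : f ≠ 0) (hf : f.IsHomogeneous 0) : IsUnit f := by
  have h1 := MvPolynomial.totalDegree_eq_zero_iff_eq_C.1 ((MvPolynomial.totalDegree_zero_iff_isHomogeneous _).2 hf)
  rw [h1]
  refine (IsUnit.mk0 _ ?_).map MvPolynomial.C
  intro h2
  rw [h2, map_zero] at h1
  exact hf0 h1

private theorem irr_ne {K : Type} [Field K] {f : MvPolynomial (Fin 3) K} (hf : Sm f) : f ≠ 0 := by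
  intro h0
  refine hf.sm (fun _ => 1) (fun h => one_ne_zero (congrFun h 0)) ?_
  funext i
  rw [h0, grad, map_zero, ev, map_zero]
  rfl

private theorem irr_irr {K : Type} [Field K] [IsAlgClosed K] {f : MvPolynomial (Fin 3) K} (hf : Sm f) : Irreducible f := by
  have hf0 := irr_ne hf
  constructor
  · intro hu
    have h1 := hu.map (MvPolynomial.eval (0 : Fin 3 → K))
    rw [irr_zero (by norm_num) hf.hom] at h1
    exact not_isUnit_zero h1
  · intro g h hgh
    obtain ⟨m, n, hmn, hg, hh⟩ := irr_fac hf.hom hf0 hgh
    have hg0 : g ≠ 0 := fun h0 => hf0 (by rw [hgh, h0, zero_mul])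
    have hh0 : h ≠ 0 := fun h0 => hf0 (by rw [hgh, h0, mul_zero])
    by_cases hm : m = 0
    · left
      rw [hm] at hg
      exact irr_unit hg0 hg
    by_cases hn : n = 0
    · right
      rw [hn] at hh
      exact irr_unit hh0 hh
    exfalso
    obtain ⟨c, hc, h1⟩ := H67.KH.krull (K := K) (n := 2) ![g, h] (by
      intro i
      fin_cases i
      · exact irr_zero hm hg
      · exact irr_zero hn hh)
    have hgc : MvPolynomial.eval c g = 0 := h1 0
    have hhc : MvPolynomial.eval c h = 0 := h1 1
    refine hf.sm c hc ?_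
    funext i
    change MvPolynomial.aeval c (MvPolynomial.pderiv i f) = 0
    rw [MvPolynomial.aeval_eq_eval, hgh, Derivation.leibniz, smul_eq_mul, smul_eq_mul, map_add, map_mul, map_mul, hgc, hhc, zero_mul,
      zero_mul, add_zero]

theorem irr {K : Type} [Field K] [IsAlgClosed K] {f : MvPolynomial (Fin 3) K} (hf : Sm f) : (Ideal.span {f}).IsPrime := by
  rw [Ideal.span_singleton_prime (irr_ne hf)]
  exact (irr_irr hf).prime

/-- the base change of a smooth form -/
theorem sm_map {K L : Type} [Field K] [IsAlgClosed K] [Field L] [Algebra K L] {f : MvPolynomial (Fin 3) K} (hf : Sm f) :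
    Sm (MvPolynomial.map (algebraMap K L) f) := by
  refine ⟨hf.hom.map _, fun c hc h0 => ?_⟩
  refine sm_ext hf hc ?_
  rw [← h0]
  funext i
  change MvPolynomial.aeval c (MvPolynomial.pderiv i f) = MvPolynomial.aeval c (MvPolynomial.pderiv i (MvPolynomial.map (algebraMap K L) f))
  rw [MvPolynomial.pderiv_map, MvPolynomial.aeval_map_algebraMap]

end H25.EX
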