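import Pool.Agent.H25.EX.Def
import Pool.Agent.H25.DP.LinF
import Pool.Agent.H25.DP.Tang

/-! # EX.Cong : change of the auxiliary vector (about 150 lines)

`F` an infinite field, `f(c) = 0`, `w = grad f c`, `∑ c_i w_i = 0`.  `tv f 1 c = (-w2, 0, w0)`, `tv f 2 c = (w1, -w0, 0)`, so `c2 tv1 = c1 tv2 + w0 c`.  Let `v = tv f 1 c`, `v' = tv f 2 c`, `κ = w0`, `P = lin f v c`, `P' = lin f v' c` (degree at most 6: or only use that they are
polynomials; `P.eval x = ev f (lc x 1 v c)`, `lin_eval`).  For all `x` with `1 + κ x ≠ 0`: `ev f (lc (c2 x) 1 v c) = ev f (lc (c1 x) (1 + κ x) v' c) = (1 + κ x)^6 P'(c1 x / (1 + κ x))` (`ev_smul`).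
`deg P' ≤ 6` (`lin` of a form of degree 6), `P'_0 = f(c) = 0`, `P'_1 = ∑ v'_i w_i = 0` and the same for `P` (coefficient 1: `H25.DP.lin_der` of `Pool/Agent/H25/DP/Tang.lean` or `tangG`; `w` is orthogonal to `w × e_i`).  So `P = X^2 (q0 + ... + q4 X^4)`, `P' = X^2 (q0' + ... + q4' X^4)`
and for infinitely many `x`, hence as polynomials, `∑ q_j c2^(j+2) x^(j+2) = ∑ q_j' c1^(j+2) x^(j+2) (1 + κ x)^(4-j)`.  Compare the coefficients:
`q0 c2^2 = q0' c1^2`, `q1 c2^3 = q1' c1^3 + 4 κ q0' c1^2`, `q2 c2^4 = q2' c1^4 + 3 κ q1' c1^3 + 6 κ^2 q0' c1^2`, `q3 c2^5 = q3' c1^5 + 2 κ q2' c1^4 + 3 κ^2 q1' c1^3 + 4 κ^3 q0' c1^2`,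
`q4 c2^6 = q4' c1^6 + κ q3' c1^5 + κ^2 q2' c1^4 + κ^3 q1' c1^3 + κ^4 q0' c1^2`.  Then `c2^8 I = 12 (q0 c2^2)(q4 c2^6) - 3 (q1 c2^3)(q3 c2^5) + (q2 c2^4)^2 = c1^8 I'` and in the same way for `J` (`ring` after rewriting, `linear_combination`). -/

namespace H25.EX

open H25.DP

variable {K0 : Type} [Field K0]

private theorem H11_cong_deg {f : MvPolynomial (Fin 3) K0} (hf : f.IsHomogeneous 6) {F : Type} [Field F] [Algebra K0 F]
    (d e : Fin 3 → F) : (lin f d e).natDegree ≤ 6 := by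
  unfold lin
  rw [MvPolynomial.aeval_def, MvPolynomial.eval₂_eq']
  refine Polynomial.natDegree_sum_le_of_forall_le _ _ fun m hm => ?_
  have h1 : ∑ i, m i = 6 := by
    rw [hf.degree_eq_sum_deg_support hm]
    exact (Finset.sum_subset (Finset.subset_univ _) fun i _ hi => Finsupp.notMem_support_iff.1 hi).symm
  refine (Polynomial.natDegree_mul_le).trans ?_
  have h2 : (algebraMap K0 (Polynomial F) (MvPolynomial.coeff m f)).natDegree = 0 := by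
    rw [IsScalarTower.algebraMap_apply K0 F (Polynomial F)]
    exact Polynomial.natDegree_C _
  rw [h2, zero_add]
  refine (Polynomial.natDegree_prod_le _ _).trans ?_
  rw [← h1]
  refine Finset.sum_le_sum fun i _ => ?_
  refine (Polynomial.natDegree_pow_le).trans ?_
  have h3 : (Polynomial.C (d i) * Polynomial.X + Polynomial.C (e i)).natDegree ≤ 1 := Polynomial.natDegree_linear_le
  calc m i * _ ≤ m i * 1 := Nat.mul_le_mul_left _ h3
    _ = m i := mul_one _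

private theorem H11_cong_co {F : Type} [Field F] [Infinite F] {P P' : Polynomial F} {u v κ : F}
    (hd : P'.natDegree ≤ 6) (h0 : P'.coeff 0 = 0) (h1 : P'.coeff 1 = 0)
    (h : ∀ x : F, 1 + κ * x ≠ 0 → P.eval (u * x) = (1 + κ * x) ^ 6 * P'.eval (v * x / (1 + κ * x))) :
    P.coeff 2 * u ^ 2 = P'.coeff 2 * v ^ 2 ∧
    P.coeff 3 * u ^ 3 = P'.coeff 3 * v ^ 3 + 4 * κ * (P'.coeff 2 * v ^ 2) ∧
    P.coeff 4 * u ^ 4 = P'.coeff 4 * v ^ 4 + 3 * κ * (P'.coeff 3 * v ^ 3) + 6 * κ ^ 2 * (P'.coeff 2 * v ^ 2) ∧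
    P.coeff 5 * u ^ 5 = P'.coeff 5 * v ^ 5 + 2 * κ * (P'.coeff 4 * v ^ 4) + 3 * κ ^ 2 * (P'.coeff 3 * v ^ 3) +
      4 * κ ^ 3 * (P'.coeff 2 * v ^ 2) ∧
    P.coeff 6 * u ^ 6 = P'.coeff 6 * v ^ 6 + κ * (P'.coeff 5 * v ^ 5) + κ ^ 2 * (P'.coeff 4 * v ^ 4) +
      κ ^ 3 * (P'.coeff 3 * v ^ 3) + κ ^ 4 * (P'.coeff 2 * v ^ 2) := by
  set a2 : F := P'.coeff 2 * v ^ 2 with ha2
  set a3 : F := P'.coeff 3 * v ^ 3 with ha3
  set a4 : F := P'.coeff 4 * v ^ 4 with ha4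
  set a5 : F := P'.coeff 5 * v ^ 5 with ha5
  set a6 : F := P'.coeff 6 * v ^ 6 with ha6
  set Q : Polynomial F := Polynomial.C a2 * Polynomial.X ^ 2 + Polynomial.C (a3 + 4 * κ * a2) * Polynomial.X ^ 3 +
    Polynomial.C (a4 + 3 * κ * a3 + 6 * κ ^ 2 * a2) * Polynomial.X ^ 4 +
    Polynomial.C (a5 + 2 * κ * a4 + 3 * κ ^ 2 * a3 + 4 * κ ^ 3 * a2) * Polynomial.X ^ 5 +
    Polynomial.C (a6 + κ * a5 + κ ^ 2 * a4 + κ ^ 3 * a3 + κ ^ 4 * a2) * Polynomial.X ^ 6 with hQ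
  have hev : ∀ y : F, P'.eval y = P'.coeff 2 * y ^ 2 + P'.coeff 3 * y ^ 3 + P'.coeff 4 * y ^ 4 + P'.coeff 5 * y ^ 5 +
      P'.coeff 6 * y ^ 6 := by
    intro y
    rw [Polynomial.eval_eq_sum_range' (Nat.lt_succ_of_le hd)]
    simp only [Finset.sum_range_succ, Finset.sum_range_zero, h0, h1]
    ring
  have hPQ : P.comp (Polynomial.C u * Polynomial.X) = Q := by
    refine Polynomial.eq_of_infinite_eval_eq _ _ ?_
    have hfin : {x : F | 1 + κ * x = 0}.Finite := by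
      by_cases hκ : κ = 0
      · have : {x : F | 1 + κ * x = 0} = ∅ := by
          ext x
          simp [hκ]
        rw [this]
        exact Set.finite_empty
      · refine (Set.finite_singleton (-1 / κ)).subset fun x hx => ?_
        have hx' : 1 + κ * x = 0 := hx
        rw [Set.mem_singleton_iff]
        field_simp
        linear_combination hx'
    refine hfin.infinite_compl.mono fun x hx => ?_
    have hx0 : 1 + κ * x ≠ 0 := hx
    change (P.comp (Polynomial.C u * Polynomial.X)).eval x = Q.eval x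
    rw [Polynomial.eval_comp, Polynomial.eval_mul, Polynomial.eval_C, Polynomial.eval_X, h x hx0, hev, hQ]
    simp only [Polynomial.eval_mul, Polynomial.eval_add, Polynomial.eval_C, Polynomial.eval_X, Polynomial.eval_pow]
    rw [ha2, ha3, ha4, ha5, ha6]
    field_simp
    ring
  have hco : ∀ n : ℕ, P.coeff n * u ^ n = Q.coeff n := fun n => by
    rw [← hPQ, Polynomial.comp_C_mul_X_coeff]
  refine ⟨?_, ?_, ?_, ?_, ?_⟩
  all_goals
    rw [hco, hQ]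
    simp only [Polynomial.coeff_add, Polynomial.coeff_C_mul, Polynomial.coeff_X_pow]
    norm_num

theorem cong {f : MvPolynomial (Fin 3) K0} (hf : f.IsHomogeneous 6) {F : Type} [Field F] [Infinite F] [Algebra K0 F]
    {c : Fin 3 → F} (h0 : ev f c = 0) (h1 : ∑ i, c i * grad f c i = 0) :
    c 2 ^ 8 * II f 1 c = c 1 ^ 8 * II f 2 c ∧ c 2 ^ 12 * JJ f 1 c = c 1 ^ 12 * JJ f 2 c := by
  set w : Fin 3 → F := grad f c with hw
  have hv1 : tv f 1 c = ![-w 2, 0, w 0] := by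
    funext i
    fin_cases i <;> simp [tv, cr, ee, hw]
  have hv2 : tv f 2 c = ![w 1, -w 0, 0] := by
    funext i
    fin_cases i <;> simp [tv, cr, ee, hw]
  rw [Fin.sum_univ_three] at h1
  have hlin0 : ∀ v : Fin 3 → F, (lin f v c).coeff 0 = 0 := fun v => by
    rw [Polynomial.coeff_zero_eq_eval_zero, lin_eval]
    refine Eq.trans (congrArg (ev f) ?_) h0
    funext i
    simp [lc]
  have hlin1 : (lin f (tv f 2 c) c).coeff 1 = 0 := by
    have h2 := Polynomial.coeff_derivative (lin f (tv f 2 c) c) 0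
    rw [lin_der, Polynomial.coeff_zero_eq_eval_zero, Polynomial.eval_finsetSum] at h2
    have h3 : ∀ i : Fin 3, (Polynomial.C (tv f 2 c i) * lin (MvPolynomial.pderiv i f) (tv f 2 c) c).eval 0 =
        tv f 2 c i * w i := fun i => by
      rw [Polynomial.eval_mul, Polynomial.eval_C, lin_eval]
      congr 1
      rw [hw]
      unfold grad
      congr 1
      funext j
      simp [lc]
    rw [Finset.sum_congr rfl fun i _ => h3 i, Fin.sum_univ_three, hv2] at h2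
    simp only [Matrix.cons_val_zero, Matrix.cons_val_one, Matrix.cons_val] at h2
    have h4 : (lin f (tv f 2 c) c).coeff (0 + 1) * ((0 : ℕ) + 1) = 0 := by
      rw [hv2]
      rw [← h2]
      ring
    simpa using h4
  have key : ∀ x : F, 1 + w 0 * x ≠ 0 → (lin f (tv f 1 c) c).eval (c 2 * x) =
      (1 + w 0 * x) ^ 6 * (lin f (tv f 2 c) c).eval (c 1 * x / (1 + w 0 * x)) := by
    intro x hx
    rw [lin_eval, lin_eval, ← ev_smul hf]
    congr 1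
    funext i
    have ht : (1 + w 0 * x) * (c 1 * x / (1 + w 0 * x)) = c 1 * x := mul_div_cancel₀ _ hx
    generalize c 1 * x / (1 + w 0 * x) = t at ht ⊢
    rw [hv1, hv2]
    fin_cases i
    · simp only [lc, Fin.zero_eta, Fin.isValue, Matrix.cons_val_zero]
      linear_combination (-x) * h1 - w 1 * ht
    · simp only [lc, Fin.mk_one, Fin.isValue, Matrix.cons_val_one, Matrix.cons_val_zero]
      linear_combination w 0 * ht
    · simp only [lc, Fin.reduceFinMk, Fin.isValue, Matrix.cons_val]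
      ring
  obtain ⟨e0, e1, e2, e3, e4⟩ := H11_cong_co (H11_cong_deg hf _ _) (hlin0 _) hlin1 key
  change qc f 1 c 0 * c 2 ^ 2 = qc f 2 c 0 * c 1 ^ 2 at e0
  change qc f 1 c 1 * c 2 ^ 3 = qc f 2 c 1 * c 1 ^ 3 + 4 * w 0 * (qc f 2 c 0 * c 1 ^ 2) at e1
  change qc f 1 c 2 * c 2 ^ 4 = qc f 2 c 2 * c 1 ^ 4 + 3 * w 0 * (qc f 2 c 1 * c 1 ^ 3) +
    6 * w 0 ^ 2 * (qc f 2 c 0 * c 1 ^ 2) at e2
  change qc f 1 c 3 * c 2 ^ 5 = qc f 2 c 3 * c 1 ^ 5 + 2 * w 0 * (qc f 2 c 2 * c 1 ^ 4) +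
    3 * w 0 ^ 2 * (qc f 2 c 1 * c 1 ^ 3) + 4 * w 0 ^ 3 * (qc f 2 c 0 * c 1 ^ 2) at e3
  change qc f 1 c 4 * c 2 ^ 6 = qc f 2 c 4 * c 1 ^ 6 + w 0 * (qc f 2 c 3 * c 1 ^ 5) +
    w 0 ^ 2 * (qc f 2 c 2 * c 1 ^ 4) + w 0 ^ 3 * (qc f 2 c 1 * c 1 ^ 3) + w 0 ^ 4 * (qc f 2 c 0 * c 1 ^ 2) at e4
  unfold II JJ iI iJ
  generalize qc f 1 c 0 = q0 at *
  generalize qc f 1 c 1 = q1 at *
  generalize qc f 1 c 2 = q2 at *
  generalize qc f 1 c 3 = q3 at *
  generalize qc f 1 c 4 = q4 at *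
  generalize qc f 2 c 0 = r0 at *
  generalize qc f 2 c 1 = r1 at *
  generalize qc f 2 c 2 = r2 at *
  generalize qc f 2 c 3 = r3 at *
  generalize qc f 2 c 4 = r4 at *
  constructor
  · calc c 2 ^ 8 * (12 * q0 * q4 - 3 * q1 * q3 + q2 ^ 2)
        = 12 * (q0 * c 2 ^ 2) * (q4 * c 2 ^ 6) - 3 * (q1 * c 2 ^ 3) * (q3 * c 2 ^ 5) + (q2 * c 2 ^ 4) ^ 2 := by ring
      _ = c 1 ^ 8 * (12 * r0 * r4 - 3 * r1 * r3 + r2 ^ 2) := by
        rw [e0, e1, e2, e3, e4]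
        ring
  · calc c 2 ^ 12 * (72 * q0 * q2 * q4 + 9 * q1 * q2 * q3 - 27 * q0 * q3 ^ 2 - 27 * q1 ^ 2 * q4 - 2 * q2 ^ 3)
        = 72 * (q0 * c 2 ^ 2) * (q2 * c 2 ^ 4) * (q4 * c 2 ^ 6) + 9 * (q1 * c 2 ^ 3) * (q2 * c 2 ^ 4) * (q3 * c 2 ^ 5) -
          27 * (q0 * c 2 ^ 2) * (q3 * c 2 ^ 5) ^ 2 - 27 * (q1 * c 2 ^ 3) ^ 2 * (q4 * c 2 ^ 6) - 2 * (q2 * c 2 ^ 4) ^ 3 := by ring
      _ = c 1 ^ 12 * (72 * r0 * r2 * r4 + 9 * r1 * r2 * r3 - 27 * r0 * r3 ^ 2 - 27 * r1 ^ 2 * r4 - 2 * r2 ^ 3) := by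
        rw [e0, e1, e2, e3, e4]
        ring

end H25.EX
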