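import Pool.Agent.H25.EX.Def

/-! # EX.HomI : `II f i X`, `JJ f i X` are homogeneous of degrees 44, 66 (about 120 lines)

Call `p ∈ R[X]`, `R = MvPolynomial (Fin 3) K0`, of type `n` if `(p.coeff j).IsHomogeneous (n + 4 j)` for all `j`.  Products of polynomials of types `m`, `n` have type `m + n` (`Polynomial.coeff_mul`, `IsHomogeneous.sum`, `IsHomogeneous.mul`), sums of polynomials of type `n` have type `n`.
The coordinates of `grad f X` are homogeneous of degree 5 (`MvPolynomial.IsHomogeneous.pderiv`; `grad f (XX K0) i = pderiv i f`: `MvPolynomial.aeval_X_left`), so those of `tv f i X` (they are `0`, `± grad f X j`: unfold `cr`, `ee`; `fin_cases`);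
so `C (tv j) * X + C (X j)` has type `1`, and `lin f (tv f i X) X` (a sum over the monomials of `f`, of degree 6, `MvPolynomial.aeval_def`, `eval₂_eq'`) has type `6`; constants `algebraMap K0 R[X] a` have type `0`.
So `qc f i X j` is homogeneous of degree `6 + 4 (j + 2) = 14 + 4 j`, `II` of degree `44`, `JJ` of degree `66` (a natural number `n` is `MvPolynomial.C n`, homogeneous of degree 0). -/

namespace H25.EX

open H25.DP

variable {K0 : Type} [Field K0]

private def hi_T (n : ℕ) (p : Polynomial (MvPolynomial (Fin 3) K0)) : Prop :=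
  ∀ j, (p.coeff j).IsHomogeneous (n + 4 * j)

private theorem hi_mul {m n : ℕ} {p q : Polynomial (MvPolynomial (Fin 3) K0)} (hp : hi_T m p) (hq : hi_T n q) :
    hi_T (m + n) (p * q) := by
  intro j
  rw [Polynomial.coeff_mul]
  refine MvPolynomial.IsHomogeneous.sum _ _ _ fun x hx => ?_
  have h1 : x.1 + x.2 = j := Finset.HasAntidiagonal.mem_antidiagonal.1 hx
  have h2 := (hp x.1).mul (hq x.2)
  have h3 : m + 4 * x.1 + (n + 4 * x.2) = m + n + 4 * j := by
    rw [← h1]
    ring
  rwa [h3] at h2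

private theorem hi_C (a : MvPolynomial (Fin 3) K0) {n : ℕ} (ha : a.IsHomogeneous n) : hi_T n (Polynomial.C a) := by
  intro j
  rw [Polynomial.coeff_C]
  split_ifs with h
  · subst h
    simpa using ha
  · exact MvPolynomial.isHomogeneous_zero _ _ _

private theorem hi_one : hi_T 0 (1 : Polynomial (MvPolynomial (Fin 3) K0)) := by
  have h := hi_C (K0 := K0) 1 (MvPolynomial.isHomogeneous_one _ _)
  rwa [Polynomial.C_1] at h

private theorem hi_pow {n : ℕ} {p : Polynomial (MvPolynomial (Fin 3) K0)} (hp : hi_T n p) (k : ℕ) :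
    hi_T (n * k) (p ^ k) := by
  induction k with
  | zero => simpa using hi_one
  | succ k ih =>
    rw [pow_succ, Nat.mul_succ]
    exact hi_mul ih hp

private theorem hi_grad {f : MvPolynomial (Fin 3) K0} (hf : f.IsHomogeneous 6) (i : Fin 3) :
    (grad f (XX K0) i).IsHomogeneous 5 := by
  have h1 : grad f (XX K0) i = MvPolynomial.pderiv i f := by
    unfold grad ev
    have h2 : (MvPolynomial.aeval (XX K0) : MvPolynomial (Fin 3) K0 →ₐ[K0] MvPolynomial (Fin 3) K0) = AlgHom.id _ _ :=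
      MvPolynomial.aeval_X_left
    rw [h2]
    rfl
  rw [h1]
  exact hf.pderiv

private theorem hi_tv {f : MvPolynomial (Fin 3) K0} (hf : f.IsHomogeneous 6) (i j : Fin 3) :
    (tv f i (XX K0) j).IsHomogeneous 5 := by
  have h0 := hi_grad hf
  have h2 : ∀ a b : Fin 3, (grad f (XX K0) a * ee i b).IsHomogeneous 5 := fun a b => by
    unfold ee
    split_ifs
    · rw [mul_one]
      exact h0 _
    · rw [mul_zero]
      exact MvPolynomial.isHomogeneous_zero _ _ _
  unfold tv cr
  fin_cases j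
  · exact (h2 _ _).sub (h2 _ _)
  · exact (h2 _ _).sub (h2 _ _)
  · exact (h2 _ _).sub (h2 _ _)

private theorem hi_lin {f : MvPolynomial (Fin 3) K0} (hf : f.IsHomogeneous 6) (i : Fin 3) :
    hi_T 6 (lin f (tv f i (XX K0)) (XX K0)) := by
  set g : Fin 3 → Polynomial (MvPolynomial (Fin 3) K0) :=
    fun j => Polynomial.C (tv f i (XX K0) j) * Polynomial.X + Polynomial.C (XX K0 j) with hg
  have h1 : ∀ j, hi_T 1 (g j) := fun j k => by
    rw [hg]
    simp only [Polynomial.coeff_add, Polynomial.coeff_C_mul, Polynomial.coeff_X, Polynomial.coeff_C]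
    rcases Nat.eq_zero_or_pos k with rfl | hk
    · simp only [one_ne_zero, if_false, mul_zero, if_true, zero_add, add_zero]
      exact MvPolynomial.isHomogeneous_X _ _
    · rw [if_neg hk.ne', add_zero]
      split_ifs with h2
      · subst h2
        rw [mul_one]
        exact hi_tv hf i j
      · rw [mul_zero]
        exact MvPolynomial.isHomogeneous_zero _ _ _
  have h2 : lin f (tv f i (XX K0)) (XX K0) =
      ∑ d ∈ f.support, Polynomial.C (MvPolynomial.C (f.coeff d)) * ∏ j, g j ^ d j := by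
    unfold lin
    rw [MvPolynomial.aeval_def, MvPolynomial.eval₂_eq']
    rfl
  rw [h2]
  intro k
  rw [Polynomial.finsetSum_coeff]
  refine MvPolynomial.IsHomogeneous.sum _ _ _ fun d hd => ?_
  have h3 : ∑ j, d j = 6 := by
    have h4 := hf (MvPolynomial.mem_support_iff.1 hd)
    rw [← h4]
    simp [Finsupp.weight_apply, Finsupp.sum_fintype]
  have h5 : hi_T (0 + ∑ j, 1 * d j) (Polynomial.C (MvPolynomial.C (f.coeff d)) * ∏ j, g j ^ d j) := by
    refine hi_mul (hi_C _ (MvPolynomial.isHomogeneous_C _ _)) ?_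
    rw [Fin.prod_univ_three, Fin.sum_univ_three]
    exact hi_mul (hi_mul (hi_pow (h1 _) _) (hi_pow (h1 _) _)) (hi_pow (h1 _) _)
  have h6 := h5 k
  simp only [one_mul, zero_add] at h6
  rwa [h3] at h6

private theorem hi_qc {f : MvPolynomial (Fin 3) K0} (hf : f.IsHomogeneous 6) (i : Fin 3) (j : ℕ) :
    (qc f i (XX K0) j).IsHomogeneous (14 + 4 * j) := by
  have h := hi_lin hf i (j + 2)
  have h2 : 6 + 4 * (j + 2) = 14 + 4 * j := by ring
  rw [h2] at h
  exact h

private theorem hi_num (n : ℕ) : ((n : MvPolynomial (Fin 3) K0)).IsHomogeneous 0 := by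
  rw [← map_natCast (MvPolynomial.C : K0 →+* MvPolynomial (Fin 3) K0)]
  exact MvPolynomial.isHomogeneous_C _ _

private theorem hi_cst {n : ℕ} (c : ℕ) {p : MvPolynomial (Fin 3) K0} (hp : p.IsHomogeneous n) :
    ((c : MvPolynomial (Fin 3) K0) * p).IsHomogeneous n := by
  have h := (hi_num (K0 := K0) c).mul hp
  rwa [zero_add] at h

theorem hom_II {f : MvPolynomial (Fin 3) K0} (hf : f.IsHomogeneous 6) (i : Fin 3) : (II f i (XX K0)).IsHomogeneous 44 := by
  have h := hi_qc hf i
  have e : II f i (XX K0) = ((12 : ℕ) : MvPolynomial (Fin 3) K0) * (qc f i (XX K0) 0 * qc f i (XX K0) 4) -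
      ((3 : ℕ) : MvPolynomial (Fin 3) K0) * (qc f i (XX K0) 1 * qc f i (XX K0) 3) +
      qc f i (XX K0) 2 * qc f i (XX K0) 2 := by
    unfold II iI
    push_cast
    ring
  rw [e]
  exact ((hi_cst 12 ((h 0).mul (h 4))).sub (hi_cst 3 ((h 1).mul (h 3)))).add ((h 2).mul (h 2))

theorem hom_JJ {f : MvPolynomial (Fin 3) K0} (hf : f.IsHomogeneous 6) (i : Fin 3) : (JJ f i (XX K0)).IsHomogeneous 66 := by
  have h := hi_qc hf i
  have e : JJ f i (XX K0) =
      ((72 : ℕ) : MvPolynomial (Fin 3) K0) * (qc f i (XX K0) 0 * qc f i (XX K0) 2 * qc f i (XX K0) 4) +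
      ((9 : ℕ) : MvPolynomial (Fin 3) K0) * (qc f i (XX K0) 1 * qc f i (XX K0) 2 * qc f i (XX K0) 3) -
      ((27 : ℕ) : MvPolynomial (Fin 3) K0) * (qc f i (XX K0) 0 * qc f i (XX K0) 3 * qc f i (XX K0) 3) -
      ((27 : ℕ) : MvPolynomial (Fin 3) K0) * (qc f i (XX K0) 1 * qc f i (XX K0) 1 * qc f i (XX K0) 4) -
      ((2 : ℕ) : MvPolynomial (Fin 3) K0) * (qc f i (XX K0) 2 * qc f i (XX K0) 2 * qc f i (XX K0) 2) := by
    unfold JJ iJ
    push_cast
    ring
  rw [e]
  exact ((((hi_cst 72 (((h 0).mul (h 2)).mul (h 4))).add (hi_cst 9 (((h 1).mul (h 2)).mul (h 3)))).sub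
    (hi_cst 27 (((h 0).mul (h 3)).mul (h 3)))).sub (hi_cst 27 (((h 1).mul (h 1)).mul (h 4)))).sub
    (hi_cst 2 (((h 2).mul (h 2)).mul (h 2)))

end H25.EX
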