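import Pool.Agent.H25.EX.Reg
import Pool.Agent.H25.EX.Irr
import Pool.Agent.H25.EX.HomI
import Pool.Agent.H25.EX.Cong

/-! # EX.ABx : existence of the forms `a`, `b` (assembly) -/

namespace H25.EX

open H25.DP

variable {K0 : Type} [Field K0] [IsAlgClosed K0] [CharZero K0] {f : MvPolynomial (Fin 3) K0}

omit [CharZero K0] in
theorem cong_X (hf : Sm f) :
    MvPolynomial.X 2 ^ 8 * II f 1 (XX K0) - MvPolynomial.X 1 ^ 8 * II f 2 (XX K0) ∈ Ideal.span {f} ∧
      MvPolynomial.X 2 ^ 12 * JJ f 1 (XX K0) - MvPolynomial.X 1 ^ 12 * JJ f 2 (XX K0) ∈ Ideal.span {f} := by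
  have hp := irr hf
  let Q : Type := MvPolynomial (Fin 3) K0 ⧸ (Ideal.span {f} : Ideal (MvPolynomial (Fin 3) K0))
  let F : Type := FractionRing Q
  have hinj : Function.Injective (algebraMap Q F) := IsFractionRing.injective Q F
  let φ : MvPolynomial (Fin 3) K0 →ₐ[K0] F :=
    (IsScalarTower.toAlgHom K0 Q F).comp (Ideal.Quotient.mkₐ K0 (Ideal.span {f}))
  have hφ : ∀ p : MvPolynomial (Fin 3) K0, φ p = 0 → p ∈ Ideal.span {f} := by
    intro p hp
    have h1 : algebraMap Q F (Ideal.Quotient.mk (Ideal.span {f}) p) = 0 := hp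
    rw [map_eq_zero_iff _ hinj] at h1
    exact Ideal.Quotient.eq_zero_iff_mem.1 h1
  have hφ' : ∀ p ∈ (Ideal.span {f} : Ideal (MvPolynomial (Fin 3) K0)), φ p = 0 := by
    intro p hp
    have h1 : Ideal.Quotient.mk (Ideal.span {f}) p = 0 := Ideal.Quotient.eq_zero_iff_mem.2 hp
    change algebraMap Q F (Ideal.Quotient.mk (Ideal.span {f}) p) = 0
    rw [h1, map_zero]
  have : Infinite K0 := IsAlgClosed.instInfinite
  have : Infinite F := Infinite.of_injective (algebraMap K0 F) (algebraMap K0 F).injective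
  let c : Fin 3 → F := fun i => φ (XX K0 i)
  have hX : ev f (XX K0) = f := by
    unfold ev XX
    exact MvPolynomial.aeval_X_left_apply f
  have h0 : ev f c = 0 := by
    have h1 := ev_map φ f (XX K0)
    rw [hX] at h1
    rw [← h1]
    exact hφ' f (Ideal.subset_span rfl)
  have h1 : ∑ i, c i * grad f c i = 0 := by
    rw [euler hf.hom, h0, mul_zero]
  obtain ⟨e1, e2⟩ := cong hf.hom h0 h1
  constructor
  · apply hφ
    rw [map_sub, map_mul, map_mul, map_pow, map_pow, II_map, II_map]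
    exact sub_eq_zero.2 e1
  · apply hφ
    rw [map_sub, map_mul, map_mul, map_pow, map_pow, JJ_map, JJ_map]
    exact sub_eq_zero.2 e2

theorem ab_exists (hf : Sm f) (h1 : MvPolynomial.eval ![1, 0, 0] f ≠ 0) : Nonempty (AB f) := by
  obtain ⟨eI, eJ⟩ := cong_X hf
  obtain ⟨a0, ha0, ha1, ha2⟩ := reg (m := 8) (N := 36) h1 hf.hom (hom_II hf.hom 1) (hom_II hf.hom 2) eI
  obtain ⟨b0, hb0, hb1, hb2⟩ := reg (m := 12) (N := 54) h1 hf.hom (hom_JJ hf.hom 1) (hom_JJ hf.hom 2) eJ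
  have e9 : (9 : MvPolynomial (Fin 3) K0) * (MvPolynomial.C (9 : K0)⁻¹ * a0) = a0 := by
    have h : (9 : MvPolynomial (Fin 3) K0) = MvPolynomial.C (9 : K0) := (map_ofNat MvPolynomial.C 9).symm
    rw [h, ← mul_assoc, ← MvPolynomial.C_mul, mul_inv_cancel₀ (by norm_num), MvPolynomial.C_1, one_mul]
  have e54 : (54 : MvPolynomial (Fin 3) K0) * (MvPolynomial.C (54 : K0)⁻¹ * b0) = b0 := by
    have h : (54 : MvPolynomial (Fin 3) K0) = MvPolynomial.C (54 : K0) := (map_ofNat MvPolynomial.C 54).symm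
    rw [h, ← mul_assoc, ← MvPolynomial.C_mul, mul_inv_cancel₀ (by norm_num), MvPolynomial.C_1, one_mul]
  refine ⟨⟨MvPolynomial.C (9 : K0)⁻¹ * a0, MvPolynomial.C (54 : K0)⁻¹ * b0, ?_, ?_, ?_, ?_⟩⟩
  · have h := (MvPolynomial.isHomogeneous_C (Fin 3) (9 : K0)⁻¹).mul ha0
    rwa [zero_add] at h
  · have h := (MvPolynomial.isHomogeneous_C (Fin 3) (54 : K0)⁻¹).mul hb0
    rwa [zero_add] at h
  · intro i hi
    rw [e9]
    fin_cases i
    · exact absurd rfl hi
    · exact ha1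
    · exact ha2
  · intro i hi
    rw [e54]
    fin_cases i
    · exact absurd rfl hi
    · exact hb1
    · exact hb2

end H25.EX
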