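import Pool.Agent.H25.DP.NoL

/-! # EX.BuildC : the normalised frame of a good tangent line, with the point of tangency (variant of `H25.DP.BuildF`) -/

namespace H25.EX

open H25.DP

variable {K0 : Type} [Field K0] [IsAlgClosed K0]

private theorem lc_ne {F : Type} [Field F] {g h : Fin 3 → F} (hgh : cr g h ≠ 0) {x y : F} (hxy : ¬ (x = 0 ∧ y = 0)) :
    lc x y g h ≠ 0 := by
  intro h0
  have h1 : ∀ i, x * g i + y * h i = 0 := fun i => congrFun h0 i
  apply hgh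
  by_cases hx : x = 0
  · have hy : y ≠ 0 := fun h => hxy ⟨hx, h⟩
    have h2 : ∀ i, h i = 0 := fun i => by
      have := h1 i
      rw [hx, zero_mul, zero_add] at this
      exact (mul_eq_zero.1 this).resolve_left hy
    funext i
    fin_cases i <;> simp [cr, h2]
  · have h2 : ∀ i, g i = -(y / x) * h i := fun i => by
      have := h1 i
      field_simp
      linear_combination this
    funext i
    fin_cases i <;> simp only [cr, h2] <;> simp <;> ring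

theorem build_c {f : MvPolynomial (Fin 3) K0} (hf : Sm f) {K : Type} [Field K] [IsAlgClosed K] [CharZero K] [Algebra K0 K]
    {g h : Fin 3 → K} (hgh : cr g h ≠ 0) {s1 s2 q0 q1 q2 q3 : K}
    (H : ∀ x y : K, ev f (lc x y g h) = (s1 * x + s2 * y) ^ 2 * quar q0 q1 q2 q3 x y) (hq : q0 ≠ 0)
    (hD : dis q0 q1 q2 q3 ≠ 0) :
    ∃ (r : Frm f K) (k l m κ : K), k ≠ 0 ∧ m ≠ 0 ∧ (∀ i, r.d i = k * g i) ∧ (∀ i, r.e i = l * g i + m * h i) ∧ κ ≠ 0 ∧
      ∀ i, lc r.t (-r.s) r.d r.e i = κ * lc s2 (-s1) g h i := by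
  have hs : ¬ (s2 = 0 ∧ -s1 = 0) := by
    rintro ⟨h1, h2⟩
    obtain ⟨x, y, hxy⟩ := no_line hf hgh
    apply hxy
    rw [H, h1, neg_eq_zero.1 h2]
    ring
  have hc0 : lc s2 (-s1) g h ≠ 0 := lc_ne hgh hs
  obtain ⟨ht1, ht2⟩ := tang H
  obtain ⟨θ, hθ⟩ := perp hgh ht1 ht2
  have hθ0 : θ ≠ 0 := by
    intro h0
    apply sm_ext hf hc0
    funext i
    rw [hθ i, h0, zero_mul]
    rfl
  obtain ⟨D0, hD0⟩ : ∃ D0 : K, D0 = - dis q0 q1 q2 q3 / (108 * q0 ^ 4) := ⟨_, rfl⟩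
  have h108 : (108 : K) ≠ 0 := by norm_num
  have hD0' : D0 ≠ 0 := by
    rw [hD0]
    exact div_ne_zero (neg_ne_zero.2 hD) (mul_ne_zero h108 (pow_ne_zero _ hq))
  obtain ⟨L, hL⟩ := IsAlgClosed.exists_pow_nat_eq (D0⁻¹) (show 0 < 6 by norm_num)
  have hL0 : L ≠ 0 := by
    intro h0
    rw [h0, zero_pow (by norm_num)] at hL
    exact inv_ne_zero hD0' hL.symm
  obtain ⟨r0, hr0⟩ := IsAlgClosed.exists_pow_nat_eq (q0 * L) (show 0 < 2 by norm_num)
  have hr00 : r0 ≠ 0 := by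
    intro h0
    rw [h0, zero_pow (by norm_num)] at hr0
    exact mul_ne_zero hq hL0 hr0.symm
  obtain ⟨k, hk⟩ := IsAlgClosed.exists_pow_nat_eq ((r0 ^ 5 * L ^ 4 * θ)⁻¹) (show 0 < 18 by norm_num)
  have hz0 : r0 ^ 5 * L ^ 4 * θ ≠ 0 := mul_ne_zero (mul_ne_zero (pow_ne_zero _ hr00) (pow_ne_zero _ hL0)) hθ0
  have hk0 : k ≠ 0 := by
    intro h0
    rw [h0, zero_pow (by norm_num)] at hk
    exact inv_ne_zero hz0 hk.symm
  have hL' : L ^ 6 * D0 = 1 := by
    rw [hL, inv_mul_cancel₀ hD0']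
  have hk' : k ^ 18 * (r0 ^ 5 * L ^ 4 * θ) = 1 := by
    rw [hk, inv_mul_cancel₀ hz0]
  have hline : ∀ x : K, ev f (lc x 1 (fun i => k * g i) (fun i => (- q1 * (L * k) / (3 * q0)) * g i + L * k * h i)) =
      ((r0 * k ^ 2 * s1 * k) * x + r0 * k ^ 2 * (s1 * (- q1 * (L * k) / (3 * q0)) + s2 * (L * k))) ^ 2 *
        (x ^ 3 - 3 * (- L ^ 2 * (q2 - q1 ^ 2 / (3 * q0)) / (3 * q0)) * x -
          2 * (- L ^ 3 * (2 * q1 ^ 3 / (27 * q0 ^ 2) - q1 * q2 / (3 * q0) + q3) / (2 * q0))) := by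
    intro x
    have e1 : lc x 1 (fun i => k * g i) (fun i => (- q1 * (L * k) / (3 * q0)) * g i + L * k * h i) =
        lc (k * x + (- q1 * (L * k) / (3 * q0))) (L * k) g h := by
      funext i
      simp only [lc]
      ring
    have e2 : quar q0 q1 q2 q3 (k * x + (- q1 * (L * k) / (3 * q0))) (L * k) = q0 * L * k ^ 4 *
        (x ^ 3 - 3 * (- L ^ 2 * (q2 - q1 ^ 2 / (3 * q0)) / (3 * q0)) * x -
          2 * (- L ^ 3 * (2 * q1 ^ 3 / (27 * q0 ^ 2) - q1 * q2 / (3 * q0) + q3) / (2 * q0))) := by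
      unfold quar
      field_simp
      ring
    rw [e1, H, e2, ← hr0]
    ring
  have hdisc : (- L ^ 3 * (2 * q1 ^ 3 / (27 * q0 ^ 2) - q1 * q2 / (3 * q0) + q3) / (2 * q0)) ^ 2 -
      (- L ^ 2 * (q2 - q1 ^ 2 / (3 * q0)) / (3 * q0)) ^ 3 = 1 := by
    rw [← hL', hD0]
    unfold dis
    field_simp
    ring
  have hgrd : grad f (lc (r0 * k ^ 2 * (s1 * (- q1 * (L * k) / (3 * q0)) + s2 * (L * k))) (-(r0 * k ^ 2 * s1 * k))
      (fun i => k * g i) (fun i => (- q1 * (L * k) / (3 * q0)) * g i + L * k * h i)) =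
      cr (fun i => k * g i) (fun i => (- q1 * (L * k) / (3 * q0)) * g i + L * k * h i) := by
    have e1 : lc (r0 * k ^ 2 * (s1 * (- q1 * (L * k) / (3 * q0)) + s2 * (L * k))) (-(r0 * k ^ 2 * s1 * k))
      (fun i => k * g i) (fun i => (- q1 * (L * k) / (3 * q0)) * g i + L * k * h i) =
      fun i => (r0 * k ^ 2 * k * (L * k)) * lc s2 (-s1) g h i := by
      funext i
      simp only [lc]
      ring
    have e2 : ∀ i, cr (fun i => k * g i) (fun i => (- q1 * (L * k) / (3 * q0)) * g i + L * k * h i) i =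
        k * (L * k) * cr g h i := by
      intro i
      generalize - q1 * (L * k) / (3 * q0) = l
      fin_cases i <;> simp only [cr] <;> simp <;> ring
    rw [e1]
    funext i
    rw [grad_smul (n := 5) hf.hom, e2, hθ i]
    have e3 : (r0 * k ^ 2 * k * (L * k)) ^ 5 * (θ * cr g h i) =
        (k ^ 18 * (r0 ^ 5 * L ^ 4 * θ)) * (k * (L * k) * cr g h i) := by ring
    rw [e3, hk', one_mul]
  refine ⟨⟨fun i => k * g i, fun i => (- q1 * (L * k) / (3 * q0)) * g i + L * k * h i, _, _, _, _,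
    lin_of hline, hdisc, hgrd⟩, k, - q1 * (L * k) / (3 * q0), L * k, r0 * k ^ 2 * k * (L * k), hk0, mul_ne_zero hL0 hk0,
    fun _ => rfl, fun _ => rfl, mul_ne_zero (mul_ne_zero (mul_ne_zero hr00 (pow_ne_zero _ hk0)) hk0) (mul_ne_zero hL0 hk0),
    fun i => ?_⟩
  simp only [lc]
  ring

end H25.EX
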