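import Pool.Agent.H25.EX.Def
import Pool.Agent.H25.DP.LinF

/-! # EX.Quart : the invariants in terms of a basis of the tangent line (about 120 lines)

`c = s2 g - s1 h`, `grad f c = θ (g × h)`, so `tv f i c = θ (g × h) × e_i = θ ((g i) h - (h i) g)` and `X tv + c = (s2 - θ h_i X) g + (- s1 + θ g_i X) h` =: `x g + y h`, `s1 x + s2 y = θ X (s2 g_i - s1 h_i) = θ c_i X`.
So for all `X ∈ F` (`lin_eval`): `(lin f (tv f i c) c).eval X = (θ c_i X)^2 quar q0 q1 q2 q3 (s2 - θ h_i X) (- s1 + θ g_i X)`; as polynomials (`Polynomial.funext`, `F` infinite) `lin = C (θ c_i)^2 X^2 * (explicit polynomial of degree 4)`: read off `qc f i c j`, `j = 0, .., 4`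
(e.g. write the right hand side as `∑ C (r_j) X^(j+2)` with explicit `r_j` and use `Polynomial.coeff_..` simp lemmas).  The quartic is `q0 x^3 y + q1 x^2 y^2 + q2 x y^3 + q3 y^4` with `x = s2 - θ h_i X`, `y = - s1 + θ g_i X`; the determinant of the substitution is
`s2 θ g_i - s1 θ h_i = θ c_i`, so `I = (θ c_i)^4 (θ c_i)^4 (q1^2 - 3 q0 q2)`, `J = (θ c_i)^6 (θ c_i)^6 (9 q0 q1 q2 - 27 q0^2 q3 - 2 q1^3)`: with `D = s2 G - s1 H`, `G = θ g_i`, `H = θ h_i`, a polynomial identity: `ring`. -/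

namespace H25.EX

open H25.DP

variable {K0 : Type} [Field K0]

/-- the coefficients of the quartic `quar q0 q1 q2 q3 (s2 - H x) (- s1 + G x)` -/
private def rr {F : Type} [CommRing F] (q0 q1 q2 q3 s1 s2 G H : F) : ℕ → F
  | 0 => q0 * (-(s1 * s2 ^ 3)) + q1 * (s2 ^ 2 * s1 ^ 2) + q2 * (-(s2 * s1 ^ 3)) + q3 * s1 ^ 4
  | 1 => q0 * (G * s2 ^ 3 + 3 * s1 * s2 ^ 2 * H) + q1 * (-(2 * s1 * G * s2 ^ 2) - 2 * s2 * H * s1 ^ 2) +
      q2 * (3 * s1 ^ 2 * G * s2 + H * s1 ^ 3) + q3 * (-(4 * s1 ^ 3 * G))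
  | 2 => q0 * (-(3 * s2 ^ 2 * H * G) - 3 * s1 * s2 * H ^ 2) +
      q1 * (s2 ^ 2 * G ^ 2 + 4 * s1 * s2 * G * H + H ^ 2 * s1 ^ 2) +
      q2 * (-(3 * s1 * G ^ 2 * s2) - 3 * s1 ^ 2 * G * H) + q3 * (6 * s1 ^ 2 * G ^ 2)
  | 3 => q0 * (3 * s2 * H ^ 2 * G + s1 * H ^ 3) + q1 * (-(2 * s2 * H * G ^ 2) - 2 * s1 * G * H ^ 2) +
      q2 * (G ^ 3 * s2 + 3 * s1 * G ^ 2 * H) + q3 * (-(4 * s1 * G ^ 3))
  | _ => q0 * (-(H ^ 3 * G)) + q1 * (H ^ 2 * G ^ 2) + q2 * (-(G ^ 3 * H)) + q3 * G ^ 4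

private theorem rr_val {F : Type} [CommRing F] (q0 q1 q2 q3 s1 s2 G H x : F) :
    quar q0 q1 q2 q3 (s2 - H * x) (-s1 + G * x) = rr q0 q1 q2 q3 s1 s2 G H 0 +
      rr q0 q1 q2 q3 s1 s2 G H 1 * x + rr q0 q1 q2 q3 s1 s2 G H 2 * x ^ 2 +
      rr q0 q1 q2 q3 s1 s2 G H 3 * x ^ 3 + rr q0 q1 q2 q3 s1 s2 G H 4 * x ^ 4 := by
  simp only [quar, rr]
  ring

private theorem rr_I {F : Type} [CommRing F] (q0 q1 q2 q3 s1 s2 G H : F) :
    iI (rr q0 q1 q2 q3 s1 s2 G H 0) (rr q0 q1 q2 q3 s1 s2 G H 1) (rr q0 q1 q2 q3 s1 s2 G H 2)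
      (rr q0 q1 q2 q3 s1 s2 G H 3) (rr q0 q1 q2 q3 s1 s2 G H 4) =
      (s2 * G - s1 * H) ^ 4 * (q1 ^ 2 - 3 * q0 * q2) := by
  simp only [iI, rr]
  ring

private theorem rr_J {F : Type} [CommRing F] (q0 q1 q2 q3 s1 s2 G H : F) :
    iJ (rr q0 q1 q2 q3 s1 s2 G H 0) (rr q0 q1 q2 q3 s1 s2 G H 1) (rr q0 q1 q2 q3 s1 s2 G H 2)
      (rr q0 q1 q2 q3 s1 s2 G H 3) (rr q0 q1 q2 q3 s1 s2 G H 4) =
      (s2 * G - s1 * H) ^ 6 * (9 * q0 * q1 * q2 - 27 * q0 ^ 2 * q3 - 2 * q1 ^ 3) := by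
  simp only [iJ, rr]
  ring

private theorem cr_cr_ee {F : Type} [CommRing F] (g h : Fin 3 → F) (i j : Fin 3) :
    cr (cr g h) (ee i) j = g i * h j - h i * g j := by
  fin_cases i <;> fin_cases j <;> simp [cr, ee] <;> ring

open Polynomial in
theorem quart {f : MvPolynomial (Fin 3) K0} {F : Type} [Field F] [Infinite F] [Algebra K0 F] {g h : Fin 3 → F}
    {s1 s2 q0 q1 q2 q3 θ : F} (H : ∀ x y : F, ev f (lc x y g h) = (s1 * x + s2 * y) ^ 2 * quar q0 q1 q2 q3 x y)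
    (hθ : ∀ j, grad f (lc s2 (-s1) g h) j = θ * cr g h j) (i : Fin 3) :
    II f i (lc s2 (-s1) g h) = (θ * lc s2 (-s1) g h i) ^ 8 * (q1 ^ 2 - 3 * q0 * q2) ∧
      JJ f i (lc s2 (-s1) g h) = (θ * lc s2 (-s1) g h i) ^ 12 * (9 * q0 * q1 * q2 - 27 * q0 ^ 2 * q3 - 2 * q1 ^ 3) := by
  obtain ⟨c, hc⟩ : ∃ c : Fin 3 → F, c = lc s2 (-s1) g h := ⟨_, rfl⟩
  rw [← hc] at hθ ⊢
  have hcj : ∀ j, c j = s2 * g j + -s1 * h j := fun j => by rw [hc]; rfl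
  have htv : ∀ j, tv f i c j = θ * (g i * h j - h i * g j) := by
    intro j
    have h1 : grad f c = fun j => θ * cr g h j := funext hθ
    have h2 : tv f i c j = θ * cr (cr g h) (ee i) j := by
      unfold tv
      rw [h1]
      fin_cases j <;> simp [cr] <;> ring
    rw [h2, cr_cr_ee]
  set D : F := s2 * (θ * g i) - s1 * (θ * h i) with hD
  have hDc : θ * c i = D := by
    rw [hD, hcj]
    ring
  -- the polynomial
  have hlin : lin f (tv f i c) c = C (D ^ 2 * rr q0 q1 q2 q3 s1 s2 (θ * g i) (θ * h i) 0) * X ^ 2 +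
      C (D ^ 2 * rr q0 q1 q2 q3 s1 s2 (θ * g i) (θ * h i) 1) * X ^ 3 +
      C (D ^ 2 * rr q0 q1 q2 q3 s1 s2 (θ * g i) (θ * h i) 2) * X ^ 4 +
      C (D ^ 2 * rr q0 q1 q2 q3 s1 s2 (θ * g i) (θ * h i) 3) * X ^ 5 +
      C (D ^ 2 * rr q0 q1 q2 q3 s1 s2 (θ * g i) (θ * h i) 4) * X ^ 6 := by
    refine Polynomial.funext fun x => ?_
    rw [lin_eval]
    have h1 : lc x 1 (tv f i c) c = lc (s2 - θ * h i * x) (-s1 + θ * g i * x) g h := by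
      funext j
      simp only [lc, htv, hcj]
      ring
    rw [h1, H, rr_val]
    simp only [eval_add, eval_mul, eval_pow, eval_C, eval_X]
    rw [hD]
    ring
  have hqc : ∀ j, j < 5 → qc f i c j = D ^ 2 * rr q0 q1 q2 q3 s1 s2 (θ * g i) (θ * h i) j := by
    intro j hj
    unfold qc
    rw [hlin]
    simp only [coeff_add, coeff_C_mul, coeff_X_pow]
    interval_cases j <;> norm_num
  refine ⟨?_, ?_⟩
  · unfold II
    rw [hqc 0 (by norm_num), hqc 1 (by norm_num), hqc 2 (by norm_num), hqc 3 (by norm_num), hqc 4 (by norm_num), hDc]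
    have h1 := rr_I q0 q1 q2 q3 s1 s2 (θ * g i) (θ * h i)
    rw [← hD] at h1
    have h2 : ∀ a b c d e : F, iI (D ^ 2 * a) (D ^ 2 * b) (D ^ 2 * c) (D ^ 2 * d) (D ^ 2 * e) =
        D ^ 4 * iI a b c d e := by
      intro a b c d e
      simp only [iI]
      ring
    rw [h2, h1]
    ring
  · unfold JJ
    rw [hqc 0 (by norm_num), hqc 1 (by norm_num), hqc 2 (by norm_num), hqc 3 (by norm_num), hqc 4 (by norm_num), hDc]
    have h1 := rr_J q0 q1 q2 q3 s1 s2 (θ * g i) (θ * h i)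
    rw [← hD] at h1
    have h2 : ∀ a b c d e : F, iJ (D ^ 2 * a) (D ^ 2 * b) (D ^ 2 * c) (D ^ 2 * d) (D ^ 2 * e) =
        D ^ 6 * iJ a b c d e := by
      intro a b c d e
      simp only [iJ]
      ring
    rw [h2, h1]
    ring

end H25.EX
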