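import Pool.Agent.H25.EX.ABx
import Pool.Agent.H25.EX.Quart
import Pool.Agent.H25.EX.LinC
import Pool.Agent.H25.EX.BuildC

/-! # EX.AbV : the values of `a`, `b` at the point of tangency; existence of frames over a point of the curve (assembly) -/

namespace H25.EX

open H25.DP

variable {K0 : Type} [Field K0] {f : MvPolynomial (Fin 3) K0}

/-- the defining identities at a point of the curve -/
theorem ab_pt (A : AB f) {F : Type} [Field F] [Algebra K0 F] {c : Fin 3 → F} (h0 : ev f c = 0) {i : Fin 3} (hi : i ≠ 0) :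
    c i ^ 8 * (9 * ev A.a c) = II f i c ∧ c i ^ 12 * (54 * ev A.b c) = JJ f i c := by
  have key : ∀ p ∈ (Ideal.span {f} : Ideal (MvPolynomial (Fin 3) K0)), (MvPolynomial.aeval c) p = (0 : F) := by
    intro p hp
    obtain ⟨q, rfl⟩ := Ideal.mem_span_singleton'.1 hp
    rw [map_mul]
    have h1 : MvPolynomial.aeval c f = (0 : F) := h0
    rw [h1, mul_zero]
  have hX : (fun l => (MvPolynomial.aeval c) (XX K0 l)) = c := by
    funext l
    exact MvPolynomial.aeval_X c l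
  constructor
  · have h := key _ (A.ai i hi)
    rw [map_sub, II_map, hX, sub_eq_zero] at h
    rw [← h]
    simp only [map_mul, map_pow, map_ofNat, MvPolynomial.aeval_X]
    rfl
  · have h := key _ (A.bi i hi)
    rw [map_sub, JJ_map, hX, sub_eq_zero] at h
    rw [← h]
    simp only [map_mul, map_pow, map_ofNat, MvPolynomial.aeval_X]
    rfl

/-- a point of the curve has a nonzero coordinate with positive index -/
theorem ne_pt (hf : f.IsHomogeneous 6) (h1 : MvPolynomial.eval ![1, 0, 0] f ≠ 0) {F : Type} [Field F] [Algebra K0 F]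
    {c : Fin 3 → F} (hc : c ≠ 0) (h0 : ev f c = 0) : ∃ i : Fin 3, i ≠ 0 ∧ c i ≠ 0 := by
  by_contra hcon
  push Not at hcon
  have h1' : c 1 = 0 := hcon 1 (by decide)
  have h2' : c 2 = 0 := hcon 2 (by decide)
  have hc0 : c 0 ≠ 0 := by
    intro h
    apply hc
    funext i
    fin_cases i
    · exact h
    · exact h1'
    · exact h2'
  have e1 : c = fun i => c 0 * (fun j => algebraMap K0 F ((![1, 0, 0] : Fin 3 → K0) j)) i := by
    funext i
    fin_cases i <;> simp [h1', h2']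
  rw [e1, ev_smul hf, mul_eq_zero] at h0
  have h2 := h0.resolve_left (pow_ne_zero _ hc0)
  apply h1
  have h3 : ev f (fun j => algebraMap K0 F ((![1, 0, 0] : Fin 3 → K0) j)) = algebraMap K0 F (MvPolynomial.eval ![1, 0, 0] f) := by
    have h4 := ev_map (Algebra.ofId K0 F) f (![1, 0, 0] : Fin 3 → K0)
    have h5 : ev f (![1, 0, 0] : Fin 3 → K0) = MvPolynomial.eval ![1, 0, 0] f := by
      unfold ev
      rw [MvPolynomial.aeval_eq_eval]
    rw [h5] at h4
    exact h4.symm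
  rw [h3] at h2
  exact (map_eq_zero_iff _ (algebraMap K0 F).injective).1 h2

/-- values in terms of a basis of the tangent line -/
theorem ab_val (A : AB f) (hf : f.IsHomogeneous 6) (h1 : MvPolynomial.eval ![1, 0, 0] f ≠ 0) {F : Type} [Field F] [Infinite F]
    [Algebra K0 F] {g h : Fin 3 → F} {s1 s2 q0 q1 q2 q3 θ : F}
    (H : ∀ x y : F, ev f (lc x y g h) = (s1 * x + s2 * y) ^ 2 * quar q0 q1 q2 q3 x y)
    (hθ : ∀ j, grad f (lc s2 (-s1) g h) j = θ * cr g h j) (hc : lc s2 (-s1) g h ≠ 0) :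
    ev f (lc s2 (-s1) g h) = 0 ∧ 9 * ev A.a (lc s2 (-s1) g h) = θ ^ 8 * (q1 ^ 2 - 3 * q0 * q2) ∧
      54 * ev A.b (lc s2 (-s1) g h) = θ ^ 12 * (9 * q0 * q1 * q2 - 27 * q0 ^ 2 * q3 - 2 * q1 ^ 3) := by
  have h0 : ev f (lc s2 (-s1) g h) = 0 := by
    rw [H]
    ring
  obtain ⟨i, hi, hci⟩ := ne_pt hf h1 hc h0
  obtain ⟨e1, e2⟩ := ab_pt A h0 hi
  obtain ⟨e3, e4⟩ := quart H hθ i
  refine ⟨h0, ?_, ?_⟩
  · rw [e3, mul_pow] at e1
    refine mul_left_cancel₀ (pow_ne_zero 8 hci) ?_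
    rw [e1]
    ring
  · rw [e4, mul_pow] at e2
    refine mul_left_cancel₀ (pow_ne_zero 12 hci) ?_
    rw [e2]
    ring

/-- the discriminant -/
theorem ab_dis [CharZero K0] (A : AB f) (hf : f.IsHomogeneous 6) (h1 : MvPolynomial.eval ![1, 0, 0] f ≠ 0) {F : Type} [Field F]
    [Algebra K0 F] {g h : Fin 3 → F} {s1 s2 q0 q1 q2 q3 θ : F}
    (H : ∀ x y : F, ev f (lc x y g h) = (s1 * x + s2 * y) ^ 2 * quar q0 q1 q2 q3 x y)
    (hθ : ∀ j, grad f (lc s2 (-s1) g h) j = θ * cr g h j) (hc : lc s2 (-s1) g h ≠ 0) :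
    108 * (ev A.b (lc s2 (-s1) g h) ^ 2 - ev A.a (lc s2 (-s1) g h) ^ 3) = -θ ^ 24 * (q0 ^ 2 * dis q0 q1 q2 q3) := by
  have hchar : CharZero F := charZero_of_injective_algebraMap (algebraMap K0 F).injective
  obtain ⟨-, e1, e2⟩ := ab_val A hf h1 H hθ hc
  have ea : ev A.a (lc s2 (-s1) g h) = θ ^ 8 * (q1 ^ 2 - 3 * q0 * q2) / 9 := by
    rw [eq_div_iff (by norm_num)]
    linear_combination e1
  have eb : ev A.b (lc s2 (-s1) g h) = θ ^ 12 * (9 * q0 * q1 * q2 - 27 * q0 ^ 2 * q3 - 2 * q1 ^ 3) / 54 := by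
    rw [eq_div_iff (by norm_num)]
    linear_combination e2
  rw [ea, eb]
  unfold dis
  field_simp
  ring

/-- the values at the point of tangency of a frame -/
theorem ab_frm [CharZero K0] (A : AB f) (hf : f.IsHomogeneous 6) (h1 : MvPolynomial.eval ![1, 0, 0] f ≠ 0) {F : Type} [Field F]
    [Algebra K0 F] (r : Frm f F) (hr : cr r.d r.e ≠ 0) :
    lc r.t (-r.s) r.d r.e ≠ 0 ∧ ev f (lc r.t (-r.s) r.d r.e) = 0 ∧ ev A.a (lc r.t (-r.s) r.d r.e) = r.a ∧
      ev A.b (lc r.t (-r.s) r.d r.e) = r.b := by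
  have hchar : CharZero F := charZero_of_injective_algebraMap (algebraMap K0 F).injective
  have hc : lc r.t (-r.s) r.d r.e ≠ 0 := by
    intro h0
    have h2 := r.grd
    rw [h0] at h2
    apply hr
    rw [← h2]
    funext i
    have h3 := grad_smul (n := 5) hf (0 : F) (0 : Fin 3 → F) i
    have e : (fun j => (0 : F) * (0 : Fin 3 → F) j) = 0 := funext fun j => zero_mul _
    rw [e, zero_pow (by norm_num), zero_mul] at h3
    exact h3
  have H := lin_fun hf r.line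
  obtain ⟨e0, e1, e2⟩ := ab_val A hf h1 (θ := 1) H (fun j => by rw [r.grd, one_mul]) hc
  refine ⟨hc, e0, ?_, ?_⟩
  · have h9 : (9 : F) ≠ 0 := by norm_num
    refine mul_left_cancel₀ h9 ?_
    rw [e1]
    ring
  · have h54 : (54 : F) ≠ 0 := by norm_num
    refine mul_left_cancel₀ h54 ?_
    rw [e2]
    ring

/-- a frame over every point of the curve with a good tangent line -/
theorem fr_exists [IsAlgClosed K0] [CharZero K0] (A : AB f) (hf : Sm f) (h1 : MvPolynomial.eval ![1, 0, 0] f ≠ 0) {K : Type}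
    [Field K] [IsAlgClosed K] [Algebra K0 K] {c : Fin 3 → K} (hc : c ≠ 0) (h0 : ev f c = 0)
    (hD : ev A.b c ^ 2 ≠ ev A.a c ^ 3) :
    ∃ (r : Frm f K) (κ : K), cr r.d r.e ≠ 0 ∧ κ ≠ 0 ∧ ∀ i, lc r.t (-r.s) r.d r.e i = κ * c i := by
  have hchar : CharZero K := charZero_of_injective_algebraMap (algebraMap K0 K).injective
  have hinf : Infinite K := IsAlgClosed.instInfinite
  obtain ⟨g, h, s1, s2, q0, q1, q2, q3, hgh, -, H, ε, hε, hcε⟩ := line_basis_c hf hc h0
  have hc0 : lc s2 (-s1) g h ≠ 0 := by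
    intro h2
    apply hc
    funext i
    have h3 := hcε i
    rw [h2] at h3
    exact (mul_eq_zero.1 h3.symm).resolve_left hε
  obtain ⟨ht1, ht2⟩ := tang H
  obtain ⟨θ, hθ⟩ := perp hgh ht1 ht2
  have hdis := ab_dis A hf.hom h1 H hθ hc0
  have ec : lc s2 (-s1) g h = fun i => ε * c i := funext hcε
  have hne : ev A.b (lc s2 (-s1) g h) ^ 2 - ev A.a (lc s2 (-s1) g h) ^ 3 ≠ 0 := by
    rw [ec, ev_smul A.ha, ev_smul A.hb]
    have h2 : (ε ^ 54 * ev A.b c) ^ 2 - (ε ^ 36 * ev A.a c) ^ 3 = ε ^ 108 * (ev A.b c ^ 2 - ev A.a c ^ 3) := by ring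
    rw [h2]
    exact mul_ne_zero (pow_ne_zero _ hε) (sub_ne_zero.2 hD)
  have hq : q0 ^ 2 * dis q0 q1 q2 q3 ≠ 0 := by
    intro h2
    rw [h2, mul_zero, mul_eq_zero] at hdis
    rcases hdis with h3 | h3
    · norm_num at h3
    · exact hne h3
  have hq0 : q0 ≠ 0 := by
    rintro rfl
    apply hq
    ring
  have hqd : dis q0 q1 q2 q3 ≠ 0 := fun h2 => hq (by rw [h2, mul_zero])
  obtain ⟨r, k, l, m, κ, hk, hm, hd, he, hκ, hcκ⟩ := build_c hf hgh H hq0 hqd
  refine ⟨r, κ * ε, ?_, mul_ne_zero hκ hε, fun i => by rw [hcκ, hcε, mul_assoc]⟩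
  have hcr : cr r.d r.e = fun i => (k * m) * cr g h i := by
    have e1 : r.d = fun i => k * g i := funext hd
    have e2 : r.e = fun i => l * g i + m * h i := funext he
    rw [e1, e2]
    funext i
    fin_cases i <;> simp [cr] <;> ring
  rw [hcr]
  intro h2
  apply hgh
  funext i
  have h3 := congrFun h2 i
  exact (mul_eq_zero.1 h3).resolve_left (mul_ne_zero hk hm)

end H25.EX
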