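import Mathlib

/-! # EX.Hil6 : the number of forms of degree `m` on a plane sextic (MATHLIB only, about 150 lines)

`W m = weightedHomogeneousSubmodule K (fun _ => 1) m` (`= homogeneousSubmodule (Fin 3) K m`).  `finrank (W m) = (m + 2).choose 2`: the monomials of degree `m` are a basis (`MvPolynomial.weightedHomogeneousSubmodule_eq_finsupp_supported`, `Finsupp.supportedEquivFinsupp`; the number of `d : Fin 3 →₀ ℕ` with
`weight (fun _ => 1) d = m`: `Finset.finsuppAntidiag`, `Sym.card_sym_eq_choose`, or by hand: `(d 0, d 1)` with `d 0 + d 1 ≤ m`).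
The map `W m → (W m).map (mkₐ)` is surjective with the kernel `W m ∩ span {F}` (`LinearMap.finrank_range_add_finrank_ker`), and `W (m - 6) → W m ∩ span {F}`, `g ↦ g F`, is a linear isomorphism: injective because `F ≠ 0` (domain), surjective because a homogeneous multiple `g F` of degree `m` has
`g F = g_(m-6) F` with `g_(m-6)` the component of degree `m - 6` of `g` (`MvPolynomial.homogeneousComponent_mul`-like: compare the components of degree `m`; `hF`).
So the dimension is `(m+2).choose 2 - (m-4).choose 2 = 6 m - 9`. -/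

namespace H25.EX

open MvPolynomial in
private theorem finrank_hs (K : Type) [Field K] (m : ℕ) :
    Module.finrank K (homogeneousSubmodule (Fin 3) K m) = (m + 2).choose 2 := by
  have h1 : Module.finrank K (homogeneousSubmodule (Fin 3) K m) =
      Nat.card {d : Fin 3 →₀ ℕ | d.degree = m} := by
    rw [homogeneousSubmodule_eq_finsupp_supported]
    exact Module.finrank_eq_nat_card_basis (basisRestrictSupport K {d : Fin 3 →₀ ℕ | d.degree = m})
  have h2 : {d : Fin 3 →₀ ℕ | d.degree = m} =
      ((Finset.univ : Finset (Fin 3)).finsuppAntidiag m : Set (Fin 3 →₀ ℕ)) := by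
    ext d
    simp [Finset.mem_finsuppAntidiag, Finsupp.degree_eq_sum]
  rw [h1, h2, Nat.card_coe_set_eq, Set.ncard_coe_finset,
    Finset.card_finsuppAntidiag_nat_eq_choose]
  simp only [Finset.card_univ, Fintype.card_fin]
  rw [show 3 + m - 1 = m + 2 by omega]
  exact Nat.choose_symm_add.symm ▸ rfl

open MvPolynomial in
private theorem hom_div {K : Type} [Field K] {F x c : MvPolynomial (Fin 3) K}
    (hF : F.IsHomogeneous 6) {m : ℕ} (hm : 6 ≤ m) (hx : x.IsHomogeneous m) (h : F * c = x) :
    ∃ c' : MvPolynomial (Fin 3) K, c'.IsHomogeneous (m - 6) ∧ c' * F = x := by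
  have h1 : x = homogeneousComponent m (F * c) := by
    rw [h, homogeneousComponent_eq_self hx]
  have h2 : homogeneousComponent m (F * c) =
      ∑ i ∈ Finset.range (c.totalDegree + 1),
        (if i = m - 6 then F * homogeneousComponent i c else 0) := by
    conv_lhs => rw [← sum_homogeneousComponent c]
    rw [Finset.mul_sum, map_sum]
    refine Finset.sum_congr rfl fun i _ => ?_
    have h3 : F * homogeneousComponent i c ∈ homogeneousSubmodule (Fin 3) K (6 + i) :=
      hF.mul (homogeneousComponent_isHomogeneous i c)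
    rw [homogeneousComponent_of_mem h3]
    by_cases h4 : i = m - 6
    · rw [if_pos h4, if_pos (by omega)]
    · rw [if_neg h4, if_neg (by omega)]
  rw [Finset.sum_ite_eq'] at h2
  split_ifs at h2 with h5
  · exact ⟨homogeneousComponent (m - 6) c, homogeneousComponent_isHomogeneous _ _, by
      rw [h1, h2, mul_comm]⟩
  · exact ⟨0, isHomogeneous_zero _ _ _, by rw [h1, h2, zero_mul]⟩

theorem hil6 {K : Type} [Field K] {F : MvPolynomial (Fin 3) K} (hF : F.IsHomogeneous 6) (hF0 : F ≠ 0) {m : ℕ}
    (hm : 6 ≤ m) :
    Module.finrank K ((MvPolynomial.weightedHomogeneousSubmodule K (fun _ : Fin 3 => 1) m).map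
      (Ideal.Quotient.mkₐ K (Ideal.span {F})).toLinearMap) + 10 = m * 6 + 1 := by
  classical
  open MvPolynomial in
  change Module.finrank K ((homogeneousSubmodule (Fin 3) K m).map
      (Ideal.Quotient.mkₐ K (Ideal.span {F})).toLinearMap) + 10 = m * 6 + 1
  open MvPolynomial in
  have hfin : ∀ k : ℕ, Module.Finite K (homogeneousSubmodule (Fin 3) K k) := fun k =>
    Module.Finite.iff_fg.2 (homogeneousSubmodule_fg (Fin 3) K k)
  have := hfin m
  have := hfin (m - 6)
  set f := (Ideal.Quotient.mkₐ K (Ideal.span {F})).toLinearMap with hf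
  open MvPolynomial in
  let L : homogeneousSubmodule (Fin 3) K (m - 6) →ₗ[K] homogeneousSubmodule (Fin 3) K m :=
    { toFun := fun g => ⟨g.1 * F, by
        have h1 : (g.1 * F).IsHomogeneous (m - 6 + 6) := IsHomogeneous.mul g.2 hF
        rwa [show m - 6 + 6 = m by omega] at h1⟩
      map_add' := fun a b => by
        apply Subtype.ext
        simp [add_mul]
      map_smul' := fun r a => by
        apply Subtype.ext
        simp }
  have hLinj : Function.Injective L := by
    intro a b hab
    have h1 : a.1 * F = b.1 * F := congrArg Subtype.val hab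
    exact Subtype.ext (mul_right_cancel₀ hF0 h1)
  have hker : LinearMap.ker (f.domRestrict (MvPolynomial.homogeneousSubmodule (Fin 3) K m)) =
      LinearMap.range L := by
    ext x
    rw [LinearMap.mem_ker, LinearMap.mem_range]
    constructor
    · intro hx
      have h1 : x.1 ∈ Ideal.span {F} := by
        rw [← Ideal.Quotient.eq_zero_iff_mem]
        exact hx
      rw [Ideal.mem_span_singleton'] at h1
      obtain ⟨c, hc⟩ := h1
      obtain ⟨c', h2, h3⟩ := hom_div hF hm x.2 (by rw [mul_comm]; exact hc)
      exact ⟨⟨c', h2⟩, Subtype.ext h3⟩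
    · rintro ⟨g, rfl⟩
      have h1 : g.1 * F ∈ Ideal.span {F} := Ideal.mul_mem_left _ _ (Ideal.mem_span_singleton_self F)
      exact Ideal.Quotient.eq_zero_iff_mem.2 h1
  have h1 := LinearMap.finrank_range_add_finrank_ker
    (f.domRestrict (MvPolynomial.homogeneousSubmodule (Fin 3) K m))
  rw [LinearMap.range_domRestrict, hker, LinearMap.finrank_range_of_inj hLinj, finrank_hs,
    finrank_hs] at h1
  obtain ⟨k, rfl⟩ := Nat.exists_eq_add_of_le hm
  have h2 : (6 + k + 2).choose 2 = (k + 2).choose 2 + (6 * k + 27) := by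
    rw [Nat.choose_two_right, Nat.choose_two_right]
    have e1 : (6 + k + 2) * (6 + k + 2 - 1) = (k + 2) * (k + 2 - 1) + (6 * k + 27) * 2 := by
      rw [show 6 + k + 2 - 1 = k + 7 by omega, show k + 2 - 1 = k + 1 by omega]
      ring
    rw [e1, Nat.add_mul_div_right _ _ (by norm_num)]
  rw [show 6 + k - 6 + 2 = k + 2 by omega, h2] at h1
  omega

end H25.EX
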