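import Pool.Agent.H25.EX.Irr
import Pool.Agent.H25.EX.Hil6
import Pool.Agent.H25.DP.Def
import Pool.Agent.H99.RR.YDef

/-! # EX.SmH : a smooth plane sextic is a smooth curve of degree 6 and genus 10 in the sense of `RR.SmC` (about 80 lines)

`vpos`, `dpos`: trivial.  `hom`: `hF.hom` (`IsHomogeneous` is `IsWeightedHomogeneous 1`).  `prime`: `irr`.  `stab`: some `β i ≠ 0`, so `e ∣ 1`.  `hilb`: `hil6` with `N = 6` (`F ≠ 0`: otherwise all gradients vanish); `RR.frm` unfolds to the submodule of `hil6`.
`smooth`: `tan {F} β` is the kernel of the linear functional `w ↦ ∑ i, w i * eval β (pderiv i F)` on `Fin 3 → L`, which is not zero (`hF.sm`, `grad F β i = eval β (pderiv i F)`: `MvPolynomial.aeval_eq_eval`), so it is surjective and its kernel has dimension `3 - 1` (`LinearMap.finrank_range_add_finrank_ker`). -/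

namespace H25.EX

open H25.DP

private theorem smh_grad {L : Type} [Field L] (F : MvPolynomial (Fin 3) L) (β : Fin 3 → L) (i : Fin 3) :
    MvPolynomial.eval β (MvPolynomial.pderiv i F) = grad F β i := by
  change _ = MvPolynomial.aeval β (MvPolynomial.pderiv i F)
  rw [MvPolynomial.aeval_eq_eval]

private theorem smh_ne {L : Type} [Field L] {F : MvPolynomial (Fin 3) L} (hF : Sm F) : F ≠ 0 := by
  intro h0
  refine hF.sm (fun _ => 1) (fun h => one_ne_zero (congrFun h 0)) ?_
  funext i
  rw [← smh_grad, h0, map_zero, map_zero]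
  rfl

theorem smc {L : Type} [Field L] [IsAlgClosed L] {F : MvPolynomial (Fin 3) L} (hF : Sm F) :
    RR.SmC (fun _ : Fin 3 => 1) {F} 6 10 := by
  refine ⟨fun _ => Nat.one_pos, ?_, irr hF, ?_, ?_, ⟨6, fun m hm => hil6 hF.hom (smh_ne hF) hm⟩, by norm_num⟩
  · intro f hf
    rw [Set.mem_singleton_iff] at hf
    subst hf
    exact ⟨6, by norm_num, hF.hom⟩
  · intro β
    have hg := hF.sm β.1 β.2.1
    let φ : Module.Dual L (Fin 3 → L) := ∑ i, grad F β.1 i • LinearMap.proj i
    have hφ : ∀ w : Fin 3 → L, φ w = ∑ i, w i * grad F β.1 i := by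
      intro w
      simp only [φ, LinearMap.sum_apply, LinearMap.smul_apply, LinearMap.proj_apply, smul_eq_mul, mul_comm]
    have h0 : φ ≠ 0 := by
      intro h
      refine hg (funext fun i => ?_)
      have h1 : φ (Pi.single i 1) = 0 := by rw [h]; rfl
      rw [hφ, Finset.sum_eq_single i] at h1
      · simpa using h1
      · intro j _ hj
        rw [Pi.single_eq_of_ne hj, zero_mul]
      · intro h2
        exact absurd (Finset.mem_univ i) h2
    have h1 : RR.tan {F} β.1 = LinearMap.ker φ := by
      ext w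
      rw [LinearMap.mem_ker, hφ]
      change (∀ f ∈ ({F} : Set (MvPolynomial (Fin 3) L)), ∑ i, w i * MvPolynomial.eval β.1 (MvPolynomial.pderiv i f) = 0) ↔ _
      simp only [Set.mem_singleton_iff, forall_eq, smh_grad]
    have h2 := Module.Dual.finrank_ker_add_one_of_ne_zero h0
    rw [Module.finrank_fintype_fun_eq_card, Fintype.card_fin] at h2
    rw [h1]
    omega
  · intro β e he
    obtain ⟨i, hi⟩ : ∃ i, β.1 i ≠ 0 := by
      by_contra hc
      push Not at hc
      exact β.2.1 (funext hc)
    exact Nat.dvd_one.1 (he i hi)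

end H25.EX
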