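import Pool.Agent.H25.EX.Gam
import Pool.Agent.H25.EX.SmH
import Pool.Agent.H25.DP.Cov
import Pool.Agent.H99.RR.YRes

/-! # EX.Asm : the alternating products over one algebraically closed field (assembly) -/

namespace H25.EX

open H25.DP H77.AF H77.PB
open H68.BB (Om Place Rd tt)

variable {K0 : Type} [Field K0] [IsAlgClosed K0] [CharZero K0] {f : MvPolynomial (Fin 3) K0}

omit [IsAlgClosed K0] in
/-- the point at infinity -/
private theorem o_no (A : AB f) (hf : f.IsHomogeneous 6) (h1 : MvPolynomial.eval ![1, 0, 0] f ≠ 0) {K : Type} [Field K]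
    [Algebra K0 K] {R : XP f K} (h : Lf f (ES.o 3 K) R) : False := (lf_good A hf h1 h).1 rfl

/-- every class `P - ι P` is the class of a pair -/
theorem pair_ex (A : AB f) (hf : Sm f) (h1 : MvPolynomial.eval ![1, 0, 0] f ≠ 0) {K : Type} [Field K] [IsAlgClosed K]
    [Algebra K0 K] (x0 P : XP f K) : ∃ q : (pw (WE A K)).X,
      ((Finsupp.single (fun _ => gp x0 q.1) 1 - Finsupp.single (fun _ => gm x0 q.1) 1) -
        (Finsupp.single (fun _ => P) 1 - Finsupp.single (fun _ => P.inv) 1) : Cyc (xpd K f) 1) ∈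
        tor (RatEq (xpd K f) 1) := by
  have hcK : CharZero K := charZero_of_injective_algebraMap (algebraMap K0 K).injective
  rcases cover hf P with h | ⟨r, x, y, c, hr, hc, hxy, hp, hz⟩
  · refine ⟨⟨ES.o 3 K, ES.OnW_o (WE_ok A hf.hom K) K⟩, ?_⟩
    have hex : ¬ ∃ R : XP f K, Lf f (ES.o 3 K) R := fun ⟨R, hR⟩ => o_no A hf.hom h1 hR
    have hgp : gp x0 (ES.o 3 K) = x0 := dif_neg hex
    have hgm : gm x0 (ES.o 3 K) = x0 := dif_neg hex
    change ((Finsupp.single (fun _ => gp x0 (ES.o 3 K)) 1 - Finsupp.single (fun _ => gm x0 (ES.o 3 K)) 1) -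
        (Finsupp.single (fun _ => P) 1 - Finsupp.single (fun _ => P.inv) 1) : Cyc (xpd K f) 1) ∈ tor (RatEq (xpd K f) 1)
    rw [hgp, hgm]
    apply le_tor
    have h8 : ∀ a b c : (Fin 1 → XP f K) →₀ ℤ, a - a - (b - c) = -(b - c) := fun a b c => by abel
    exact (h8 _ _ _).symm ▸ AddSubgroup.neg_mem _ h
  · obtain ⟨hc0, hfc, ea, eb⟩ := ab_frm A hf.hom h1 r hr
    let w : ES.Pt 3 K := ⟨lc r.t (-r.s) r.d r.e, x, y⟩
    have hE : OnE A w := ⟨hfc, by
      change y ^ 2 = x ^ 3 - 3 * ev A.a (lc r.t (-r.s) r.d r.e) * x - 2 * ev A.b (lc r.t (-r.s) r.d r.e)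
      rw [ea, eb]
      exact hxy⟩
    have hw : ES.OnW (WE A K) w := onE_iff.2 ⟨Or.inl hc0, hE⟩
    refine ⟨⟨w, hw⟩, ?_⟩
    let R : XP f K :=
      { p := lc x 1 r.d r.e
        z := (r.s * x + r.t) * y
        ne := fun h0 => hr (cr_lc _ _ _ h0)
        eq := by
          rw [← lin_eval, r.line]
          simp only [Polynomial.eval_mul, Polynomial.eval_add, Polynomial.eval_sub, Polynomial.eval_pow,
            Polynomial.eval_C, Polynomial.eval_X]
          linear_combination (r.s * x + r.t) ^ 2 * hxy }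
    have hR : Lf f w R := by
      refine ⟨r, 1, hr, one_ne_zero, fun i => (one_mul _).symm, fun i => ?_, ?_⟩
      · change x * r.d i + 1 * r.e i = 1 ^ 18 * x * r.d i + r.e i
        ring
      · change (r.s * x + r.t) * y = (r.s * (1 ^ 18 * x) + r.t) * (1 ^ 27 * y)
        ring
    have hex : ∃ R : XP f K, Lf f w R := ⟨R, hR⟩
    have hgp : gp x0 w = hex.choose := dif_pos hex
    have hgm : gm x0 w = hex.choose.inv := dif_pos hex
    change ((Finsupp.single (fun _ => gp x0 w) 1 - Finsupp.single (fun _ => gm x0 w) 1) -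
        (Finsupp.single (fun _ => P) 1 - Finsupp.single (fun _ => P.inv) 1) : Cyc (xpd K f) 1) ∈ tor (RatEq (xpd K f) 1)
    rw [hgp, hgm]
    have h2 := lf_u A hf.hom h1 hE hex.choose_spec hR
    have h3 : (Finsupp.single (fun _ => R) 1 - Finsupp.single (fun _ => P) 1 : Cyc (xpd K f) 1) ∈ RatEq (xpd K f) 1 := by
      refine scale hc (fun i => ?_) hz
      rw [hp]
      change c * (x * r.d i + r.e i) = c * (x * r.d i + 1 * r.e i)
      rw [one_mul]
    have h4 := inv_rat h3
    have h5 := AddSubgroup.add_mem _ h2 (AddSubgroup.sub_mem _ h3 h4)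
    apply le_tor
    have h8 : ∀ a b c d e g : (Fin 1 → XP f K) →₀ ℤ, a - b - (c - d) + (c - e - (d - g)) = a - b - (e - g) :=
      fun a b c d e g => by abel
    exact h8 _ _ _ _ _ _ ▸ h5

/-- the alternating product of the differences `Q_i - o` on the point data of `W` -/
noncomputable def altW {K : Type} [Field K] {s : ℕ} (W : ES.Wm K s) (o : (pw W).X) {k : ℕ} (Q : Fin k → (pw W).X) :
    Cyc (pw W) k :=
  ∑ σ : Equiv.Perm (Fin k), (Equiv.Perm.sign σ : ℤ) • ∑ J : Finset (Fin k), (-1 : ℤ) ^ J.card •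
    Finsupp.single (fun i => if i ∈ J then o else Q (σ i)) 1

theorem vc_alt {K : Type} [Field K] {s : ℕ} (W : ES.Wm K s) (o : (pw W).X) (ho : o.1 = ES.o s K) {k : ℕ}
    (Q : Fin k → (pw W).X) : vc W k (altW W o Q) = ES.alt (fun i => (Q i).1) := by
  unfold altW ES.alt ES.prod
  rw [map_sum]
  refine Finset.sum_congr rfl fun σ _ => ?_
  rw [map_zsmul, map_sum]
  congr 1
  refine Finset.sum_congr rfl fun J _ => ?_
  rw [map_zsmul, vc_single]
  congr 1
  unfold ES.pt
  congr 1
  funext i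
  unfold vl
  by_cases hi : i ∈ J
  · simp only [if_pos hi]
    exact ho
  · simp only [if_neg hi]

/-- `phi` of the alternating product -/
theorem phi_altW {K : Type} [Field K] {s : ℕ} (W : ES.Wm K s) (o : (pw W).X) {D' : PD K} (gp gm : (pw W).X → D'.X)
    (ho : gp o = gm o) {k : ℕ} (Q : Fin k → (pw W).X) :
    phi (pw W) gp gm k (altW W o Q) =
      ∑ σ : Equiv.Perm (Fin k), (Equiv.Perm.sign σ : ℤ) • pr2 gp gm (fun i => Q (σ i)) := by
  classical
  obtain ⟨mul, hmul⟩ : ∃ mul : ∀ k : ℕ, MultilinearMap ℤ (fun _ : Fin k => Cyc1 D') (Cyc D' k), ∀ k, IsPr (mul k) := by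
    choose mul hmul using fun k => exists_mul D' k
    exact ⟨mul, fun k => (hmul k).2⟩
  unfold altW
  rw [map_sum]
  refine Finset.sum_congr rfl fun σ _ => ?_
  rw [map_zsmul, map_sum]
  congr 1
  rw [Finset.sum_eq_single ∅]
  · rw [Finset.card_empty, pow_zero, one_smul, phi_single, one_smul]
    congr 1
  · intro J _ hJ
    obtain ⟨i, hi⟩ := Finset.nonempty_iff_ne_empty.2 hJ
    rw [map_zsmul, phi_single, one_smul, pr2_eq hmul]
    rw [MultilinearMap.map_coord_zero (mul k) i (by simp only [if_pos hi, ho, sub_self]), smul_zero]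
  · intro h
    exact absurd (Finset.mem_univ _) h

private theorem up_single' {K : Type} [Field K] {E : PD K} (a : E.X) :
    up (D := E) (Finsupp.single a 1) = Finsupp.single (fun _ => a) 1 := by
  unfold up
  rw [Finsupp.mapDomain.addMonoidHom_apply, Finsupp.mapDomain_single]

/-- the exponent 64 over one algebraically closed field -/
theorem ex_alt (A : AB f) (hf : Sm f) (h1 : MvPolynomial.eval ![1, 0, 0] f ≠ 0) {c c' : Fin 3 → K0} (hc : ev f c = 0)
    (hc' : ev f c' = 0) (hj : ev A.a c ^ 3 * ev A.b c' ^ 2 ≠ ev A.a c' ^ 3 * ev A.b c ^ 2) {K : Type} [Field K]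
    [IsAlgClosed K] [Algebra K0 K] {k : ℕ} (hk : 64 ≤ k) (P : Fin k → XP f K) :
    DP.alt P ∈ tor (RatEq (xpd K f) k) := by
  classical
  have hcK : CharZero K := charZero_of_injective_algebraMap (algebraMap K0 K).injective
  have hSm : Sm (MvPolynomial.map (algebraMap K0 K) f) := sm_map hf
  let x0 : XP f K := P ⟨0, by omega⟩
  choose q hq using fun i => pair_ex A hf h1 x0 (P i)
  have hW := WE_ok A hf.hom K
  let o : (pw (WE A K)).X := ⟨ES.o 3 K, ES.OnW_o hW K⟩
  -- the theorem on elliptic surfaces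
  obtain ⟨N, hN, hmem⟩ := RR.main_sm hW (smc hSm) (by
    intro u v huv
    have hev : ∀ d : Fin 3 → K0, ev f d = 0 → u * algebraMap K0 K (ev A.a d) ^ 3 = v * algebraMap K0 K (ev A.b d) ^ 2 := by
      intro d hd
      obtain ⟨p, hp⟩ := Ideal.mem_span_singleton'.1 huv
      have h2 := congrArg (MvPolynomial.eval (fun i => algebraMap K0 K (d i))) hp
      have h3 : ∀ g : MvPolynomial (Fin 3) K0, MvPolynomial.eval (fun i => algebraMap K0 K (d i))
          (MvPolynomial.map (algebraMap K0 K) g) = algebraMap K0 K (ev g d) := by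
        intro g
        rw [MvPolynomial.eval_map]
        have h4 : ev g d = MvPolynomial.eval d g := by
          unfold ev
          rw [MvPolynomial.aeval_eq_eval]
        rw [h4, MvPolynomial.eval₂_comp]
        rfl
      rw [map_mul, h3, hd, map_zero, mul_zero] at h2
      have h5 : MvPolynomial.eval (fun i => algebraMap K0 K (d i)) (MvPolynomial.C u * (WE A K).a ^ 3 -
          MvPolynomial.C v * (WE A K).b ^ 2) = u * algebraMap K0 K (ev A.a d) ^ 3 - v * algebraMap K0 K (ev A.b d) ^ 2 := by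
        rw [map_sub, map_mul, map_mul, map_pow, map_pow, MvPolynomial.eval_C, MvPolynomial.eval_C]
        have h6 := h3 A.a
        have h7 := h3 A.b
        change u * (MvPolynomial.eval _ (MvPolynomial.map (algebraMap K0 K) A.a)) ^ 3 -
          v * (MvPolynomial.eval _ (MvPolynomial.map (algebraMap K0 K) A.b)) ^ 2 = _
        rw [h6, h7]
      rw [h5] at h2
      exact sub_eq_zero.1 h2.symm
    have e1 := hev c hc
    have e2 := hev c' hc'
    have hD : algebraMap K0 K (ev A.a c) ^ 3 * algebraMap K0 K (ev A.b c') ^ 2 -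
        algebraMap K0 K (ev A.a c') ^ 3 * algebraMap K0 K (ev A.b c) ^ 2 ≠ 0 := by
      rw [← map_pow, ← map_pow, ← map_pow, ← map_pow, ← map_mul, ← map_mul, ← map_sub]
      exact (map_ne_zero_iff _ (algebraMap K0 K).injective).2 (sub_ne_zero.2 hj)
    constructor
    · refine (mul_eq_zero.1 ?_).resolve_right hD
      linear_combination algebraMap K0 K (ev A.b c') ^ 2 * e1 - algebraMap K0 K (ev A.b c) ^ 2 * e2
    · refine (mul_eq_zero.1 ?_).resolve_right hD
      linear_combination algebraMap K0 K (ev A.a c') ^ 3 * e1 - algebraMap K0 K (ev A.a c) ^ 3 * e2)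
    (k := k) (by change 9 * 6 + 10 ≤ k; omega) (Q := fun i => (q i).1) (fun i => (q i).2)
  rw [← vc_alt (WE A K) o rfl] at hmem
  have h2 : altW (WE A K) o q ∈ tor (RatEq (pw (WE A K)) k) := ⟨N, hN, to_pd hW hmem⟩
  have h3 := ptr (ptr_ok A hf h1 x0) h2
  have ho : gp x0 o.1 = gm x0 o.1 := by
    have hex : ¬ ∃ R : XP f K, Lf f (ES.o 3 K) R := fun ⟨R, hR⟩ => o_no A hf.hom h1 hR
    have hgp : gp x0 (ES.o 3 K) = x0 := dif_neg hex
    have hgm : gm x0 (ES.o 3 K) = x0 := dif_neg hex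
    exact hgp.trans hgm.symm
  rw [phi_altW (WE A K) o (D' := xpd K f) (fun p => (gp x0 p.1 : XP f K)) (fun p => (gm x0 p.1 : XP f K)) ho] at h3
  obtain ⟨mul, hmul⟩ : ∃ mul : ∀ k : ℕ, MultilinearMap ℤ (fun _ : Fin k => Cyc1 (xpd K f)) (Cyc (xpd K f) k),
      ∀ k, IsPr (mul k) := by
    choose mul hmul using fun k => exists_mul (xpd K f) k
    exact ⟨mul, fun k => (hmul k).2⟩
  have h4 : ∑ σ : Equiv.Perm (Fin k), (Equiv.Perm.sign σ : ℤ) •
      (pr2 (D' := xpd K f) (fun p : (pw (WE A K)).X => (gp x0 p.1 : XP f K)) (fun p => (gm x0 p.1 : XP f K)) (fun i => q (σ i)) -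
        pr2 (D' := xpd K f) (fun P : XP f K => P) (fun P => P.inv) (fun i => P (σ i))) ∈ tor (RatEq (xpd K f) k) := by
    refine AddSubgroup.sum_mem _ fun σ _ => AddSubgroup.zsmul_mem _ ?_ _
    rw [pr2_eq hmul, pr2_eq hmul]
    refine mul_con (hmul k) _ _ fun i => ?_
    rw [map_sub, map_sub, map_sub, up_single', up_single', up_single', up_single']
    exact hq (σ i)
  have h5 : DP.alt P = ∑ σ : Equiv.Perm (Fin k), (Equiv.Perm.sign σ : ℤ) •
      pr2 (D' := xpd K f) (fun P : XP f K => P) (fun P => P.inv) (fun i => P (σ i)) := rfl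
  rw [h5]
  have h6 := AddSubgroup.sub_mem _ h3 h4
  rw [← Finset.sum_sub_distrib] at h6
  refine (congrArg (· ∈ tor (RatEq (xpd K f) k)) (Finset.sum_congr rfl fun σ _ => ?_)).mp h6
  rw [← smul_sub, sub_sub_cancel]

end H25.EX
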