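import Mathlib

/-! # EX.AutQ : automorphisms of a quartic with a root at infinity (pure algebra, MATHLIB only, about 80 lines)

`q(x,y) = y (x^3 - 3 a x y^2 - 2 b y^3)`.  Both sides of `H` are polynomials in `x`, `y`; `F` is infinite, so (e.g. put `y = 1` and use `Polynomial.funext`, `Polynomial.coeff` of explicit polynomials, or `linear_combination` of the values of `H` at five points) the coefficients agree:
`x^4`: `C (A^3 - 3 a A C^2 - 2 b C^3) = 0`, so (1) `A^3 = 3 a A C^2 + 2 b C^3`.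
`x^3 y`: `B (3 C A^2 - 3 a C^3) + D (A^3 - 9 a A C^2 - 8 b C^3) = Δ^2`, `Δ = A D - B C`; with (1): `3 (A^2 - a C^2) (B C - A D) = Δ^2`, so (2) `Δ = - 3 (A^2 - a C^2)` (divide by `Δ ≠ 0`).
`x^2 y^2`: `3 C A B^2 + B D (3 A^2 - 9 a C^2) - D^2 (9 a A C + 12 b C^2) = 0`; multiply by `C^2`, insert `B C = A D - Δ`: `Δ (- 9 D (A^2 - a C^2) + 3 A Δ) = 0` (the terms with `D^2` cancel by (1)), so with (2) `3 Δ (D + A) = 0`: `D = - A`.
Then `B C = A D - Δ = - A^2 + 3 (A^2 - a C^2) = 2 A^2 - 3 a C^2`. -/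

namespace H25.EX

theorem aut_q {F : Type} [Field F] [CharZero F] {a b A B C D : F} (hC : C ≠ 0) (hΔ : A * D - B * C ≠ 0)
    (H : ∀ x y : F, (C * x + D * y) * ((A * x + B * y) ^ 3 - 3 * a * (A * x + B * y) * (C * x + D * y) ^ 2 -
        2 * b * (C * x + D * y) ^ 3) = (A * D - B * C) ^ 2 * (y * (x ^ 3 - 3 * a * x * y ^ 2 - 2 * b * y ^ 3))) :
    D = -A ∧ B * C = 2 * A ^ 2 - 3 * a * C ^ 2 ∧ A * D - B * C = -3 * (A ^ 2 - a * C ^ 2) ∧
      A ^ 3 = 3 * a * A * C ^ 2 + 2 * b * C ^ 3 := by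
  have h1 : A ^ 3 = 3 * a * A * C ^ 2 + 2 * b * C ^ 3 := by
    have := H 1 0
    apply mul_left_cancel₀ hC
    linear_combination this
  have h3 : B * (3 * C * A ^ 2 - 3 * a * C ^ 3) + D * (A ^ 3 - 9 * a * A * C ^ 2 - 8 * b * C ^ 3) =
      (A * D - B * C) ^ 2 := by
    linear_combination (1 / 12) * H 2 1 - (1 / 12) * H (-2) 1 - (1 / 6) * H 1 1 + (1 / 6) * H (-1) 1
  have h2 : 3 * C * A * B ^ 2 + 3 * A ^ 2 * B * D - 9 * a * A * C * D ^ 2 - 9 * a * B * C ^ 2 * D -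
      12 * b * C ^ 2 * D ^ 2 = 0 := by
    linear_combination (1 / 2) * H 1 1 + (1 / 2) * H (-1) 1 - H 0 1 - H 1 0
  have h4 : A * D - B * C = -3 * (A ^ 2 - a * C ^ 2) := by
    apply mul_left_cancel₀ hΔ
    linear_combination -h3 + 4 * D * h1
  have h5 : (A * D - B * C) ^ 2 * (3 * (A + D)) = 0 := by
    linear_combination C * h2 - 6 * D ^ 2 * h1 + 3 * D * (A * D - B * C) * h4
  have h6 : A + D = 0 := by
    rcases mul_eq_zero.1 h5 with h | h
    · exact absurd (pow_eq_zero_iff (two_ne_zero)|>.1 h) hΔ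
    · rcases mul_eq_zero.1 h with h | h
      · exact absurd h three_ne_zero
      · exact h
  have hD : D = -A := by linear_combination h6
  refine ⟨hD, ?_, h4, h1⟩
  linear_combination -h4 + A * hD

/-- the case of the same root at infinity -/
theorem aut_q0 {F : Type} [Field F] [CharZero F] {a b a' b' A B D k : F} (hA : A ≠ 0) (hD : D ≠ 0)
    (H : ∀ x y : F, D * y * ((A * x + B * y) ^ 3 - 3 * a * (A * x + B * y) * (D * y) ^ 2 - 2 * b * (D * y) ^ 3) =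
      k * (y * (x ^ 3 - 3 * a' * x * y ^ 2 - 2 * b' * y ^ 3))) : B = 0 ∧ k = A ^ 3 * D := by
  have h3 : k = A ^ 3 * D := by
    linear_combination -(1 / 12) * H 2 1 + (1 / 12) * H (-2) 1 + (1 / 6) * H 1 1 - (1 / 6) * H (-1) 1
  have h2 : (3 * A ^ 2 * D) * B = 0 := by
    linear_combination (1 / 2) * H 1 1 + (1 / 2) * H (-1) 1 - H 0 1
  have h4 : 3 * A ^ 2 * D ≠ 0 := mul_ne_zero (mul_ne_zero three_ne_zero (pow_ne_zero 2 hA)) hD
  exact ⟨(mul_eq_zero.1 h2).resolve_left h4, h3⟩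

end H25.EX
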