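import Pool.Agent.H25.DP.RatC
import Pool.Agent.H25.DP.Prp
import Pool.Agent.H25.DP.LinF
import Pool.Agent.H68.BB.Red
import Pool.Agent.H67.KH.Roots

/-! # EX.Col : a line through a point of order two of the cubic of a frame (about 200 lines)

`e` a root of `x^3 - 3 a x - 2 b`, `x ≠ e`, `l = y / (x - e)` the slope of the line through `(x, y)` and `(e, 0)`, `(x3, y3)` the third point: `x3 = (e x + 2 e^2 - 3 a)/(x - e)`, `y3 = l (x3 - e) = 3 (e^2 - a) y / (x - e)^2`.
`x`, `x3` are the roots of `Q_l = T^2 + (e - l^2) T + (e^2 - 3 a + e l^2)` (use `y^2 = (x - e)(x^2 + e x + e^2 - 3 a)`, `2 b = e^3 - 3 a e`): `x + x3 = l^2 - e`, `x x3 = e^2 - 3 a + e l^2`.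
Over `Om K` put `l' = l (1 - 2 tt)` and `S` = the multiset of the points `R_T = (T d + e_r, (s T + t) l' (T - e))` of `X`, `T` running over the two roots of `Q_(l')` (`IsAlgClosed`; `(Q_l').roots`); they are on `X`: `T^3 - 3 a T - 2 b = (T - e)(T^2 + e T + e^2 - 3 a) = l'^2 (T - e)^2` and
`f(T d + e_r) = (s T + t)^2 (T^3 - 3 a T - 2 b)` (`r.line`, `lin_eval`; the frame over `Om K` is `r.map` of the inclusion `K → Om K`); nonzero: `cr_lc`.  `S` is stable under the automorphisms over `K(t)` (the coefficients of `Q_(l')` are fixed: `Multiset.map` of the roots, see `roots_sigma` in `H67/KH` or `H68/BB`).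
At `tt ↦ 0` (`H68.BB.place_exists K 0`) `l' ↦ l` and the roots reduce to the roots `x, x3` of `Q_l` (`roots_rd` of `H68/BB/Red.lean` or `H67/KH/Roots.lean`), the points to `P`, `P3`; at `tt ↦ 1`: `l' ↦ -l`, the same quadratic, the points to `P.inv`, `P3.inv`.
So `single P + single P3 - single P.inv - single P3.inv ∈ RatEq`.  Similar proofs: `Pool/Agent/H67/KH/ELine.lean`, `Pool/Agent/H25/DP/RatC.lean`. -/

namespace H25.EX

open H25.DP H77.AF
open H68.BB (Om Place Rd tt)

variable {K0 : Type} [Field K0] {f : MvPolynomial (Fin 3) K0}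

open Polynomial in
/-- the quadratic polynomial of the line of slope `m` through `(e, 0)` -/
private noncomputable def col_q {F : Type} [Field F] (a e m : F) : F[X] :=
  (Cubic.mk 0 1 (e - m ^ 2) (e ^ 2 - 3 * a + e * m ^ 2) : Cubic F).toPoly

private theorem col_deg {F : Type} [Field F] (a e m : F) : (col_q a e m).natDegree = 2 :=
  Cubic.natDegree_of_b_ne_zero rfl one_ne_zero

private theorem col_ne {F : Type} [Field F] (a e m : F) : col_q a e m ≠ 0 :=
  Cubic.ne_zero_of_b_ne_zero one_ne_zero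

open Polynomial in
private theorem col_eq {F : Type} [Field F] (a e m : F) :
    col_q a e m = X ^ 2 + C (e - m ^ 2) * X + C (e ^ 2 - 3 * a + e * m ^ 2) := by
  unfold col_q Cubic.toPoly
  simp only [map_zero, zero_mul, zero_add, map_one, one_mul]

open Polynomial in
private theorem col_root {F : Type} [Field F] {a b e m T : F} (he : e ^ 3 - 3 * a * e - 2 * b = 0)
    (h : T ∈ (col_q a e m).roots) : m ^ 2 * (T - e) ^ 2 = T ^ 3 - 3 * a * T - 2 * b := by
  have h1 := (mem_roots (col_ne a e m)).1 h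
  rw [col_eq] at h1
  simp only [IsRoot.def, eval_add, eval_mul, eval_pow, eval_X, eval_C] at h1
  linear_combination (-(T - e)) * h1 - he

open Polynomial in
private theorem col_roots {F : Type} [Field F] {a e m x x3 : F} (h1 : x + x3 = m ^ 2 - e)
    (h2 : x * x3 = e ^ 2 - 3 * a + e * m ^ 2) : (col_q a e m).roots = {x, x3} := by
  have h3 : col_q a e m = (X - C x) * (X - C x3) := by
    have e1 : e - m ^ 2 = -(x + x3) := by rw [h1]; ring
    rw [col_eq, e1, ← h2]
    simp only [map_neg, map_add, map_mul]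
    ring
  rw [h3, roots_mul (mul_ne_zero (X_sub_C_ne_zero _) (X_sub_C_ne_zero _)), roots_X_sub_C,
    roots_X_sub_C]
  rfl

open Polynomial in
private theorem col_map {F G : Type} [Field F] [Field G] (φ : F →+* G) (a e m : F) :
    (col_q a e m).map φ = col_q (φ a) (φ e) (φ m) := by
  rw [col_eq, col_eq, Polynomial.map_add, Polynomial.map_add, Polynomial.map_mul,
    Polynomial.map_pow, map_X, map_C, map_C, map_sub, map_pow, map_add φ, map_sub φ, map_mul φ,
    map_mul φ, map_pow, map_pow, map_ofNat]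

private theorem col_rd {K : Type} [Field K] {π : Place K (Om K)} {A E M : Om K} {a e m : K}
    (hA : Rd π.V π.φ A a) (hE : Rd π.V π.φ E e) (hM : Rd π.V π.φ M m) (i : ℕ) :
    Rd π.V π.φ ((col_q A E M).coeff i) ((col_q a e m).coeff i) := by
  unfold col_q
  match i with
  | 0 =>
    rw [Cubic.coeff_eq_d, Cubic.coeff_eq_d]
    exact ((hE.pow 2).sub (Rd.three.mul hA)).add (hE.mul (hM.pow 2))
  | 1 =>
    rw [Cubic.coeff_eq_c, Cubic.coeff_eq_c]
    exact hE.sub (hM.pow 2)
  | 2 =>
    rw [Cubic.coeff_eq_b, Cubic.coeff_eq_b]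
    exact Rd.one
  | 3 =>
    rw [Cubic.coeff_eq_a, Cubic.coeff_eq_a]
    exact Rd.zero
  | i + 4 =>
    rw [Cubic.coeff_eq_zero (by omega), Cubic.coeff_eq_zero (by omega)]
    exact Rd.zero

open Polynomial in
/-- the point of the double plane over a point of the cubic on the line of slope `m` -/
private noncomputable def col_pt {F : Type} [Field F] [Algebra K0 F] (r : Frm f F) (hr : cr r.d r.e ≠ 0)
    (e m T : F) (h : m ^ 2 * (T - e) ^ 2 = T ^ 3 - 3 * r.a * T - 2 * r.b) : XP f F where
  p := fun i => T * r.d i + r.e i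
  z := (r.s * T + r.t) * (m * (T - e))
  ne := fun h0 => hr (cr_lc T r.d r.e (by
    funext i
    have h1 := congrFun h0 i
    simp only [lc, one_mul]
    exact h1))
  eq := by
    have h1 : (fun i => T * r.d i + r.e i) = lc T 1 r.d r.e := by
      funext i
      simp only [lc, one_mul]
    rw [h1, ← lin_eval, r.line, mul_pow, mul_pow m, h]
    simp only [eval_mul, eval_add, eval_sub, eval_pow, eval_C, eval_X]

open Classical in
/-- the same, a total function -/
private noncomputable def col_fn {F : Type} [Field F] [Algebra K0 F] (r : Frm f F) (hr : cr r.d r.e ≠ 0)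
    (e m : F) (D : XP f F) (T : F) : XP f F :=
  if h : m ^ 2 * (T - e) ^ 2 = T ^ 3 - 3 * r.a * T - 2 * r.b then col_pt r hr e m T h else D

private theorem col_fn_of {F : Type} [Field F] [Algebra K0 F] (r : Frm f F) (hr : cr r.d r.e ≠ 0)
    (e m : F) (D : XP f F) {T : F} (h : m ^ 2 * (T - e) ^ 2 = T ^ 3 - 3 * r.a * T - 2 * r.b) :
    col_fn r hr e m D T = col_pt r hr e m T h := by
  unfold col_fn
  rw [dif_pos h]

private theorem col_gen {K : Type} [Field K] {D : PD K} {S : Multiset D.Y} {π π' : Place K (Om K)}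
    {P0 P1 P0' P1' : D.X} (hG : ∀ σ, S.map (D.act σ) = S) (h0 : Multiset.Rel (D.sp π) S {P0, P1})
    (h1 : Multiset.Rel (D.sp π') S {P0', P1'}) :
    (Finsupp.single (fun _ => P0) 1 + Finsupp.single (fun _ => P1) 1 - Finsupp.single (fun _ => P0') 1 -
      Finsupp.single (fun _ => P1') 1 : Cyc D 1) ∈ RatEq D 1 := by
  have hcyc : ∀ A B : D.X, cyc (D := D) (k := 1) (({A, B} : Multiset D.X).map (fun Q => (fun _ : Fin 1 => Q))) =
      Finsupp.single (fun _ => A) 1 + Finsupp.single (fun _ => B) 1 := by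
    intro A B
    unfold cyc
    rw [Multiset.insert_eq_cons, Multiset.map_cons, Multiset.map_singleton, Multiset.map_cons,
      Multiset.map_singleton, Multiset.sum_cons, Multiset.sum_singleton]
  have hfib : ∀ (π : Place K (Om K)) (c : Multiset D.X), Multiset.Rel (D.sp π) S c →
      Fibre (D := D) (k := 1) π (S.map (fun Q => (fun _ : Fin 1 => Q))) (c.map (fun Q => (fun _ : Fin 1 => Q))) := by
    intro π c h
    refine ⟨_, 0, (add_zero _).symm, ?_, fun R hR => absurd hR (Multiset.notMem_zero R)⟩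
    rw [Multiset.rel_map]
    exact h.mono fun a _ b _ hab _ => hab
  refine AddSubgroup.subset_closure ⟨S.map (fun Q => (fun _ : Fin 1 => Q)), π, π', _, _, ?_, hfib π _ h0, hfib π' _ h1, ?_⟩
  · intro σ
    rw [Multiset.map_map]
    conv_rhs => rw [← hG σ]
    rw [Multiset.map_map]
    rfl
  · rw [hcyc, hcyc]
    abel

theorem col (hf : f.IsHomogeneous 6) {K : Type} [Field K] [IsAlgClosed K] [CharZero K] [Algebra K0 K] (r : Frm f K)
    (hr : cr r.d r.e ≠ 0) {e x y x3 y3 : K} (he : e ^ 3 - 3 * r.a * e - 2 * r.b = 0)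
    (hxy : y ^ 2 = x ^ 3 - 3 * r.a * x - 2 * r.b) (hx : x ≠ e) (hx3 : x3 = (e * x + 2 * e ^ 2 - 3 * r.a) / (x - e))
    (hy3 : y3 = 3 * (e ^ 2 - r.a) * y / (x - e) ^ 2) {P P3 : XP f K} (hP : ∀ i, P.p i = x * r.d i + r.e i)
    (hPz : P.z = (r.s * x + r.t) * y) (hP3 : ∀ i, P3.p i = x3 * r.d i + r.e i) (hP3z : P3.z = (r.s * x3 + r.t) * y3) :
    (Finsupp.single (fun _ => P) 1 + Finsupp.single (fun _ => P3) 1 - Finsupp.single (fun _ => P.inv) 1 -
      Finsupp.single (fun _ => P3.inv) 1 : Cyc (xpd K f) 1) ∈ RatEq (xpd K f) 1 := by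
  classical
  -- constants
  set φ : K →ₐ[K0] Om K := IsScalarTower.toAlgHom K0 K (Om K) with hφ
  have hφc : ∀ (π : Place K (Om K)) (c : K), Rd π.V π.φ (φ c) c := fun π c => π.const c
  have hφσ : ∀ (σ : Om K ≃ₐ[RatFunc K] Om K) (c : K), σ (φ c) = φ c := fun σ c => by
    have h1 : φ c = algebraMap (RatFunc K) (Om K) (algebraMap K (RatFunc K) c) :=
      IsScalarTower.algebraMap_apply K (RatFunc K) (Om K) c
    rw [h1, AlgEquiv.commutes]
  have htσ : ∀ σ : Om K ≃ₐ[RatFunc K] Om K, σ (tt K) = tt K := fun σ => by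
    unfold tt
    exact σ.commutes _
  -- the slope
  have hxe : x - e ≠ 0 := sub_ne_zero.2 hx
  set l : K := y / (x - e) with hl
  have hly : l * (x - e) = y := div_mul_cancel₀ y hxe
  set rO : Frm f (Om K) := r.map φ with hrO
  have hrO' : cr rO.d rO.e ≠ 0 := by
    intro h0
    apply hr
    have h1 := cr_map (φ : K →+* Om K) r.d r.e
    funext i
    have h2 := congrFun h1 i
    have h3 : cr (fun i => (φ : K →+* Om K) (r.d i)) (fun i => (φ : K →+* Om K) (r.e i)) = 0 := h0
    rw [h3] at h2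
    exact (map_eq_zero_iff (φ : K →+* Om K) (φ : K →+* Om K).injective).1 h2
  have heO : (φ e) ^ 3 - 3 * rO.a * (φ e) - 2 * rO.b = 0 := by
    have h1 := congrArg φ he
    rw [map_sub, map_sub, map_pow, map_mul, map_mul, map_mul, map_ofNat, map_ofNat, map_zero] at h1
    exact h1
  set M : Om K := φ l * (1 - 2 * tt K) with hM
  have hMσ : ∀ σ : Om K ≃ₐ[RatFunc K] Om K, σ M = M := fun σ => by
    rw [hM, map_mul, hφσ, map_sub, map_one, map_mul, htσ, map_ofNat]
  set DO : XP f (Om K) := (xpd K f).cst P with hDO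
  set Q : Multiset (Om K) := (col_q rO.a (φ e) M).roots with hQ
  set S : Multiset (XP f (Om K)) := Q.map (fun T => col_fn rO hrO' (φ e) M DO T) with hS
  -- stability
  have hG : ∀ σ : Om K ≃ₐ[RatFunc K] Om K,
      S.map (fun A : XP f (Om K) => ((xpd K f).act σ A : XP f (Om K))) = S := by
    intro σ
    have h2 := H67.KH.roots_sigma σ (col_q rO.a (φ e) M)
    rw [col_map] at h2
    have e1 : (σ : Om K →+* Om K) rO.a = rO.a := hφσ σ r.a
    have e2 : (σ : Om K →+* Om K) (φ e) = φ e := hφσ σ e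
    have e3 : (σ : Om K →+* Om K) M = M := hMσ σ
    rw [e1, e2, e3] at h2
    rw [hS, Multiset.map_map]
    conv_rhs => rw [hQ, ← h2]
    rw [Multiset.map_map]
    refine Multiset.map_congr rfl fun T hT => ?_
    have h3 := col_root heO hT
    have h4 : M ^ 2 * (σ T - φ e) ^ 2 = (σ T) ^ 3 - 3 * rO.a * (σ T) - 2 * rO.b := by
      have h5 := congrArg σ h3
      rw [map_mul, map_pow, map_pow, map_sub, hMσ, hφσ, map_sub, map_sub, map_pow, map_mul,
        map_mul, map_mul, map_ofNat, map_ofNat] at h5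
      have e4 : σ rO.b = rO.b := hφσ σ r.b
      have e5 : σ rO.a = rO.a := hφσ σ r.a
      rw [e4, e5] at h5
      exact h5
    simp only [Function.comp]
    rw [col_fn_of rO hrO' (φ e) M DO h3, col_fn_of rO hrO' (φ e) M DO h4]
    refine XP.ext ?_ ?_
    · funext j
      change σ (T * rO.d j + rO.e j) = σ T * rO.d j + rO.e j
      have e4 : σ (rO.d j) = rO.d j := hφσ σ (r.d j)
      have e5 : σ (rO.e j) = rO.e j := hφσ σ (r.e j)
      rw [map_add, map_mul, e4, e5]
    · change σ ((rO.s * T + rO.t) * (M * (T - φ e))) = (rO.s * σ T + rO.t) * (M * (σ T - φ e))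
      have e4 : σ rO.s = rO.s := hφσ σ r.s
      have e5 : σ rO.t = rO.t := hφσ σ r.t
      rw [map_mul, map_add, map_mul, e4, e5, map_mul, hMσ, map_sub, hφσ]
  -- the fibres
  have hfib : ∀ (π : Place K (Om K)) (u m : K), Rd π.V π.φ (tt K) u → m = l * (1 - 2 * u) →
      m ^ 2 = l ^ 2 → ∀ P0 P1 : XP f K, (∀ i, P0.p i = x * r.d i + r.e i) →
      P0.z = (r.s * x + r.t) * (m * (x - e)) → (∀ i, P1.p i = x3 * r.d i + r.e i) →
      P1.z = (r.s * x3 + r.t) * (m * (x3 - e)) →
      Multiset.Rel (fun (A : XP f (Om K)) (B : XP f K) => (xpd K f).sp π A B) S {P0, P1} := by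
    intro π u m hu hm hml P0 P1 h0 h0z h1 h1z
    have hMm : Rd π.V π.φ M m := by
      rw [hm]
      exact (hφc π l).mul (Rd.one.sub (Rd.two.mul hu))
    have hl2 : l ^ 2 * (x - e) = x ^ 2 + e * x + e ^ 2 - 3 * r.a := by
      have h2 : l ^ 2 * (x - e) * (x - e) = (x ^ 2 + e * x + e ^ 2 - 3 * r.a) * (x - e) := by
        have h3 : l ^ 2 * (x - e) * (x - e) = y ^ 2 := by rw [← hly]; ring
        rw [h3, hxy]
        linear_combination he
      exact mul_right_cancel₀ hxe h2
    have hx3' : x3 * (x - e) = e * x + 2 * e ^ 2 - 3 * r.a := by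
      rw [hx3]
      exact div_mul_cancel₀ _ hxe
    have hs : x + x3 = m ^ 2 - e := by
      rw [hml]
      apply mul_right_cancel₀ hxe
      linear_combination hx3' - hl2
    have hp : x * x3 = e ^ 2 - 3 * r.a + e * m ^ 2 := by
      rw [hml]
      apply mul_right_cancel₀ hxe
      linear_combination x * hx3' - e * hl2
    have hR := H67.KH.roots_rd (π := π) (col_ne r.a e m)
      (col_rd (hφc π r.a) (hφc π e) hMm) (by rw [col_deg, col_deg])
    have hroots := col_roots hs hp
    have hc : ({P0, P1} : Multiset (XP f K)) =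
        (col_q r.a e m).roots.map (fun T => col_fn r hr e m P T) := by
      have hx0 : x ∈ (col_q r.a e m).roots := by rw [hroots]; simp
      have hx1 : x3 ∈ (col_q r.a e m).roots := by rw [hroots]; simp
      have g0 : col_fn r hr e m P x = P0 := by
        rw [col_fn_of r hr e m P (col_root he hx0)]
        exact XP.ext (funext fun i => (h0 i).symm) h0z.symm
      have g1 : col_fn r hr e m P x3 = P1 := by
        rw [col_fn_of r hr e m P (col_root he hx1)]
        exact XP.ext (funext fun i => (h1 i).symm) h1z.symm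
      rw [hroots]
      simp only [Multiset.insert_eq_cons, Multiset.map_cons, Multiset.map_singleton, g0, g1]
    rw [hc, hS, Multiset.rel_map]
    refine hR.mono fun T hT T0 hT0 hTT => ?_
    rw [col_fn_of rO hrO' (φ e) M DO (col_root heO hT), col_fn_of r hr e m P (col_root he hT0)]
    refine ⟨1, one_ne_zero, fun i => ?_, ?_⟩
    · rw [one_mul]
      exact (hTT.mul (hφc π (r.d i))).add (hφc π (r.e i))
    · rw [one_pow, one_mul]
      exact (((hφc π r.s).mul hTT).add (hφc π r.t)).mul (hMm.mul (hTT.sub (hφc π e)))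
  -- the two places
  obtain ⟨π, hπ⟩ := H68.BB.place_exists K (0 : K)
  obtain ⟨π', hπ'⟩ := H68.BB.place_exists K (1 : K)
  have hy3' : l * (x3 - e) = y3 := by
    rw [hy3, hx3, hl]
    field_simp
    ring
  have f0 := hfib π 0 l hπ (by ring) rfl P P3 hP (by rw [hPz, hly]) hP3 (by rw [hP3z, hy3'])
  have f1 := hfib π' 1 (-l) hπ' (by ring) (by ring) P.inv P3.inv hP
    (by
      change -P.z = _
      rw [hPz, neg_mul, hly]
      ring) hP3
    (by
      change -P3.z = _
      rw [hP3z, neg_mul, hy3']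
      ring)
  exact col_gen (D := xpd K f) (S := S) hG f0 f1

end H25.EX
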