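import Pool.Agent.H25.DP.Def

/-! # EX.Def : the residual quartic of a tangent line of a plane sextic and its invariants (definitions only, no sorry)

`f` a sextic form in three variables over `K0`, `c` a point of the curve `f = 0`, `tv f i c = grad f c × e_i` a tangent vector at `c`.  The polynomial `f(X tv + c)` is divisible by `X^2`;
`qc f i c j` is its coefficient of `X^(j+2)`; `II`, `JJ` are the invariants `I`, `J` of the quartic with these coefficients.
`AB f`: forms `a`, `b` of degrees 36 and 54 with `9 a (c_i)^8 = II f i c`, `54 b (c_i)^12 = JJ f i c` on the curve, `i = 1, 2`. -/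

namespace H25.EX

open H25.DP

/-- the invariant `I` of the quartic with the coefficients `q0, ..., q4` -/
def iI {F : Type} [CommRing F] (q0 q1 q2 q3 q4 : F) : F := 12 * q0 * q4 - 3 * q1 * q3 + q2 ^ 2

/-- the invariant `J` of the quartic with the coefficients `q0, ..., q4` -/
def iJ {F : Type} [CommRing F] (q0 q1 q2 q3 q4 : F) : F :=
  72 * q0 * q2 * q4 + 9 * q1 * q2 * q3 - 27 * q0 * q3 ^ 2 - 27 * q1 ^ 2 * q4 - 2 * q2 ^ 3

/-- the basis vector `e_i` -/
def ee {F : Type} [CommRing F] (i : Fin 3) : Fin 3 → F := fun j => if j = i then 1 else 0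

variable {K0 : Type} [Field K0]

/-- the tangent vector `grad f c × e_i` -/
noncomputable def tv {F : Type} [CommRing F] [Algebra K0 F] (f : MvPolynomial (Fin 3) K0) (i : Fin 3) (c : Fin 3 → F) :
    Fin 3 → F := cr (grad f c) (ee i)

/-- the coefficient of `X^(j+2)` in `f(X tv + c)` -/
noncomputable def qc {F : Type} [CommRing F] [Algebra K0 F] (f : MvPolynomial (Fin 3) K0) (i : Fin 3) (c : Fin 3 → F)
    (j : ℕ) : F := (lin f (tv f i c) c).coeff (j + 2)

/-- the invariant `I` of the residual quartic -/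
noncomputable def II {F : Type} [CommRing F] [Algebra K0 F] (f : MvPolynomial (Fin 3) K0) (i : Fin 3) (c : Fin 3 → F) : F :=
  iI (qc f i c 0) (qc f i c 1) (qc f i c 2) (qc f i c 3) (qc f i c 4)

/-- the invariant `J` of the residual quartic -/
noncomputable def JJ {F : Type} [CommRing F] [Algebra K0 F] (f : MvPolynomial (Fin 3) K0) (i : Fin 3) (c : Fin 3 → F) : F :=
  iJ (qc f i c 0) (qc f i c 1) (qc f i c 2) (qc f i c 3) (qc f i c 4)

/-- the generic point: the vector of the variables -/
noncomputable def XX (K0 : Type) [Field K0] : Fin 3 → MvPolynomial (Fin 3) K0 := fun j => MvPolynomial.X j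

/-- the forms `a`, `b` of degrees 36 and 54 -/
structure AB (f : MvPolynomial (Fin 3) K0) where
  a : MvPolynomial (Fin 3) K0
  b : MvPolynomial (Fin 3) K0
  ha : a.IsHomogeneous 36
  hb : b.IsHomogeneous 54
  ai : ∀ i : Fin 3, i ≠ 0 → MvPolynomial.X i ^ 8 * (9 * a) - II f i (XX K0) ∈ Ideal.span {f}
  bi : ∀ i : Fin 3, i ≠ 0 → MvPolynomial.X i ^ 12 * (54 * b) - JJ f i (XX K0) ∈ Ideal.span {f}

section map
variable {f : MvPolynomial (Fin 3) K0} {F G : Type} [CommRing F] [Algebra K0 F] [CommRing G] [Algebra K0 G]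

theorem ee_map (φ : F →+* G) (i : Fin 3) : (fun j => φ (ee i j)) = ee i := by
  funext j
  unfold ee
  split_ifs <;> simp

theorem tv_map (φ : F →ₐ[K0] G) (i : Fin 3) (c : Fin 3 → F) :
    (fun j => φ (tv f i c j)) = tv f i (fun j => φ (c j)) := by
  unfold tv
  have h := cr_map (φ : F →+* G) (grad f c) (ee i)
  have h1 := grad_map φ f c
  have h2 := ee_map (φ : F →+* G) i
  rw [h2] at h
  rw [← h1]
  exact h

theorem qc_map (φ : F →ₐ[K0] G) (i : Fin 3) (c : Fin 3 → F) (j : ℕ) : φ (qc f i c j) = qc f i (fun l => φ (c l)) j := by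
  unfold qc
  rw [← tv_map, ← lin_map, Polynomial.coeff_map]
  rfl

theorem II_map (φ : F →ₐ[K0] G) (i : Fin 3) (c : Fin 3 → F) : φ (II f i c) = II f i (fun l => φ (c l)) := by
  unfold II iI
  simp only [← qc_map, map_add, map_sub, map_mul, map_pow, map_ofNat]

theorem JJ_map (φ : F →ₐ[K0] G) (i : Fin 3) (c : Fin 3 → F) : φ (JJ f i c) = JJ f i (fun l => φ (c l)) := by
  unfold JJ iJ
  simp only [← qc_map, map_add, map_sub, map_mul, map_pow, map_ofNat]

end map

end H25.EX
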