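import Pool.Agent.H25.EX.Def

/-! # EX.FerJ : two tangent lines of the Fermat sextic with different `j` (about 80 lines)

`F = X0^6 + X1^6 + X2^6`, `grad F c = 6 (c0^5, c1^5, c2^5)`, `tv F 2 c = (g1, -g0, 0)`, `lin F (tv F 2 c) c = (g1 X + c0)^6 + (-g0 X + c1)^6 + c2^6`, so
`qc F 2 (x, y, w) j = C(6, j+2) 6^(j+2) (y^(5(j+2)) x^(4-j) + (-1)^j x^(5(j+2)) y^(4-j))`, `j = 0, ..., 4` (compute the coefficients of `(C a * X + C b)^6`: expand with `ring`, `Polynomial.coeff_C_mul`, `coeff_X_pow`).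
`(1, 1, w)`: `q = (1080, 0, 38880, 0, 93312)`, `II = 6^8 * 1620`, `JJ = 6^12 * 75600`.  `(1, y, w')`, `y^6 = 2`: `q = (1620 y^4, 12960 y^3, 174960 y^2, 699840 y, 1539648)`, `II = 6^8 * 19845 * y^4`, `JJ = 6^12 * 2 * 3025350` (`y^6 = 2`).
`II^3 JJ'^2 - II'^3 JJ^2 = 6^48 * 4 * (1620^3 * 3025350^2 - 19845^3 * 75600^2) ≠ 0`. -/

namespace H25.EX

open H25.DP

/-- the Fermat sextic -/
noncomputable def fer (K : Type) [Field K] : MvPolynomial (Fin 3) K :=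
  MvPolynomial.X 0 ^ 6 + MvPolynomial.X 1 ^ 6 + MvPolynomial.X 2 ^ 6

open Polynomial in
private theorem coeff_six {K : Type} [Field K] (a b : K) (n : ℕ) :
    ((C a * X + C b) ^ 6 : K[X]).coeff n =
      (if n = 0 then b ^ 6 else 0) + (if n = 1 then 6 * a * b ^ 5 else 0) + (if n = 2 then 15 * a ^ 2 * b ^ 4 else 0)
      + (if n = 3 then 20 * a ^ 3 * b ^ 3 else 0) + (if n = 4 then 15 * a ^ 4 * b ^ 2 else 0)
      + (if n = 5 then 6 * a ^ 5 * b else 0) + (if n = 6 then a ^ 6 else 0) := by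
  have h : ((C a * X + C b) ^ 6 : K[X]) = C (b ^ 6) * X ^ 0 + C (6 * a * b ^ 5) * X ^ 1 + C (15 * a ^ 2 * b ^ 4) * X ^ 2
      + C (20 * a ^ 3 * b ^ 3) * X ^ 3 + C (15 * a ^ 4 * b ^ 2) * X ^ 4 + C (6 * a ^ 5 * b) * X ^ 5 + C (a ^ 6) * X ^ 6 := by
    simp only [map_mul, map_pow, map_ofNat]
    ring
  rw [h]
  simp only [coeff_add, coeff_C_mul, coeff_X_pow, mul_ite, mul_one, mul_zero]

private theorem grad_fer {K : Type} [Field K] (c : Fin 3 → K) (i : Fin 3) : grad (fer K) c i = 6 * c i ^ 5 := by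
  unfold grad ev fer
  fin_cases i <;> simp [MvPolynomial.pderiv_X]

private theorem lin_fer {K : Type} [Field K] (d e : Fin 3 → K) :
    lin (fer K) d e = (Polynomial.C (d 0) * Polynomial.X + Polynomial.C (e 0)) ^ 6
      + (Polynomial.C (d 1) * Polynomial.X + Polynomial.C (e 1)) ^ 6
      + (Polynomial.C (d 2) * Polynomial.X + Polynomial.C (e 2)) ^ 6 := by
  unfold lin fer
  simp only [map_add, map_pow, MvPolynomial.aeval_X]

private theorem tv_fer {K : Type} [Field K] (c : Fin 3 → K) :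
    tv (fer K) 2 c = ![6 * c 1 ^ 5, -(6 * c 0 ^ 5), 0] := by
  unfold tv cr ee
  simp only [grad_fer]
  funext i
  fin_cases i <;> simp

private theorem qc_fer {K : Type} [Field K] (c : Fin 3 → K) (j : ℕ) :
    qc (fer K) 2 c j = ((Polynomial.C (6 * c 1 ^ 5) * Polynomial.X + Polynomial.C (c 0)) ^ 6).coeff (j + 2)
      + ((Polynomial.C (-(6 * c 0 ^ 5)) * Polynomial.X + Polynomial.C (c 1)) ^ 6).coeff (j + 2) := by
  unfold qc
  rw [lin_fer, tv_fer, Polynomial.coeff_add, Polynomial.coeff_add]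
  have h : ((Polynomial.C ((![6 * c 1 ^ 5, -(6 * c 0 ^ 5), 0] : Fin 3 → K) 2) * Polynomial.X + Polynomial.C (c 2)) ^ 6).coeff
      (j + 2) = 0 := by
    rw [coeff_six]
    simp
  rw [h, add_zero]
  rfl

theorem fer_j {K : Type} [Field K] [CharZero K] {y w w' : K} (hy : y ^ 6 = 2) :
    II (fer K) 2 (![1, 1, w] : Fin 3 → K) ^ 3 * JJ (fer K) 2 (![1, y, w'] : Fin 3 → K) ^ 2 ≠
      II (fer K) 2 (![1, y, w'] : Fin 3 → K) ^ 3 * JJ (fer K) 2 (![1, 1, w] : Fin 3 → K) ^ 2 := by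
  have hI1 : II (fer K) 2 (![1, 1, w] : Fin 3 → K) = 6 ^ 8 * 1620 := by
    unfold II iI
    simp only [qc_fer, coeff_six]
    norm_num
  have hJ1 : JJ (fer K) 2 (![1, 1, w] : Fin 3 → K) = 6 ^ 12 * 75600 := by
    unfold JJ iJ
    simp only [qc_fer, coeff_six]
    norm_num
  have e : ∀ n : ℕ, y ^ (n + 6) = 2 * y ^ n := by
    intro n
    rw [pow_add, hy]; ring
  have q0 : qc (fer K) 2 (![1, y, w'] : Fin 3 → K) 0 = 1620 * y ^ 4 := by
    rw [qc_fer, coeff_six, coeff_six]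
    norm_num
    have h1 : (y ^ 5) ^ 2 = 2 * y ^ 4 := by rw [← pow_mul]; exact e 4
    linear_combination (540 : K) * h1
  have q1 : qc (fer K) 2 (![1, y, w'] : Fin 3 → K) 1 = 12960 * y ^ 3 := by
    rw [qc_fer, coeff_six, coeff_six]
    norm_num
    have h1 : (y ^ 5) ^ 3 = 4 * y ^ 3 := by rw [← pow_mul, e 9, e 3]; ring
    linear_combination (4320 : K) * h1
  have q2 : qc (fer K) 2 (![1, y, w'] : Fin 3 → K) 2 = 174960 * y ^ 2 := by
    rw [qc_fer, coeff_six, coeff_six]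
    norm_num
    have h1 : (y ^ 5) ^ 4 = 8 * y ^ 2 := by rw [← pow_mul, e 14, e 8, e 2]; ring
    linear_combination (19440 : K) * h1
  have q3 : qc (fer K) 2 (![1, y, w'] : Fin 3 → K) 3 = 699840 * y := by
    rw [qc_fer, coeff_six, coeff_six]
    norm_num
    have h1 : (y ^ 5) ^ 5 = 16 * y := by rw [← pow_mul, e 19, e 13, e 7, e 1]; ring
    linear_combination (46656 : K) * h1
  have q4 : qc (fer K) 2 (![1, y, w'] : Fin 3 → K) 4 = 1539648 := by
    rw [qc_fer, coeff_six, coeff_six]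
    norm_num
    have h1 : (y ^ 5) ^ 6 = 32 := by rw [← pow_mul, mul_comm, pow_mul, hy]; norm_num
    linear_combination (46656 : K) * h1
  have hI2 : II (fer K) 2 (![1, y, w'] : Fin 3 → K) = 6 ^ 8 * 19845 * y ^ 4 := by
    unfold II iI
    rw [q0, q1, q2, q3, q4]
    ring
  have hJ2 : JJ (fer K) 2 (![1, y, w'] : Fin 3 → K) = 6 ^ 12 * 2 * 3025350 := by
    unfold JJ iJ
    rw [q0, q1, q2, q3, q4]
    linear_combination (6 ^ 12 * 3025350 : K) * hy
  rw [hI1, hJ1, hI2, hJ2]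
  intro h
  have h2 : (y ^ 4) ^ 3 = 4 := by rw [← pow_mul, mul_comm 4 3, show (3 * 4 : ℕ) = 6 * 2 from rfl, pow_mul, hy]; norm_num
  have h3 : (6 ^ 8 * 19845 * y ^ 4) ^ 3 = (6 ^ 8 * 19845) ^ 3 * (4 : K) := by rw [mul_pow, h2]
  rw [h3] at h
  norm_num at h

end H25.EX
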