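import Pool.Agent.H25.EX.RdL
import Pool.Agent.H25.EX.FerJ
import Pool.Agent.H71.SD.RelU

/-! # EX.GenJ : the generic sextic has two tangent lines with different `j` (assembly) -/

namespace H25.EX

open H25.DP SD
open H68.BB (Rd)

private theorem fV_exists {K0 K1 L1 : Type} [Field K0] [Field K1] [Field L1] [Algebra K0 L1] {V : ValuationSubring L1}
    {φ : V →+* K1} {f0 : MvPolynomial (Fin 3) K0} {f1 : MvPolynomial (Fin 3) K1}
    (h : ∀ m, Rd V φ (algebraMap K0 L1 (MvPolynomial.coeff m f0)) (MvPolynomial.coeff m f1)) :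
    ∃ fV : MvPolynomial (Fin 3) V, fV.map (V.subtype : V →+* L1) = f0.map (algebraMap K0 L1) ∧
      fV.map φ = f1.map (algebraMap K1 K1) := by
  classical
  choose hm ha using h
  let fV : MvPolynomial (Fin 3) V :=
    ∑ m ∈ f0.support ∪ f1.support, MvPolynomial.monomial m (⟨algebraMap K0 L1 (MvPolynomial.coeff m f0), hm m⟩ : V)
  have hco : ∀ d, MvPolynomial.coeff d fV =
      if d ∈ f0.support ∪ f1.support then (⟨algebraMap K0 L1 (MvPolynomial.coeff d f0), hm d⟩ : V) else 0 := by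
    intro d
    change MvPolynomial.coeff d (∑ m ∈ f0.support ∪ f1.support, MvPolynomial.monomial m
      (⟨algebraMap K0 L1 (MvPolynomial.coeff m f0), hm m⟩ : V)) = _
    rw [MvPolynomial.coeff_sum]
    simp only [MvPolynomial.coeff_monomial]
    rw [Finset.sum_ite_eq']
  refine ⟨fV, ?_, ?_⟩
  · refine MvPolynomial.ext _ _ fun d => ?_
    rw [MvPolynomial.coeff_map, MvPolynomial.coeff_map, hco]
    split_ifs with hd
    · rfl
    · rw [Finset.mem_union, not_or, MvPolynomial.notMem_support_iff] at hd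
      rw [map_zero, hd.1, map_zero]
  · refine MvPolynomial.ext _ _ fun d => ?_
    rw [MvPolynomial.coeff_map, MvPolynomial.coeff_map, hco]
    split_ifs with hd
    · rw [ha]
      rfl
    · rw [Finset.mem_union, not_or, MvPolynomial.notMem_support_iff, MvPolynomial.notMem_support_iff] at hd
      rw [map_zero, hd.2, map_zero]

theorem gen_j : MvPolynomial.eval ![1, 0, 0] fU ≠ 0 ∧ ∃ c c' : Fin 3 → U, ev fU c = 0 ∧ ev fU c' = 0 ∧
    II fU 2 c ^ 3 * JJ fU 2 c' ^ 2 ≠ II fU 2 c' ^ 3 * JJ fU 2 c ^ 2 := by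
  classical
  have hfer : (fer (AlgebraicClosure ℚ)).IsHomogeneous 6 := by
    unfold fer
    exact ((MvPolynomial.isHomogeneous_X_pow _ _).add (MvPolynomial.isHomogeneous_X_pow _ _)).add
      (MvPolynomial.isHomogeneous_X_pow _ _)
  obtain ⟨L1, _, _, _, _, V, φ, hloc, hsur, hR⟩ := rel_u (AlgebraicClosure ℚ) hfer
  obtain ⟨fV, h0, h1⟩ := fV_exists hR
  -- values
  have hev : ∀ c : Fin 3 → V, Rd V φ (ev fU (fun l => (c l : L1))) (ev (fer (AlgebraicClosure ℚ)) (fun l => φ (c l))) := by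
    intro c
    obtain ⟨v, hv1, hv2⟩ := ev_hom (V.subtype : V →+* L1) φ fV h0 h1 c
    have h2 : (v : L1) = ev fU (fun l => (c l : L1)) := hv1
    rw [← h2]
    exact ⟨v.2, hv2⟩
  have hferv : ∀ c : Fin 3 → AlgebraicClosure ℚ, ev (fer (AlgebraicClosure ℚ)) c = c 0 ^ 6 + c 1 ^ 6 + c 2 ^ 6 := by
    intro c
    unfold ev fer
    simp
  have hofid : ∀ c : Fin 3 → U, algebraMap U L1 (ev fU c) = ev fU (fun l => algebraMap U L1 (c l)) := fun c =>
    ev_map (Algebra.ofId U L1) fU c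
  refine ⟨?_, ?_⟩
  · intro h2
    have h3 : ev fU (![1, 0, 0] : Fin 3 → U) = 0 := by
      unfold ev
      rw [MvPolynomial.aeval_eq_eval]
      exact h2
    have h4 := congrArg (algebraMap U L1) h3
    rw [hofid, map_zero] at h4
    have h5 : (fun l => algebraMap U L1 ((![1, 0, 0] : Fin 3 → U) l)) = fun l => (((![1, 0, 0] : Fin 3 → V) l : V) : L1) := by
      funext l
      fin_cases l <;> simp
    rw [h5] at h4
    have h6 := hev ![1, 0, 0]
    rw [h4] at h6
    have h7 := Rd.zero.unique h6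
    rw [hferv] at h7
    simp at h7
  -- a point over `(1, y)`
  have hpt : ∀ y : U, (∃ hy : algebraMap U L1 y ∈ V, True) → ∃ (z : U) (_ : algebraMap U L1 z ∈ V), ev fU ![1, y, z] = 0 := by
    rintro y ⟨hy, -⟩
    have hcon : ¬ (lin fU (![0, 0, 1] : Fin 3 → U) ![1, y, 0]).degree = 0 := by
      intro hd
      have hC := Polynomial.eq_C_of_degree_eq_zero hd
      have e0 := congrArg (Polynomial.eval 0) hC
      have e1 := congrArg (Polynomial.eval 1) hC
      rw [lin_eval, Polynomial.eval_C] at e0 e1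
      have e2 : ev fU (lc (0 : U) 1 ![0, 0, 1] ![1, y, 0]) = ev fU (lc (1 : U) 1 ![0, 0, 1] ![1, y, 0]) := e0.trans e1.symm
      have e3 := congrArg (algebraMap U L1) e2
      rw [hofid, hofid] at e3
      have e4 : (fun l => algebraMap U L1 (lc (0 : U) 1 ![0, 0, 1] ![1, y, 0] l)) =
          fun l => (((![1, ⟨_, hy⟩, 0] : Fin 3 → V) l : V) : L1) := by
        funext l
        fin_cases l <;> simp [lc]
      have e5 : (fun l => algebraMap U L1 (lc (1 : U) 1 ![0, 0, 1] ![1, y, 0] l)) =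
          fun l => (((![1, ⟨_, hy⟩, 1] : Fin 3 → V) l : V) : L1) := by
        funext l
        fin_cases l <;> simp [lc]
      rw [e4, e5] at e3
      have e6 := hev ![1, ⟨_, hy⟩, 0]
      have e7 := hev ![1, ⟨_, hy⟩, 1]
      rw [e3] at e6
      have e8 := e6.unique e7
      rw [hferv, hferv] at e8
      simp at e8
    obtain ⟨z, hz⟩ := IsAlgClosed.exists_root _ hcon
    rw [Polynomial.IsRoot.def, lin_eval] at hz
    have hz' : ev fU ![1, y, z] = 0 := by
      rw [← hz]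
      congr 1
      funext l
      fin_cases l <;> simp [lc]
    refine ⟨z, ?_, hz'⟩
    by_contra hzV
    have hz0 : algebraMap U L1 z ≠ 0 := by
      intro h2
      apply hzV
      rw [h2]
      exact V.zero_mem
    have hinv : (algebraMap U L1 z)⁻¹ ∈ V := (V.mem_or_inv_mem _).resolve_left hzV
    have hred : φ ⟨_, hinv⟩ = 0 := (Rd.of_mem (φ := φ) hinv).unique (Rd.inv_zero hzV)
    have h2 := congrArg (algebraMap U L1) hz'
    rw [hofid, map_zero] at h2
    have h3 := ev_smul fU_sm.hom (F := L1) (algebraMap U L1 z)⁻¹ (fun l => algebraMap U L1 ((![1, y, z] : Fin 3 → U) l))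
    rw [h2, mul_zero] at h3
    have h4 : (fun l => (algebraMap U L1 z)⁻¹ * algebraMap U L1 ((![1, y, z] : Fin 3 → U) l)) =
        fun l => (((![⟨_, hinv⟩, ⟨_, hinv⟩ * ⟨_, hy⟩, 1] : Fin 3 → V) l : V) : L1) := by
      funext l
      fin_cases l
      · simp
      · simp
      · simp [hz0]
    rw [h4] at h3
    have h5 := hev ![⟨_, hinv⟩, ⟨_, hinv⟩ * ⟨_, hy⟩, 1]
    rw [h3] at h5
    have h6 := Rd.zero.unique h5
    rw [hferv] at h6
    have g0 : φ ((![⟨_, hinv⟩, ⟨_, hinv⟩ * ⟨_, hy⟩, 1] : Fin 3 → V) 0) = 0 := hred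
    have g1 : φ ((![⟨_, hinv⟩, ⟨_, hinv⟩ * ⟨_, hy⟩, 1] : Fin 3 → V) 1) = 0 := by
      change φ (⟨_, hinv⟩ * ⟨_, hy⟩) = 0
      rw [map_mul, hred, zero_mul]
    have g2 : φ ((![⟨_, hinv⟩, ⟨_, hinv⟩ * ⟨_, hy⟩, 1] : Fin 3 → V) 2) = 1 := map_one φ
    rw [g0, g1, g2] at h6
    norm_num at h6
  obtain ⟨y, hy⟩ := IsAlgClosed.exists_pow_nat_eq (2 : U) (n := 6) (by norm_num)
  have hyV : algebraMap U L1 y ∈ V := by
    by_contra hn
    have hinv := Rd.inv_zero (φ := φ) hn
    have h2 := hinv.pow 6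
    have h3 : (algebraMap U L1 y)⁻¹ ^ 6 = (2 : L1)⁻¹ := by
      rw [inv_pow, ← map_pow, hy, map_ofNat]
    rw [h3] at h2
    have h4 := Rd.two.inv (two_ne_zero (α := AlgebraicClosure ℚ)) (V := V) (φ := φ)
    have h5 := h2.unique h4
    norm_num at h5
  have h1V : algebraMap U L1 (1 : U) ∈ V := by
    rw [map_one]
    exact V.one_mem
  obtain ⟨z1, hz1, hc1⟩ := hpt 1 ⟨h1V, trivial⟩
  obtain ⟨z2, hz2, hc2⟩ := hpt y ⟨hyV, trivial⟩
  refine ⟨![1, 1, z1], ![1, y, z2], hc1, hc2, fun heq => ?_⟩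
  -- the points over `V`
  let c1 : Fin 3 → V := ![1, 1, ⟨_, hz1⟩]
  let c2 : Fin 3 → V := ![1, ⟨_, hyV⟩, ⟨_, hz2⟩]
  have e1 : (fun l => algebraMap U L1 ((![1, 1, z1] : Fin 3 → U) l)) = fun l => (V.subtype : V →+* L1) (c1 l) := by
    funext l
    fin_cases l <;> simp [c1]
  have e2 : (fun l => algebraMap U L1 ((![1, y, z2] : Fin 3 → U) l)) = fun l => (V.subtype : V →+* L1) (c2 l) := by
    funext l
    fin_cases l <;> simp [c2]
  choose v1 hv1 hv1' using fun j => qc_hom (V.subtype : V →+* L1) φ fV h0 h1 2 c1 j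
  choose v2 hv2 hv2' using fun j => qc_hom (V.subtype : V →+* L1) φ fV h0 h1 2 c2 j
  have hI : ∀ (c : Fin 3 → V) (v : ℕ → V) (d : Fin 3 → U), (fun l => algebraMap U L1 (d l)) = (fun l => (V.subtype : V →+* L1) (c l)) →
      (∀ j, (V.subtype : V →+* L1) (v j) = qc fU 2 (fun l => (V.subtype : V →+* L1) (c l)) j) →
      algebraMap U L1 (II fU 2 d) = (V.subtype : V →+* L1) (iI (v 0) (v 1) (v 2) (v 3) (v 4)) ∧
      algebraMap U L1 (JJ fU 2 d) = (V.subtype : V →+* L1) (iJ (v 0) (v 1) (v 2) (v 3) (v 4)) := by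
    intro c v d hd hv
    have g1 := II_map (f := fU) (Algebra.ofId U L1) 2 d
    have g2 := JJ_map (f := fU) (Algebra.ofId U L1) 2 d
    have g3 : (fun l => (Algebra.ofId U L1) (d l)) = fun l => (V.subtype : V →+* L1) (c l) := hd
    rw [g3] at g1 g2
    constructor
    · refine (show algebraMap U L1 (II fU 2 d) = _ from g1).trans ?_
      unfold II iI
      simp only [← hv, map_add, map_sub, map_mul, map_pow, map_ofNat]
    · refine (show algebraMap U L1 (JJ fU 2 d) = _ from g2).trans ?_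
      unfold JJ iJ
      simp only [← hv, map_add, map_sub, map_mul, map_pow, map_ofNat]
  obtain ⟨i1, j1⟩ := hI c1 v1 _ e1 hv1
  obtain ⟨i2, j2⟩ := hI c2 v2 _ e2 hv2
  have h2 := congrArg (algebraMap U L1) heq
  rw [map_mul, map_mul, map_pow, map_pow, map_pow, map_pow, i1, i2, j1, j2, ← map_pow, ← map_pow, ← map_pow, ← map_pow,
    ← map_mul, ← map_mul] at h2
  have hinj : Function.Injective (V.subtype : V →+* L1) := Subtype.val_injective
  have h3 := hinj h2
  have h4 := congrArg φ h3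
  have g1 : ∀ j, φ (v1 j) = qc (fer (AlgebraicClosure ℚ)) 2 (![1, 1, φ ⟨_, hz1⟩] : Fin 3 → AlgebraicClosure ℚ) j := fun j => by
    rw [hv1']
    congr 1
    funext l
    fin_cases l <;> simp [c1]
  have g2 : ∀ j, φ (v2 j) = qc (fer (AlgebraicClosure ℚ)) 2
      (![1, φ ⟨_, hyV⟩, φ ⟨_, hz2⟩] : Fin 3 → AlgebraicClosure ℚ) j := fun j => by
    rw [hv2']
    congr 1
    funext l
    fin_cases l <;> simp [c2]
  have hy2 : (φ ⟨_, hyV⟩ : AlgebraicClosure ℚ) ^ 6 = 2 := by
    rw [← map_pow]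
    have g3 : ((⟨_, hyV⟩ : V) ^ 6 : V) = 2 := by
      apply Subtype.val_injective
      change (algebraMap U L1 y) ^ 6 = ((2 : V) : L1)
      rw [← map_pow, hy, map_ofNat]
      rfl
    rw [g3, map_ofNat]
  refine fer_j (w := φ ⟨_, hz1⟩) (w' := φ ⟨_, hz2⟩) hy2 ?_
  unfold II JJ iI iJ
  unfold iI iJ at h4
  simp only [map_add, map_sub, map_mul, map_pow, map_ofNat, g1, g2] at h4
  exact h4

end H25.EX
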