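import Pool.Agent.H25.EX.Asm
import Pool.Agent.H25.EX.GenJ
import Pool.Agent.H71.SD.GlueDP
import Pool.Agent.H71.SD.RelU
import Pool.Agent.H25.DPR.Main

/-! # EX.Fin64 : all double planes over all algebraically closed fields: the exponent 64 (assembly; the last part as `SD.dp1_univ` of helper71) -/

namespace H25.EX

open H25.DP (Sm XP ev)
open H68.BB (Rd)
open H25.DPR (Cyc RatEq deg prod alt)

/-- a smooth sextic with nonconstant `j` -/
theorem ex_main {K0 : Type} [Field K0] [IsAlgClosed K0] [CharZero K0] {f : MvPolynomial (Fin 3) K0} (hf : Sm f)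
    (h1 : MvPolynomial.eval ![1, 0, 0] f ≠ 0) {c c' : Fin 3 → K0} (hc : ev f c = 0) (hc' : ev f c' = 0)
    (hj : II f 2 c ^ 3 * JJ f 2 c' ^ 2 ≠ II f 2 c' ^ 3 * JJ f 2 c ^ 2) {k : ℕ} (hk : 64 ≤ k) (L : Type) [Field L]
    [IsAlgClosed L] [Algebra K0 L] (z : Fin k → XP f L →₀ ℤ) (hz : ∀ i, deg (z i) = 0) :
    ∃ M : ℕ, 0 < M ∧ M • alt z ∈ RatEq f L k := by
  obtain ⟨A⟩ := ab_exists hf h1
  obtain ⟨e1, e2⟩ := ab_pt A hc (i := 2) (by decide)
  obtain ⟨e3, e4⟩ := ab_pt A hc' (i := 2) (by decide)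
  have hj' : ev A.a c ^ 3 * ev A.b c' ^ 2 ≠ ev A.a c' ^ 3 * ev A.b c ^ 2 := by
    intro h
    apply hj
    rw [← e1, ← e2, ← e3, ← e4]
    linear_combination (c 2 ^ 24 * c' 2 ^ 24 * 9 ^ 3 * 54 ^ 2) * h
  exact H25.DPR.tor_le (x := H25.DP.altZ z)
    (H25.DP.alt_z (K := L) (f := f) (N := k) (fun P => ex_alt A hf h1 hc hc' hj' hk P) z hz)

section
variable {K1 K L1 L : Type} [Field K1] [Field K] [Field L1] [Algebra K1 L1] [Field L] [Algebra K L]
  {f1 : MvPolynomial (Fin 3) K1} {f : MvPolynomial (Fin 3) K} {k : ℕ}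

private theorem prod_apply (z : Fin k → XP f L →₀ ℤ) (t : Fin k → XP f L) : prod z t = ∏ i, z i (t i) := by
  classical
  unfold prod
  rw [Finsupp.finsetSum_apply]
  by_cases h : t ∈ Fintype.piFinset (fun i => (z i).support)
  · rw [Finset.sum_eq_single t]
    · rw [Finsupp.single_eq_same]
    · intro s _ hs
      rw [Finsupp.single_eq_of_ne]
      exact fun e => hs e.symm
    · intro h'
      exact absurd h h'
  · rw [Finset.sum_eq_zero]
    · rw [Fintype.mem_piFinset] at h
      push Not at h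
      obtain ⟨i, hi⟩ := h
      exact (Finset.prod_eq_zero (f := fun i => z i (t i)) (Finset.mem_univ i) (Finsupp.notMem_support_iff.1 hi)).symm
    · intro s hs
      rw [Finsupp.single_eq_of_ne]
      rintro rfl
      exact h hs

private theorem prod_map {li : XP f L → XP f1 L1} (hli : Function.Injective li) (z : Fin k → XP f L →₀ ℤ) :
    prod (fun i => (z i).mapDomain li) = (prod z).mapDomain (fun t i => li (t i)) := by
  classical
  have hinj : Function.Injective (fun (t : Fin k → XP f L) i => li (t i)) := fun s t h =>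
    funext fun i => hli (congrFun h i)
  ext t
  rw [prod_apply]
  by_cases h : t ∈ Set.range (fun (t : Fin k → XP f L) i => li (t i))
  · obtain ⟨s, rfl⟩ := h
    rw [Finsupp.mapDomain_apply hinj, prod_apply]
    refine Finset.prod_congr rfl fun i _ => ?_
    rw [Finsupp.mapDomain_apply hli]
  · rw [Finsupp.mapDomain_of_notMem_range _ _ h]
    have h1 : ∃ i, t i ∉ Set.range li := by
      by_contra hcon
      push Not at hcon
      choose s hs using hcon
      exact h ⟨s, funext hs⟩
    obtain ⟨i, hi⟩ := h1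
    exact Finset.prod_eq_zero (Finset.mem_univ i) (Finsupp.mapDomain_of_notMem_range _ _ hi)

private theorem alt_map {li : XP f L → XP f1 L1} (hli : Function.Injective li) (z : Fin k → XP f L →₀ ℤ) :
    alt (fun i => (z i).mapDomain li) = (alt z).mapDomain (fun t i => li (t i)) := by
  unfold alt
  have h1 : (∑ σ : Equiv.Perm (Fin k), (Equiv.Perm.sign σ : ℤ) • prod (fun i => z (σ i))).mapDomain
      (fun (t : Fin k → XP f L) i => li (t i)) =
      ∑ σ : Equiv.Perm (Fin k), (Equiv.Perm.sign σ : ℤ) • (prod (fun i => z (σ i))).mapDomain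
        (fun (t : Fin k → XP f L) i => li (t i)) := by
    have h2 := map_sum (Finsupp.mapDomain.addMonoidHom (fun (t : Fin k → XP f L) i => li (t i)) :
      (Cyc f L k) →+ (Cyc f1 L1 k)) (fun σ : Equiv.Perm (Fin k) => (Equiv.Perm.sign σ : ℤ) • prod (fun i => z (σ i))) Finset.univ
    refine h2.trans (Finset.sum_congr rfl fun σ _ => ?_)
    exact map_zsmul (Finsupp.mapDomain.addMonoidHom (fun (t : Fin k → XP f L) i => li (t i)) :
      (Cyc f L k) →+ (Cyc f1 L1 k)) _ _
  rw [h1]
  refine Finset.sum_congr rfl fun σ _ => ?_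
  rw [← prod_map hli]

end

open SD

/-- **all double planes `z ^ 2 = f(p)`**: the exponent 64 for all algebraically closed fields of all characteristics and all ternary sextic
forms `f` -/
theorem dp64 {K : Type} [Field K] [IsAlgClosed K] {f : MvPolynomial (Fin 3) K} (hf : f.IsHomogeneous 6) {k : ℕ} (hk : 64 ≤ k)
    (z : Fin k → XP f K →₀ ℤ) (hz : ∀ i, deg (z i) = 0) : ∃ M : ℕ, 0 < M ∧ M • alt z ∈ RatEq f K k := by
  classical
  obtain ⟨hU1, cU, cU', hcU, hcU', hjU⟩ := gen_j
  obtain ⟨L1, _, _, _, _, VL, φL, hlocL, hsurjL, hrL⟩ := rel_u K hf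
  have hrr : ∀ m, Rd VL φL (algebraMap U L1 (MvPolynomial.coeff m fU)) (algebraMap K K (MvPolynomial.coeff m f)) := hrL
  obtain ⟨N', hN', hsp⟩ := dp_spz (k := k) hf fU_sm.hom hrr
  choose li hli using fun p : XP f K => lift_xp (f1 := fU) hsurjL hrr p
  have hinj : Function.Injective li := by
    intro p q h
    have h1 := hli p
    have h2 := hli q
    rw [h] at h1
    exact H25.DP.XP.ext (funext fun i => (h1.1 i).unique (h2.1 i)) (h1.2.unique h2.2)
  obtain ⟨M, hM, hM1⟩ := ex_main fU_sm hU1 hcU hcU' hjU hk L1 (fun i => (z i).mapDomain li) (by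
    intro i
    unfold deg
    rw [Finsupp.sum_mapDomain_index (fun _ => rfl) (fun _ _ _ => rfl)]
    exact hz i)
  rw [alt_map hinj] at hM1
  refine ⟨N' * M, Nat.mul_pos hN' hM, ?_⟩
  have e1 : ∀ (y : Cyc f K k), y = ∑ t ∈ y.support, y t • Finsupp.single t 1 := by
    intro y
    conv_lhs => rw [← Finsupp.sum_single y]
    unfold Finsupp.sum
    refine Finset.sum_congr rfl fun t _ => ?_
    rw [Finsupp.smul_single, smul_eq_mul, mul_one]
  have h3 := hsp (Fin k → XP f K) (alt z).support (fun t => (M : ℤ) * alt z t) (fun t i => li (t i)) (fun t => t)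
    (fun t _ j => hli (t j)) ?_
  · rw [mul_smul]
    have h4 : M • alt z = ∑ t ∈ (alt z).support, ((M : ℤ) * alt z t) • Finsupp.single t 1 := by
      conv_lhs => rw [e1 (alt z)]
      rw [Finset.smul_sum]
      refine Finset.sum_congr rfl fun t _ => ?_
      rw [← natCast_zsmul, smul_smul]
    rw [h4]
    exact h3
  · have h5 : M • Finsupp.mapDomain (fun (t : Fin k → XP f K) i => li (t i)) (alt z) =
        ∑ t ∈ (alt z).support, ((M : ℤ) * alt z t) • Finsupp.single (fun i => li (t i)) 1 := by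
      conv_lhs => rw [e1 (alt z)]
      rw [Finsupp.mapDomain_finsetSum, Finset.smul_sum]
      refine Finset.sum_congr rfl fun t _ => ?_
      rw [Finsupp.mapDomain_smul, Finsupp.mapDomain_single, ← natCast_zsmul, smul_smul]
    rw [← h5]
    exact hM1

end H25.EX
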