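import Pool.Agent.H25.DP.Val
import Pool.Agent.H25.DP.LinF

/-! # EX.FrRd : reduction of an integral frame (about 100 lines)

All entries of the frame `r` over `F` are in the valuation ring `V`; `φ : V → κ` surjective, local, `K0` in `V`.  Let `d0, e0, s0, t0, a0, b0` be the images of the entries.  `line`: by `lin_of` (`κ` infinite: it contains `K0`) it is enough that for all `x0 ∈ κ`
`ev f (lc x0 1 d0 e0) = (s0 x0 + t0)^2 (x0^3 - 3 a0 x0 - 2 b0)`: lift `x0` to `x ∈ V`, `lin_eval` and `r.line` over `F`, `rd_ev`, `Rd.unique`.  `disc`: `Rd.unique`.  `grd`: `rd_ev` for the partial derivatives, `rd_cr`.  `cr d0 e0 ≠ 0`: `val_int` and `rd_cr`, `Rd.unique`. -/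

namespace H25.EX

open H25.DP H68.BB

variable {K0 : Type} [Field K0] [IsAlgClosed K0] [CharZero K0] {f : MvPolynomial (Fin 3) K0}

theorem frm_rd (hf : Sm f) {F κ : Type} [Field F] [Field κ] [Algebra K0 F] [Algebra K0 κ] {V : ValuationSubring F}
    {φ : V →+* κ} [IsLocalHom φ] (hs : Function.Surjective φ)
    (hc : ∀ c : K0, Rd V φ (algebraMap K0 F c) (algebraMap K0 κ c)) (r : Frm f F) (hr : cr r.d r.e ≠ 0)
    (hV : ∀ x ∈ r.ent, x ∈ V) :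
    ∃ r0 : Frm f κ, cr r0.d r0.e ≠ 0 ∧ (∀ i, Rd V φ (r.d i) (r0.d i)) ∧ (∀ i, Rd V φ (r.e i) (r0.e i)) ∧
      Rd V φ r.s r0.s ∧ Rd V φ r.t r0.t ∧ Rd V φ r.a r0.a ∧ Rd V φ r.b r0.b := by
  have hdV : ∀ i, r.d i ∈ V := fun i => hV _ (Or.inl (Or.inl ⟨i, rfl⟩))
  have heV : ∀ i, r.e i ∈ V := fun i => hV _ (Or.inl (Or.inr ⟨i, rfl⟩))
  have hsV : r.s ∈ V := hV _ (Or.inr (by simp))
  have htV : r.t ∈ V := hV _ (Or.inr (by simp))
  have haV : r.a ∈ V := hV _ (Or.inr (by simp))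
  have hbV : r.b ∈ V := hV _ (Or.inr (by simp))
  obtain ⟨d0, hd⟩ : ∃ d0 : Fin 3 → κ, ∀ i, Rd V φ (r.d i) (d0 i) := ⟨fun i => φ ⟨r.d i, hdV i⟩, fun i => Rd.of_mem (hdV i)⟩
  obtain ⟨e0, he⟩ : ∃ e0 : Fin 3 → κ, ∀ i, Rd V φ (r.e i) (e0 i) := ⟨fun i => φ ⟨r.e i, heV i⟩, fun i => Rd.of_mem (heV i)⟩
  obtain ⟨s0, hs0⟩ : ∃ s0 : κ, Rd V φ r.s s0 := ⟨_, Rd.of_mem hsV⟩
  obtain ⟨t0, ht0⟩ : ∃ t0 : κ, Rd V φ r.t t0 := ⟨_, Rd.of_mem htV⟩
  obtain ⟨a0, ha0⟩ : ∃ a0 : κ, Rd V φ r.a a0 := ⟨_, Rd.of_mem haV⟩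
  obtain ⟨b0, hb0⟩ : ∃ b0 : κ, Rd V φ r.b b0 := ⟨_, Rd.of_mem hbV⟩
  have hlc : ∀ {x y : F} {x' y' : κ}, Rd V φ x x' → Rd V φ y y' → ∀ i, Rd V φ (lc x y r.d r.e i) (lc x' y' d0 e0 i) := by
    intro x y x' y' hx hy i
    unfold lc
    exact (hx.mul (hd i)).add (hy.mul (he i))
  have hcr : ∀ i, Rd V φ (cr r.d r.e i) (cr d0 e0 i) := rd_cr hd he
  have : CharZero κ := charZero_of_injective_algebraMap (algebraMap K0 κ).injective
  have : Infinite κ := Infinite.of_injective (Nat.cast : ℕ → κ) Nat.cast_injective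
  have hline : lin f d0 e0 = (Polynomial.C s0 * Polynomial.X + Polynomial.C t0) ^ 2 *
      (Polynomial.X ^ 3 - Polynomial.C (3 * a0) * Polynomial.X - Polynomial.C (2 * b0)) := by
    refine lin_of fun x0 => ?_
    obtain ⟨x, rfl⟩ := hs x0
    have hx : Rd V φ (x : F) (φ x) := ⟨x.2, rfl⟩
    have h1 := rd_ev hc f (hlc hx Rd.one)
    have h2 : ev f (lc (x : F) 1 r.d r.e) = (r.s * x + r.t) ^ 2 * ((x : F) ^ 3 - 3 * r.a * x - 2 * r.b) := by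
      rw [← lin_eval, r.line]
      simp only [Polynomial.eval_mul, Polynomial.eval_add, Polynomial.eval_sub, Polynomial.eval_pow, Polynomial.eval_C,
        Polynomial.eval_X]
    rw [h2] at h1
    exact h1.unique ((((hs0.mul hx).add ht0).pow 2).mul
      (((hx.pow 3).sub ((Rd.three.mul ha0).mul hx)).sub (Rd.two.mul hb0)))
  have hdisc : b0 ^ 2 - a0 ^ 3 = 1 := by
    have h1 := (hb0.pow 2).sub (ha0.pow 3)
    rw [r.disc] at h1
    exact h1.unique Rd.one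
  have hgrd : grad f (lc t0 (-s0) d0 e0) = cr d0 e0 := by
    funext i
    have h1 : Rd V φ (grad f (lc r.t (-r.s) r.d r.e) i) (grad f (lc t0 (-s0) d0 e0) i) :=
      rd_ev hc (MvPolynomial.pderiv i f) (hlc ht0 hs0.neg)
    rw [r.grd] at h1
    exact h1.unique (hcr i)
  refine ⟨⟨d0, e0, s0, t0, a0, b0, hline, hdisc, hgrd⟩, ?_, hd, he, hs0, ht0, ha0, hb0⟩
  obtain ⟨i, w, hw, hw'⟩ := val_int hf hc r hr hdV heV
  intro h0
  exact hw (hw'.unique (by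
    have h1 := hcr i
    have h2 : cr d0 e0 = 0 := h0
    rw [h2] at h1
    exact h1))

end H25.EX
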