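import Pool.Agent.H25.DP.Fac

/-! # EX.ValC : frames over a valuation ring, with the point of tangency (variant of `H25.DP.Val`) -/

namespace H25.EX

open H25.DP

open H68.BB

/-- roots of integral elements are integral -/
private theorem val_rt {F κ : Type} [Field F] [Field κ] {V : ValuationSubring F} {φ : V →+* κ} [IsLocalHom φ] {x : F} {c : κ}
    {n : ℕ} (hn : n ≠ 0) (h : Rd V φ (x ^ n) c) : ∃ x' : κ, Rd V φ x x' ∧ x' ^ n = c := by
  by_cases hx : x ∈ V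
  · exact ⟨_, Rd.of_mem hx, ((Rd.of_mem hx).pow n).unique h⟩
  · exfalso
    have hx0 : x ≠ 0 := by
      rintro rfl
      exact hx V.zero_mem
    have h1 := ((Rd.inv_zero (φ := φ) hx).pow n).mul h
    rw [zero_pow hn, zero_mul, inv_pow, inv_mul_cancel₀ (pow_ne_zero n hx0)] at h1
    exact one_ne_zero (Rd.one.unique h1)

private theorem val_dis {F κ : Type} [Field F] [Field κ] {V : ValuationSubring F} {φ : V →+* κ} {q0 q1 q2 q3 : F}
    {q0' q1' q2' q3' : κ} (hn : ∀ n : ℕ, Rd V φ (n : F) (n : κ)) (h0 : Rd V φ q0 q0') (h1 : Rd V φ q1 q1')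
    (h2 : Rd V φ q2 q2') (h3 : Rd V φ q3 q3') : Rd V φ (dis q0 q1 q2 q3) (dis q0' q1' q2' q3') := by
  have h4 : Rd V φ (4 : F) (4 : κ) := by
    have := hn 4
    push_cast at this
    exact this
  have h18 : Rd V φ (18 : F) (18 : κ) := by
    have := hn 18
    push_cast at this
    exact this
  have h27 : Rd V φ (27 : F) (27 : κ) := by
    have := hn 27
    push_cast at this
    exact this
  unfold dis
  exact (((((h1.pow 2).mul (h2.pow 2)).sub ((h4.mul h0).mul (h2.pow 3))).sub ((h4.mul (h1.pow 3)).mul h3)).sub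
    ((h27.mul (h0.pow 2)).mul (h3.pow 2))).add ((((h18.mul h0).mul h1).mul h2).mul h3)

private theorem val_quar {F κ : Type} [Field F] [Field κ] {V : ValuationSubring F} {φ : V →+* κ} {q0 q1 q2 q3 x y : F}
    {q0' q1' q2' q3' x' y' : κ} (h0 : Rd V φ q0 q0') (h1 : Rd V φ q1 q1') (h2 : Rd V φ q2 q2') (h3 : Rd V φ q3 q3')
    (hx : Rd V φ x x') (hy : Rd V φ y y') : Rd V φ (quar q0 q1 q2 q3 x y) (quar q0' q1' q2' q3' x' y') := by
  unfold quar
  exact hy.mul ((((h0.mul (hx.pow 3)).add ((h1.mul (hx.pow 2)).mul hy)).add ((h2.mul hx).mul (hy.pow 2))).add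
    (h3.mul (hy.pow 3)))

private theorem val_lc {F κ : Type} [Field F] [Field κ] {V : ValuationSubring F} {φ : V →+* κ} {x y : F} {x' y' : κ}
    {g h : Fin 3 → F} {g' h' : Fin 3 → κ} (hg : ∀ i, Rd V φ (g i) (g' i)) (hh : ∀ i, Rd V φ (h i) (h' i))
    (hx : Rd V φ x x') (hy : Rd V φ y y') (i : Fin 3) : Rd V φ (lc x y g h i) (lc x' y' g' h' i) := by
  unfold lc
  exact (hx.mul (hg i)).add (hy.mul (hh i))

/-- the vector of tangency is nonzero -/
private theorem val_tv {κ : Type} [Field κ] {g h : Fin 3 → κ} {s1 s2 : κ} (hgh : cr g h ≠ 0) (h12 : s1 = 1 ∨ s2 = 1) :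
    lc s2 (-s1) g h ≠ 0 := by
  intro h0
  have h1 : ∀ i, s2 * g i - s1 * h i = 0 := fun i => by
    have h2 := congrFun h0 i
    simp only [lc, Pi.zero_apply] at h2
    linear_combination h2
  apply hgh
  rcases h12 with h5 | h5
  · have h3 : ∀ i, h i = s2 * g i := fun i => by
      have h4 := h1 i
      rw [h5, one_mul] at h4
      linear_combination -h4
    funext i
    fin_cases i <;> simp [cr, h3] <;> ring
  · have h3 : ∀ i, g i = s1 * h i := fun i => by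
      have h4 := h1 i
      rw [h5, one_mul] at h4
      linear_combination h4
    funext i
    fin_cases i <;> simp [cr, h3] <;> ring

variable {K0 : Type} [Field K0] [IsAlgClosed K0] [CharZero K0] {f : MvPolynomial (Fin 3) K0}

/-- the common part -/
private theorem val_core (hf : Sm f) {F κ : Type} [Field F] [Field κ] [Algebra K0 F] [Algebra K0 κ] {V : ValuationSubring F}
    {φ : V →+* κ} [IsLocalHom φ] (hc : ∀ c : K0, Rd V φ (algebraMap K0 F c) (algebraMap K0 κ c)) (r : Frm f F)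
    (hr : cr r.d r.e ≠ 0) :
    ∃ (g h : Fin 3 → F) (g' h' : Fin 3 → κ) (k l m s1 s2 q0 q1 q2 q3 ρ θ u : F) (s1' s2' q0' q1' q2' q3' θ' u' : κ),
      ((∀ i, Rd V φ (g i) (g' i)) ∧ (∀ i, Rd V φ (h i) (h' i)) ∧ cr g' h' ≠ 0 ∧ k ≠ 0 ∧ m ≠ 0 ∧
        (∀ i, r.d i = k * g i) ∧ (∀ i, r.e i = l * g i + m * h i) ∧
        ((∀ i, r.d i ∈ V) → (∀ i, r.e i ∈ V) → k ∈ V ∧ l ∈ V ∧ m ∈ V)) ∧
      (Rd V φ s1 s1' ∧ Rd V φ s2 s2' ∧ Rd V φ q0 q0' ∧ Rd V φ q1 q1' ∧ Rd V φ q2 q2' ∧ Rd V φ q3 q3' ∧ Rd V φ θ θ' ∧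
        Rd V φ u u') ∧
      (∀ x y : F, ev f (lc x y g h) = (s1 * x + s2 * y) ^ 2 * quar q0 q1 q2 q3 x y) ∧
      (r.s = ρ * s1 * k ∧ r.t = ρ * (s1 * l + s2 * m)) ∧
      m * k ^ 3 * q0 = ρ ^ 2 ∧ m * q1 = -3 * l * q0 ∧
      m * (3 * q0 * k * l ^ 2 + 2 * q1 * k * l * m + q2 * k * m ^ 2) = -3 * r.a * ρ ^ 2 ∧
      m * (q0 * l ^ 3 + q1 * l ^ 2 * m + q2 * l * m ^ 2 + q3 * m ^ 3) = -2 * r.b * ρ ^ 2 ∧
      (θ' ≠ 0 ∧ ρ = u * (k * m) ∧ u ^ 5 * (k * m) ^ 9 * θ = 1 ∧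
        q0' ^ 2 * dis q0' q1' q2' q3' = -108 * u' ^ 12) ∧ lc s2' (-s1') g' h' ≠ 0 := by
  classical
  obtain ⟨g, h, g', h', k, l, m, hg, hh, hgh, hk, hm, hd, he, hint⟩ := sat V φ hr
  obtain ⟨s1, s2, q0, q1, q2, q3, ρ, θ, ⟨hs1, hs2, h12⟩, ⟨hq0, hq1, hq2, hq3⟩, hρ, hfun, hs, ht, e1, e2, e3, e4, e5, e6,
    e7⟩ := fac hf (fun c => (hc c).mem) r hr (fun i => (hg i).mem) (fun i => (hh i).mem) hk hm hd he
  -- numbers
  have hn : ∀ n : ℕ, Rd V φ (n : F) (n : κ) := fun n => by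
    have h1 := hc (n : K0)
    rwa [map_natCast, map_natCast] at h1
  have hinj : Function.Injective (algebraMap K0 κ) := (algebraMap K0 κ).injective
  have h108 : (108 : κ) ≠ 0 := by
    have h1 : algebraMap K0 κ 108 ≠ 0 := by
      rw [Ne, map_eq_zero_iff _ hinj]
      norm_num
    rwa [map_ofNat] at h1
  have r108 : Rd V φ (108 : F) (108 : κ) := by
    have := hn 108
    push_cast at this
    exact this
  -- `θ`
  have hs1' := Rd.of_mem (φ := φ) hs1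
  have hs2' := Rd.of_mem (φ := φ) hs2
  have h12' : φ ⟨s1, hs1⟩ = 1 ∨ φ ⟨s2, hs2⟩ = 1 := by
    rcases h12 with h1 | h1
    · left
      subst h1
      exact hs1'.unique Rd.one
    · right
      subst h1
      exact hs2'.unique Rd.one
  have hp := val_lc hg hh hs2' hs1'.neg
  have hp0 : lc (φ ⟨s2, hs2⟩) (-φ ⟨s1, hs1⟩) g' h' ≠ 0 := val_tv hgh h12'
  have hgr : ∀ i, Rd V φ (grad f (lc s2 (-s1) g h) i) (grad f (lc (φ ⟨s2, hs2⟩) (-φ ⟨s1, hs1⟩) g' h') i) :=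
    fun i => rd_ev hc (MvPolynomial.pderiv i f) hp
  obtain ⟨i, hi⟩ : ∃ i, grad f (lc (φ ⟨s2, hs2⟩) (-φ ⟨s1, hs1⟩) g' h') i ≠ 0 := by
    by_contra hcon
    push Not at hcon
    exact sm_ext hf hp0 (funext hcon)
  obtain ⟨j, hj⟩ : ∃ j, cr g' h' j ≠ 0 := by
    by_contra hcon
    push Not at hcon
    exact hgh (funext hcon)
  have hcr : ∀ i, Rd V φ (cr g h i) (cr g' h' i) := rd_cr hg hh
  have hθ : Rd V φ θ (grad f (lc (φ ⟨s2, hs2⟩) (-φ ⟨s1, hs1⟩) g' h') j / cr g' h' j) := by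
    have h1 := (hgr j).div (hcr j) hj
    rw [e6 j, mul_div_assoc, div_self ((hcr j).ne_zero hj), mul_one] at h1
    exact h1
  have hθ0 : grad f (lc (φ ⟨s2, hs2⟩) (-φ ⟨s1, hs1⟩) g' h') j / cr g' h' j ≠ 0 := by
    intro h0
    rw [h0] at hθ
    have h1 := hθ.mul (hcr i)
    rw [← e6 i, zero_mul] at h1
    exact hi ((hgr i).unique h1)
  -- `u`
  have hq0' := Rd.of_mem (φ := φ) hq0
  have hq1' := Rd.of_mem (φ := φ) hq1
  have hq2' := Rd.of_mem (φ := φ) hq2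
  have hq3' := Rd.of_mem (φ := φ) hq3
  have hdis := ((hq0'.pow 2).mul (val_dis hn hq0' hq1' hq2' hq3')).neg.div r108 h108
  have f108 : (108 : F) ≠ 0 := r108.ne_zero h108
  have hu12 : (ρ / (k * m)) ^ 12 = -(q0 ^ 2 * dis q0 q1 q2 q3) / 108 := by
    have h1 : q0 ^ 2 * dis q0 q1 q2 q3 = -108 * ρ ^ 12 / (m * k) ^ 12 := by
      rw [eq_div_iff (pow_ne_zero _ (mul_ne_zero hm hk)), e5]
    rw [h1]
    field_simp
  rw [← hu12] at hdis
  obtain ⟨u', hu', hu2⟩ := val_rt (by norm_num) hdis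
  refine ⟨g, h, g', h', k, l, m, s1, s2, q0, q1, q2, q3, ρ, θ, ρ / (k * m), _, _, _, _, _, _, _, u',
    ⟨hg, hh, hgh, hk, hm, hd, he, hint⟩, ⟨hs1', hs2', hq0', hq1', hq2', hq3', hθ, hu'⟩, hfun, ⟨hs, ht⟩, e1, e2, e3, e4, ⟨hθ0,
    ?_, ?_, ?_⟩, hp0⟩
  · field_simp
  · rw [← e7]
    field_simp
  · rw [hu2]
    field_simp

theorem val_c (hf : Sm f) {F κ : Type} [Field F] [Field κ] [Algebra K0 F] [Algebra K0 κ] {V : ValuationSubring F}
    {φ : V →+* κ} [IsLocalHom φ] (hs : Function.Surjective φ)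
    (hc : ∀ c : K0, Rd V φ (algebraMap K0 F c) (algebraMap K0 κ c)) (r : Frm f F) (hr : cr r.d r.e ≠ 0) :
    (∀ x ∈ r.ent, x ∈ V) ∨
      ∃ (g h : Fin 3 → F) (g' h' : Fin 3 → κ) (k l m : F) (s1 s2 q0 q1 q2 q3 : κ), (∀ i, Rd V φ (g i) (g' i)) ∧
        (∀ i, Rd V φ (h i) (h' i)) ∧ cr g' h' ≠ 0 ∧ (∀ i, r.d i = k * g i) ∧ (∀ i, r.e i = l * g i + m * h i) ∧
        (q0 = 0 ∨ dis q0 q1 q2 q3 = 0) ∧
        (∀ x y : κ, ev f (lc x y g' h') = (s1 * x + s2 * y) ^ 2 * quar q0 q1 q2 q3 x y) ∧ lc s2 (-s1) g' h' ≠ 0 ∧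
        ∃ μ : F, μ ≠ 0 ∧ ∀ i, Rd V φ (μ * lc r.t (-r.s) r.d r.e i) (lc s2 (-s1) g' h' i) := by
  obtain ⟨g, h, g', h', k, l, m, s1, s2, q0, q1, q2, q3, ρ, θ, u, s1', s2', q0', q1', q2', q3', θ', u',
    ⟨hg, hh, hgh, hk, hm, hd, he, hint⟩, ⟨hs1, hs2, hq0, hq1, hq2, hq3, hθ, hu⟩, hfun, ⟨hs', ht⟩, e1, e2, e3, e4, ⟨hθ0,
    e5, e6, e7⟩, hp0⟩ := val_core hf hc r hr
  by_cases hq : q0' = 0 ∨ dis q0' q1' q2' q3' = 0
  · right
    refine ⟨g, h, g', h', k, l, m, s1', s2', q0', q1', q2', q3', hg, hh, hgh, hd, he, hq, ?_, hp0, ?_⟩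
    · intro x y
      obtain ⟨X, rfl⟩ := hs x
      obtain ⟨Y, rfl⟩ := hs y
      have hX : Rd V φ (X : F) (φ X) := ⟨X.2, rfl⟩
      have hY : Rd V φ (Y : F) (φ Y) := ⟨Y.2, rfl⟩
      have h1 := rd_ev hc f (val_lc hg hh hX hY)
      rw [hfun] at h1
      exact h1.unique ((((hs1.mul hX).add (hs2.mul hY)).pow 2).mul (val_quar hq0 hq1 hq2 hq3 hX hY))
    · have hu0 : u ≠ 0 := by
        rintro rfl
        rw [zero_pow (by norm_num), zero_mul, zero_mul] at e6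
        exact zero_ne_one e6
      have hρ0 : ρ ≠ 0 := by
        rw [e5]
        exact mul_ne_zero hu0 (mul_ne_zero hk hm)
      have hN : ρ * k * m ≠ 0 := mul_ne_zero (mul_ne_zero hρ0 hk) hm
      refine ⟨(ρ * k * m)⁻¹, inv_ne_zero hN, fun i => ?_⟩
      have h1 : (ρ * k * m)⁻¹ * lc r.t (-r.s) r.d r.e i = lc s2 (-s1) g h i := by
        rw [inv_mul_eq_iff_eq_mul₀ hN]
        simp only [lc, hs', ht, hd, he]
        ring
      rw [h1]
      exact val_lc hg hh hs2 hs1.neg i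
  · left
    push Not at hq
    obtain ⟨hq1', hq2'⟩ := hq
    have hn : ∀ n : ℕ, Rd V φ (n : F) (n : κ) := fun n => by
      have h1 := hc (n : K0)
      rwa [map_natCast, map_natCast] at h1
    have hinj : Function.Injective (algebraMap K0 κ) := (algebraMap K0 κ).injective
    have h3 : (3 : κ) ≠ 0 := by
      have h1 : algebraMap K0 κ 3 ≠ 0 := by
        rw [Ne, map_eq_zero_iff _ hinj]
        norm_num
      rwa [map_ofNat] at h1
    have h2 : (2 : κ) ≠ 0 := by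
      have h1 : algebraMap K0 κ 2 ≠ 0 := by
        rw [Ne, map_eq_zero_iff _ hinj]
        norm_num
      rwa [map_ofNat] at h1
    have r2 : Rd V φ (2 : F) (2 : κ) := Rd.two
    have r3 : Rd V φ (3 : F) (3 : κ) := Rd.three
    have hu0 : u' ≠ 0 := by
      rintro rfl
      rw [zero_pow (by norm_num), mul_zero] at e7
      rcases mul_eq_zero.1 e7 with h0 | h0
      · exact hq1' (eq_zero_of_pow_eq_zero h0)
      · exact hq2' h0
    -- `k m`
    have hden : u' ^ 5 * θ' ≠ 0 := mul_ne_zero (pow_ne_zero _ hu0) hθ0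
    have hkm9 : (k * m) ^ 9 = 1 / (u ^ 5 * θ) := by
      rw [eq_div_iff (((hu.pow 5).mul hθ).ne_zero hden)]
      linear_combination e6
    have h9 := Rd.one.div ((hu.pow 5).mul hθ) hden
    rw [← hkm9] at h9
    obtain ⟨w', hw', hw9⟩ := val_rt (by norm_num) h9
    have hw0 : w' ≠ 0 := by
      rintro rfl
      rw [zero_pow (by norm_num)] at hw9
      exact (div_ne_zero one_ne_zero hden) hw9.symm
    have hρ : Rd V φ ρ (u' * w') := by
      rw [e5]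
      exact hu.mul hw'
    have hρ0 : u' * w' ≠ 0 := mul_ne_zero hu0 hw0
    -- `k`
    have hden2 : w' * q0' ≠ 0 := mul_ne_zero hw0 hq1'
    have hk2 : k ^ 2 = ρ ^ 2 / (k * m * q0) := by
      rw [eq_div_iff ((hw'.mul hq0).ne_zero hden2)]
      linear_combination e1
    have hk2' := (hρ.pow 2).div (hw'.mul hq0) hden2
    rw [← hk2] at hk2'
    obtain ⟨k', hk', hk4⟩ := val_rt (by norm_num) hk2'
    have hk0 : k' ≠ 0 := by
      rintro rfl
      rw [zero_pow (by norm_num)] at hk4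
      exact (div_ne_zero (pow_ne_zero _ hρ0) hden2) hk4.symm
    -- `m`
    have hm' := hw'.div hk' hk0
    rw [mul_div_assoc, mul_comm k, div_mul_cancel₀ m hk] at hm'
    -- `l`
    have hden3 : (3 : κ) * q0' ≠ 0 := mul_ne_zero h3 hq1'
    have hl : l = -(m * q1) / (3 * q0) := by
      rw [eq_div_iff ((r3.mul hq0).ne_zero hden3)]
      linear_combination e2
    have hl' := (hm'.mul hq1).neg.div (r3.mul hq0) hden3
    rw [← hl] at hl'
    -- `a`, `b`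
    have ha : r.a = -(m * (3 * q0 * k * l ^ 2 + 2 * q1 * k * l * m + q2 * k * m ^ 2)) / (3 * ρ ^ 2) := by
      rw [eq_div_iff ((r3.mul (hρ.pow 2)).ne_zero (mul_ne_zero h3 (pow_ne_zero _ hρ0)))]
      linear_combination e3
    have hb : r.b = -(m * (q0 * l ^ 3 + q1 * l ^ 2 * m + q2 * l * m ^ 2 + q3 * m ^ 3)) / (2 * ρ ^ 2) := by
      rw [eq_div_iff ((r2.mul (hρ.pow 2)).ne_zero (mul_ne_zero h2 (pow_ne_zero _ hρ0)))]
      linear_combination e4
    have ha' : r.a ∈ V := by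
      rw [ha]
      exact ((hm'.mul (((((r3.mul hq0).mul hk').mul (hl'.pow 2)).add ((((r2.mul hq1).mul hk').mul hl').mul hm')).add
        ((hq2.mul hk').mul (hm'.pow 2)))).neg.div (r3.mul (hρ.pow 2)) (mul_ne_zero h3 (pow_ne_zero _ hρ0))).mem
    have hb' : r.b ∈ V := by
      rw [hb]
      exact ((hm'.mul ((((hq0.mul (hl'.pow 3)).add ((hq1.mul (hl'.pow 2)).mul hm')).add
        ((hq2.mul hl').mul (hm'.pow 2))).add (hq3.mul (hm'.pow 3)))).neg.div (r2.mul (hρ.pow 2))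
        (mul_ne_zero h2 (pow_ne_zero _ hρ0))).mem
    have hsV : r.s ∈ V := by
      rw [hs']
      exact ((hρ.mul hs1).mul hk').mem
    have htV : r.t ∈ V := by
      rw [ht]
      exact (hρ.mul ((hs1.mul hl').add (hs2.mul hm'))).mem
    have hdV : ∀ i, r.d i ∈ V := fun i => by
      rw [hd]
      exact (hk'.mul (hg i)).mem
    have heV : ∀ i, r.e i ∈ V := fun i => by
      rw [he]
      exact ((hl'.mul (hg i)).add (hm'.mul (hh i))).mem
    intro x hx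
    unfold Frm.ent at hx
    rcases hx with (⟨i, rfl⟩ | ⟨i, rfl⟩) | hx
    · exact hdV i
    · exact heV i
    · rcases hx with rfl | rfl | rfl | rfl
      · exact hsV
      · exact htV
      · exact ha'
      · exact hb'

end H25.EX
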