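import Pool.Agent.H25.EX.LfU
import Pool.Agent.H25.EX.ValC
import Pool.Agent.H25.EX.FrRd
import Pool.Agent.H25.DP.Prp
import Pool.Agent.H25.DP.SingX
import Pool.Agent.H25.DP.Sat
import Pool.Agent.H34.ES.Spc

/-! # EX.SpL : specialisation of lifts (assembly) -/

namespace H25.EX

open H25.DP H77.AF
open H68.BB (Om Place Rd tt)

/-- two multiples of a vector with nonzero reductions -/
private theorem unit_of {F κ : Type} [Field F] [Field κ] {V : ValuationSubring F} {φ : V →+* κ} [IsLocalHom φ] {a b : F}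
    {v : Fin 3 → F} {p q : Fin 3 → κ} (ha : a ≠ 0) (hp : ∀ i, Rd V φ (a * v i) (p i)) (hq : ∀ i, Rd V φ (b * v i) (q i))
    (hp0 : p ≠ 0) (hq0 : q ≠ 0) : ∃ u : κ, u ≠ 0 ∧ Rd V φ (b / a) u ∧ ∀ i, q i = u * p i := by
  obtain ⟨i, hi⟩ : ∃ i, p i ≠ 0 := by
    by_contra h
    push Not at h
    exact hp0 (funext h)
  have hvi : v i ≠ 0 := by
    intro h
    have h1 := (hp i).ne_zero hi
    rw [h, mul_zero] at h1
    exact h1 rfl
  have h1 := (hq i).div (hp i) hi
  have h2 : b * v i / (a * v i) = b / a := by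
    field_simp
  rw [h2] at h1
  have h3 : ∀ j, q j = q i / p i * p j := fun j => by
    have h4 := h1.mul (hp j)
    have h5 : b / a * (a * v j) = b * v j := by
      field_simp
    rw [h5] at h4
    exact (hq j).unique h4
  refine ⟨q i / p i, ?_, h1, h3⟩
  intro h0
  apply hq0
  funext j
  rw [h3 j, h0, zero_mul, Pi.zero_apply]

variable {K0 : Type} [Field K0] [IsAlgClosed K0] [CharZero K0] {f : MvPolynomial (Fin 3) K0}

omit [IsAlgClosed K0] [CharZero K0] in
/-- the difference of two specialisations -/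
private theorem dif_sp {K : Type} [Field K] [IsAlgClosed K] [Algebra K0 K] {π : Place K (Om K)} {R : XP f (Om K)} {x R0 : XP f K}
    (hchar : CharZero K) (hx : (xpd K f).sp π R x) (h0 : (xpd K f).sp π R R0) :
    ((Finsupp.single (fun _ => x) 1 - Finsupp.single (fun _ => x.inv) 1) -
      (Finsupp.single (fun _ => R0) 1 - Finsupp.single (fun _ => R0.inv) 1) : Cyc (xpd K f) 1) ∈ RatEq (xpd K f) 1 := by
  obtain ⟨c, hc, h1, h2⟩ := sp_uniq hx h0
  have h3 := scale hc h1 h2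
  have h4 := inv_rat h3
  have h5 := AddSubgroup.sub_mem _ h3 h4
  have h6 : ∀ a b c d : (Fin 1 → XP f K) →₀ ℤ, a - b - (c - d) = a - c - (b - d) := fun a b c d => by abel
  have h7 := h6 (Finsupp.single (fun _ => x) 1) (Finsupp.single (fun _ => R0) 1) (Finsupp.single (fun _ => x.inv) 1)
    (Finsupp.single (fun _ => R0.inv) 1)
  exact h7 ▸ h5

theorem spl (A : AB f) (hf : Sm f) (h1 : MvPolynomial.eval ![1, 0, 0] f ≠ 0) {K : Type} [Field K] [IsAlgClosed K]
    [Algebra K0 K] {π : Place K (Om K)} {w : ES.Pt 3 (Om K)} {w0 : ES.Pt 3 K} (hw : ES.OnW (WE A K) w)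
    (hs : ES.Sp (WE A K) π w w0) {R : XP f (Om K)} (hR : Lf f w R) {x : XP f K} (hx : (xpd K f).sp π R x) :
    (∃ R0 : XP f K, Lf f w0 R0 ∧ ((Finsupp.single (fun _ => x) 1 - Finsupp.single (fun _ => x.inv) 1) -
      (Finsupp.single (fun _ => R0) 1 - Finsupp.single (fun _ => R0.inv) 1) : Cyc (xpd K f) 1) ∈ RatEq (xpd K f) 1) ∨
    ((∀ R0 : XP f K, ¬ Lf f w0 R0) ∧
      (Finsupp.single (fun _ => x) 1 - Finsupp.single (fun _ => x.inv) 1 : Cyc (xpd K f) 1) ∈ RatEq (xpd K f) 1) := by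
  have hloc := π.isLocal
  have hcK : CharZero K := charZero_of_injective_algebraMap (algebraMap K0 K).injective
  have hsur : Function.Surjective π.φ := fun c => by
    obtain ⟨h1, h2⟩ := π.const c
    exact ⟨_, h2⟩
  have hcn : ∀ c : K0, Rd π.V π.φ (algebraMap K0 (Om K) c) (algebraMap K0 K c) := fun c => by
    rw [IsScalarTower.algebraMap_apply K0 K (Om K)]
    exact π.const _
  have hw0 : ES.OnW (WE A K) w0 := ES.Sp_onW (WE_ok A hf.hom K) hw hs
  have hE0 := (onE_iff.1 hw0).2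
  have hE := (onE_iff.1 hw).2
  obtain ⟨hNZ, γ, hγ, hγβ, hγx, hγy⟩ := hs
  change ∀ i, Rd π.V π.φ (γ ^ 1 * w.β i) (w0.β i) at hγβ
  change Rd π.V π.φ (γ ^ (2 * 9) * w.x) w0.x at hγx
  change Rd π.V π.φ (γ ^ (3 * 9) * w.y) w0.y at hγy
  norm_num at hγβ hγx hγy
  obtain ⟨r, ρ, hr, hρ, hc, hp, hz⟩ := hR
  rcases val_c hf hsur hcn r hr with hV | hV
  · -- integral frame
    obtain ⟨r0, hr0, hd, he, hs0, ht0, ha0, hb0⟩ := frm_rd hf hsur hcn r hr hV
    obtain ⟨hc0, hfc0, ea, eb⟩ := ab_frm A hf.hom h1 r0 hr0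
    have hcr : ∀ i, Rd π.V π.φ (ρ * w.β i) (lc r0.t (-r0.s) r0.d r0.e i) := fun i => by
      rw [← hc]
      exact (ht0.mul (hd i)).add (hs0.neg.mul (he i))
    by_cases hβ : w0.β = 0
    · -- the point at infinity
      right
      refine ⟨fun R0 hR0 => (lf_good A hf.hom h1 hR0).1 hβ, ?_⟩
      have hy0 : w0.y ^ 2 = w0.x ^ 3 := by
        have h2 := hE0.2
        have h3 : ev A.a w0.β = 0 := by
          have h4 := ev_prop A.ha (c := (0 : Fin 3 → K)) (c' := w0.β) (ρ := 0) (fun i => by rw [hβ]; simp)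
          rwa [zero_pow (by norm_num), zero_mul] at h4
        have h4 : ev A.b w0.β = 0 := by
          have h4 := ev_prop A.hb (c := (0 : Fin 3 → K)) (c' := w0.β) (ρ := 0) (fun i => by rw [hβ]; simp)
          rwa [zero_pow (by norm_num), zero_mul] at h4
        rw [h3, h4] at h2
        linear_combination h2
      have hx0 : w0.x ≠ 0 := by
        intro h2
        rw [h2, zero_pow (by norm_num)] at hy0
        have h3 : w0.y = 0 := pow_eq_zero_iff (by norm_num) |>.1 hy0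
        rcases hNZ with h4 | h4 | h4
        · exact h4 hβ
        · exact h4 h2
        · exact h4 h3
      -- `ρ / γ` is not integral
      have hnot : ρ / γ ∉ π.V := by
        intro hm
        have h2 := Rd.of_mem (φ := π.φ) hm
        apply hc0
        funext i
        have h3 := h2.mul (hγβ i)
        have h4 : ρ / γ * (γ * w.β i) = ρ * w.β i := by
          field_simp
        rw [h4, hβ, Pi.zero_apply, mul_zero] at h3
        exact (hcr i).unique h3
      have hinv := H68.BB.Rd.inv_zero (φ := π.φ) hnot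
      rw [inv_div] at hinv
      have hwx : w.x ≠ 0 := by
        intro h2
        rw [h2, mul_zero] at hγx
        exact hx0 (hγx.unique Rd.zero)
      -- the scalar
      have hX0 : ρ ^ 18 * w.x ≠ 0 := mul_ne_zero (pow_ne_zero _ hρ) hwx
      have hXi : Rd π.V π.φ (ρ ^ 18 * w.x)⁻¹ 0 := by
        have h2 := (hinv.pow 18).mul (hγx.inv hx0)
        have h3 : (γ / ρ) ^ 18 * (γ ^ 18 * w.x)⁻¹ = (ρ ^ 18 * w.x)⁻¹ := by
          field_simp
        rw [h3, zero_pow (by norm_num), zero_mul] at h2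
        exact h2
      have hXY : Rd π.V π.φ ((ρ ^ 18 * w.x)⁻¹ ^ 2 * (ρ ^ 27 * w.y)) 0 := by
        have h2 := ((hinv.pow 9).mul ((hγx.inv hx0).pow 2)).mul hγy
        have h3 : (γ / ρ) ^ 9 * (γ ^ 18 * w.x)⁻¹ ^ 2 * (γ ^ 27 * w.y) = (ρ ^ 18 * w.x)⁻¹ ^ 2 * (ρ ^ 27 * w.y) := by
          field_simp
        rw [h3, zero_pow (by norm_num), zero_mul, zero_mul] at h2
        exact h2
      have hP : ∀ i, Rd π.V π.φ ((ρ ^ 18 * w.x)⁻¹ * R.p i) (r0.d i) := fun i => by
        have h2 := (hd i).add (hXi.mul (he i))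
        rw [zero_mul, add_zero] at h2
        have h3 : (ρ ^ 18 * w.x)⁻¹ * R.p i = r.d i + (ρ ^ 18 * w.x)⁻¹ * r.e i := by
          rw [hp, mul_add, ← mul_assoc, inv_mul_cancel₀ hX0, one_mul]
        rw [h3]
        exact h2
      have hZ : Rd π.V π.φ ((ρ ^ 18 * w.x)⁻¹ ^ 3 * R.z) 0 := by
        have h2 := (hs0.add (hXi.mul ht0)).mul hXY
        rw [mul_zero] at h2
        have h3 : (ρ ^ 18 * w.x)⁻¹ ^ 3 * R.z =
            (r.s + (ρ ^ 18 * w.x)⁻¹ * r.t) * ((ρ ^ 18 * w.x)⁻¹ ^ 2 * (ρ ^ 27 * w.y)) := by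
          rw [hz]
          field_simp
        rw [h3]
        exact h2
      have hd0 : r0.d ≠ 0 := by
        intro h2
        apply hr0
        rw [h2]
        funext i
        fin_cases i <;> simp [cr]
      have he0 : (0 : K) ^ 2 = ev f r0.d := by
        have h2 : Rd π.V π.φ (((ρ ^ 18 * w.x)⁻¹ ^ 3 * R.z) ^ 2) (0 ^ 2) := hZ.pow 2
        have h3 : ((ρ ^ 18 * w.x)⁻¹ ^ 3 * R.z) ^ 2 = ev f (fun i => (ρ ^ 18 * w.x)⁻¹ * R.p i) := by
          rw [ev_smul hf.hom, mul_pow, R.eq, ← pow_mul]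
        rw [h3] at h2
        exact h2.unique (rd_ev hcn f hP)
      obtain ⟨c, hc1, hc2, hc3⟩ := sp_uniq (π := π) (P := R) (p := ⟨r0.d, 0, hd0, he0⟩)
        ⟨(ρ ^ 18 * w.x)⁻¹, inv_ne_zero hX0, hP, hZ⟩ hx
      have h2 : x.z = 0 := by
        rw [hc3]
        exact mul_zero _
      have h3 : x.inv = x := XP.ext rfl (by
        change -x.z = x.z
        rw [h2, neg_zero])
      rw [h3]
      have h4 : ∀ a : (Fin 1 → XP f K) →₀ ℤ, a - a = 0 := fun a => sub_self a
      have h5 := h4 (Finsupp.single (fun _ => x) 1)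
      exact h5 ▸ (AddSubgroup.zero_mem (RatEq (xpd K f) 1))
    · -- a good point
      left
      obtain ⟨u, hu0, hu, hu2⟩ := unit_of hγ hγβ hcr hβ hc0
      have hX : Rd π.V π.φ (ρ ^ 18 * w.x) (u ^ 18 * w0.x) := by
        have h2 := (hu.pow 18).mul hγx
        have h3 : (ρ / γ) ^ 18 * (γ ^ 18 * w.x) = ρ ^ 18 * w.x := by
          field_simp
        rwa [h3] at h2
      have hY : Rd π.V π.φ (ρ ^ 27 * w.y) (u ^ 27 * w0.y) := by
        have h2 := (hu.pow 27).mul hγy
        have h3 : (ρ / γ) ^ 27 * (γ ^ 27 * w.y) = ρ ^ 27 * w.y := by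
          field_simp
        rwa [h3] at h2
      rw [ev_prop A.ha hu2] at ea
      rw [ev_prop A.hb hu2] at eb
      let R0 : XP f K :=
        { p := lc (u ^ 18 * w0.x) 1 r0.d r0.e
          z := (r0.s * (u ^ 18 * w0.x) + r0.t) * (u ^ 27 * w0.y)
          ne := fun h0 => hr0 (cr_lc _ _ _ h0)
          eq := by
            rw [← lin_eval, r0.line]
            have hxy := hE0.2
            simp only [Polynomial.eval_mul, Polynomial.eval_add, Polynomial.eval_sub, Polynomial.eval_pow,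
              Polynomial.eval_C, Polynomial.eval_X]
            rw [← ea, ← eb]
            linear_combination (r0.s * (u ^ 18 * w0.x) + r0.t) ^ 2 * u ^ 54 * hxy }
      have hsp : (xpd K f).sp π R R0 := by
        refine ⟨1, one_ne_zero, fun i => ?_, ?_⟩
        · rw [one_mul, hp]
          have h2 := (hX.mul (hd i)).add (he i)
          have h3 : R0.p i = u ^ 18 * w0.x * r0.d i + r0.e i := by
            change (u ^ 18 * w0.x) * r0.d i + 1 * r0.e i = _
            rw [one_mul]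
          rw [h3]
          exact h2
        · rw [one_pow, one_mul, hz]
          exact ((hs0.mul hX).add ht0).mul hY
      refine ⟨R0, ⟨r0, u, hr0, hu0, hu2, fun i => ?_, rfl⟩, dif_sp hcK hx hsp⟩
      change (u ^ 18 * w0.x) * r0.d i + 1 * r0.e i = _
      rw [one_mul]
  · -- the tangent line degenerates
    right
    obtain ⟨g, h0, g', h0', k, l, m, s1, s2, q0, q1, q2, q3, hg, hh, hgh, hd, he, hq, H, hc0, μ, hμ, hμc⟩ := hV
    have hP : R.p = lc (ρ ^ 18 * w.x * k + l) m g h0 := by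
      funext i
      rw [hp, hd, he]
      simp only [lc]
      ring
    obtain ⟨x0, y0, hxy⟩ := sp_line hx hg hh hgh hP
    refine ⟨fun R0 hR0 => ?_, sing_x hf hgh hq H hxy⟩
    obtain ⟨hβ, hD⟩ := lf_good A hf.hom h1 hR0
    have hμβ : ∀ i, Rd π.V π.φ (μ * ρ * w.β i) (lc s2 (-s1) g' h0' i) := fun i => by
      have h2 := hμc i
      rwa [hc, ← mul_assoc] at h2
    obtain ⟨u, hu0, -, hu2⟩ := unit_of hγ hγβ hμβ hβ hc0
    have hinf : Infinite K := IsAlgClosed.instInfinite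
    obtain ⟨ht1, ht2⟩ := tang H
    obtain ⟨θ, hθ⟩ := perp hgh ht1 ht2
    have hdis := ab_dis A hf.hom h1 H hθ hc0
    have h2 : q0 ^ 2 * dis q0 q1 q2 q3 = 0 := by
      rcases hq with h3 | h3
      · rw [h3]
        ring
      · rw [h3, mul_zero]
    rw [h2, mul_zero, ev_prop A.ha hu2, ev_prop A.hb hu2] at hdis
    have h3 : (u ^ 54 * ev A.b w0.β) ^ 2 - (u ^ 36 * ev A.a w0.β) ^ 3 = u ^ 108 * (ev A.b w0.β ^ 2 - ev A.a w0.β ^ 3) := by
      ring
    rw [h3] at hdis
    rcases mul_eq_zero.1 hdis with h4 | h4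
    · norm_num at h4
    · rcases mul_eq_zero.1 h4 with h5 | h5
      · exact pow_ne_zero _ hu0 h5
      · exact hD (sub_eq_zero.1 h5)

end H25.EX
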