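import Pool.Agent.H77.PB.Def
import Pool.Agent.H77.AF.Mult

/-! # EX.ToPD : from the explicit form of rational equivalence on `W^k` to the point data `pw W` (complete, no sorry) -/

namespace H25.EX

open H68.BB H77.AF H77.PB

variable {K : Type} [Field K] {s : ℕ}

/-- the coordinate vectors of a tuple -/
def vl (W : ES.Wm K s) {M : ℕ} (P : Fin M → (pw W).X) : Fin M → ES.Pt s K := fun i => (P i).1

/-- the map of cycles -/
noncomputable def vc (W : ES.Wm K s) (M : ℕ) : Cyc (pw W) M →+ ES.Cyc M s K :=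
  Finsupp.mapDomain.addMonoidHom (vl W)

theorem vl_inj (W : ES.Wm K s) {M : ℕ} : Function.Injective (vl W (M := M)) := fun P Q h =>
  funext fun i => Subtype.ext (congrFun h i)

theorem vc_inj (W : ES.Wm K s) (M : ℕ) : Function.Injective (vc W M) := Finsupp.mapDomain_injective (vl_inj W)

theorem vc_single (W : ES.Wm K s) {M : ℕ} (P : Fin M → (pw W).X) (n : ℤ) :
    vc W M (Finsupp.single P n) = Finsupp.single (vl W P) n := Finsupp.mapDomain_single

theorem vc_cyc (W : ES.Wm K s) {M : ℕ} (c : Multiset (Fin M → (pw W).X)) :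
    vc W M (cyc (D := pw W) c) = (ES.cyc (c.map (vl W)) : ES.Cyc M s K) := by
  unfold cyc ES.cyc
  rw [map_multiset_sum, Multiset.map_map, Multiset.map_map]
  congr 1
  refine Multiset.map_congr rfl fun P _ => ?_
  rw [Function.comp_apply, Function.comp_apply, vc_single]
  rfl

private theorem lift_ms {α β : Type} {p : β → Prop} (v : α → β) (hv : ∀ b, p b → ∃ a, v a = b) (c : Multiset β)
    (hc : ∀ b ∈ c, p b) : ∃ c' : Multiset α, c'.map v = c := by
  induction c using Multiset.induction_on with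
  | empty => exact ⟨0, rfl⟩
  | cons b c ih =>
    obtain ⟨a, ha⟩ := hv b (hc b (Multiset.mem_cons_self _ _))
    obtain ⟨c', hc'⟩ := ih fun b hb => hc b (Multiset.mem_cons_of_mem hb)
    exact ⟨a ::ₘ c', by rw [Multiset.map_cons, ha, hc']⟩

theorem es_to_pd {W : ES.Wm K s} (hW : W.Ok) {M : ℕ} {z : ES.Cyc M s K} (hz : z ∈ ES.RatEq M W) :
    ∃ z' ∈ RatEq (pw W) M, vc W M z' = z := by
  unfold ES.RatEq at hz
  induction hz using AddSubgroup.closure_induction with
  | mem z hz =>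
    obtain ⟨S, π, π', c, c', hS, hG, hc, hc', rfl⟩ := hz
    have hon : ∀ {π : Place K (Om K)} {c : Multiset (Fin M → ES.Pt s K)}, Multiset.Rel (ES.SpT W π) S c →
        ∀ p ∈ c, ∀ i, ES.OnW W (p i) := by
      intro π c h p hp i
      obtain ⟨P, hP, hPp⟩ := Multiset.exists_mem_of_rel_of_mem (Multiset.rel_flip.2 h) hp
      exact ES.Sp_onW hW (hS P hP i) (hPp i)
    have hx : ∀ b : Fin M → ES.Pt s K, (∀ i, ES.OnW W (b i)) → ∃ a : Fin M → (pw W).X, vl W a = b := fun b hb =>
      ⟨fun i => ⟨b i, hb i⟩, rfl⟩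
    obtain ⟨c1, rfl⟩ := lift_ms (vl W) hx c (hon hc)
    obtain ⟨c2, rfl⟩ := lift_ms (vl W) hx c' (hon hc')
    obtain ⟨S1, rfl⟩ := lift_ms (fun (P : Fin M → (pw W).Y) i => (P i).1)
      (p := fun b : Fin M → ES.Pt s (Om K) => ∀ i, ES.OnW W (b i)) (fun b hb => ⟨fun i => ⟨b i, hb i⟩, rfl⟩) S
      (fun P hP i => hS P hP i)
    have hfib : ∀ {π : Place K (Om K)} {c : Multiset (Fin M → (pw W).X)},
        Multiset.Rel (ES.SpT W π) (S1.map fun (P : Fin M → (pw W).Y) i => (P i).1) (c.map (vl W)) →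
        Fibre (D := pw W) π S1 c := by
      intro π c h
      refine ⟨S1, 0, (add_zero _).symm, ?_, fun P hP => absurd hP (Multiset.notMem_zero P)⟩
      rw [Multiset.rel_map] at h
      exact h.mono fun P _ p _ hp i => hp i
    refine ⟨cyc (D := pw W) c1 - cyc (D := pw W) c2, AddSubgroup.subset_closure ⟨S1, π, π', c1, c2, ?_, hfib hc, hfib hc',
      rfl⟩, by rw [map_sub, vc_cyc, vc_cyc]⟩
    intro σ
    have hinj : Function.Injective (fun (P : Fin M → (pw W).Y) i => (P i).1) := fun P Q h =>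
      funext fun i => Subtype.ext (congrFun h i)
    apply Multiset.map_injective hinj
    have h1 := hG σ
    rw [Multiset.map_map] at h1 ⊢
    exact h1
  | zero => exact ⟨0, AddSubgroup.zero_mem _, map_zero _⟩
  | add x y _ _ hx hy =>
    obtain ⟨x', hx', rfl⟩ := hx
    obtain ⟨y', hy', rfl⟩ := hy
    exact ⟨x' + y', AddSubgroup.add_mem _ hx' hy', map_add _ _ _⟩
  | neg x _ hx =>
    obtain ⟨x', hx', rfl⟩ := hx
    exact ⟨-x', AddSubgroup.neg_mem _ hx', map_neg _ _⟩

/-- the form used below -/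
theorem to_pd {W : ES.Wm K s} (hW : W.Ok) {M : ℕ} {z' : Cyc (pw W) M} {N : ℕ} (hz : N • vc W M z' ∈ ES.RatEq M W) :
    N • z' ∈ RatEq (pw W) M := by
  obtain ⟨z1, h1, h2⟩ := es_to_pd hW hz
  rw [← map_nsmul] at h2
  rw [← vc_inj W M h2]
  exact h1

end H25.EX
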