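import Pool.Agent.H25.EX.PTr
import Pool.Agent.H25.EX.SpL
import Pool.Agent.H25.EX.ToPD

/-! # EX.Gam : the correspondence between the elliptic surface and the double plane satisfies the hypotheses of the transfer (assembly) -/

namespace H25.EX

open H25.DP H77.AF H77.PB
open H68.BB (Om Place Rd tt)

variable {K0 : Type} [Field K0] {f : MvPolynomial (Fin 3) K0}

/-- an element of `Om K` has finitely many conjugates -/
theorem conj_fin {K : Type} [Field K] (x : Om K) : (Set.range fun σ : Om K ≃ₐ[RatFunc K] Om K => σ x).Finite := by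
  have hx : IsIntegral (RatFunc K) x := (Algebra.IsAlgebraic.isAlgebraic x).isIntegral
  refine ((minpoly (RatFunc K) x).rootSet_finite (Om K)).subset ?_
  rintro _ ⟨σ, rfl⟩
  rw [Polynomial.mem_rootSet]
  refine ⟨minpoly.ne_zero hx, ?_⟩
  have h1 := Polynomial.aeval_algHom_apply (σ : Om K →ₐ[RatFunc K] Om K) x (minpoly (RatFunc K) x)
  rw [minpoly.aeval, map_zero] at h1
  exact h1

theorem xp_fin {K : Type} [Field K] [Algebra K0 K] (y : (xpd K f).Y) : (Set.range fun σ => (xpd K f).act σ y).Finite := by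
  let v : XP f (Om K) → (Fin 3 → Om K) × Om K := fun P => (P.p, P.z)
  have hv : Function.Injective v := fun P Q h => XP.ext (congrArg Prod.fst h) (congrArg Prod.snd h)
  refine Set.Finite.of_finite_image (f := v) ?_ hv.injOn
  refine ((Set.Finite.pi' fun i => conj_fin (XP.p y i)).prod (conj_fin (XP.z y))).subset ?_
  rintro _ ⟨_, ⟨σ, rfl⟩, rfl⟩
  exact ⟨fun i => ⟨σ, rfl⟩, ⟨σ, rfl⟩⟩

theorem lf_act {K : Type} [Field K] [Algebra K0 K] {w : ES.Pt 3 (Om K)} {R : XP f (Om K)}
    (σ : Om K ≃ₐ[RatFunc K] Om K) (h : Lf f w R) : Lf f (w.map σ) ((xpd K f).act σ R) := by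
  obtain ⟨r, ρ, hr, hρ, hc, hp, hz⟩ := h
  have hσ : Function.Injective σ := σ.injective
  refine ⟨r.map (σ.toAlgHom.restrictScalars K0), σ ρ, ?_, (map_ne_zero_iff σ hσ).2 hρ, ?_, ?_, ?_⟩
  · intro h0
    apply hr
    have h1 := cr_map (σ : Om K →+* Om K) r.d r.e
    have h2 : cr (fun i => σ (r.d i)) (fun i => σ (r.e i)) = 0 := h0
    funext i
    have h3 := congrFun h1 i
    have h4 : σ (cr r.d r.e i) = cr (fun i => σ (r.d i)) (fun i => σ (r.e i)) i := h3
    rw [h2] at h4
    exact (map_eq_zero_iff σ hσ).1 h4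
  · intro i
    have h1 := congrArg σ (hc i)
    rw [map_mul] at h1
    have h2 : lc (σ r.t) (-σ r.s) (fun i => σ (r.d i)) (fun i => σ (r.e i)) i = σ (lc r.t (-r.s) r.d r.e i) := by
      simp only [lc, map_add, map_mul, map_neg]
    exact h2.trans h1
  · intro i
    have h1 := congrArg σ (hp i)
    rw [map_add, map_mul, map_mul, map_pow] at h1
    exact h1
  · have h1 := congrArg σ hz
    rw [map_mul, map_add, map_mul, map_mul, map_mul, map_pow, map_pow] at h1
    exact h1

open Classical in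
/-- the first point of the pair attached to `p` -/
noncomputable def gp {K : Type} [Field K] [Algebra K0 K] (x0 : XP f K) (p : ES.Pt 3 K) : XP f K :=
  if h : ∃ R, Lf f p R then h.choose else x0

open Classical in
/-- the second point of the pair attached to `p` -/
noncomputable def gm {K : Type} [Field K] [Algebra K0 K] (x0 : XP f K) (p : ES.Pt 3 K) : XP f K :=
  if h : ∃ R, Lf f p R then h.choose.inv else x0

/-- the correspondence -/
def Gam (A : AB f) {K : Type} [Field K] [Algebra K0 K] (x0 : XP f K) (y : (pw (WE A K)).Y) (R S : (xpd K f).Y) : Prop :=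
  (Lf f y.1 (R : XP f (Om K)) ∧ S = XP.inv (R : XP f (Om K))) ∨
    ((∀ R0 : XP f (Om K), ¬ Lf f y.1 R0) ∧ R = (xpd K f).cst x0 ∧ S = (xpd K f).cst x0)

private theorem inv_inv' {F : Type} [Field F] [Algebra K0 F] (P : XP f F) : P.inv.inv = P := XP.ext rfl (neg_neg P.z)

/-- a good point specialising to a point with a lift has a lift -/
theorem lf_lift [IsAlgClosed K0] [CharZero K0] (A : AB f) (hf : Sm f) (h1 : MvPolynomial.eval ![1, 0, 0] f ≠ 0) {K : Type}
    [Field K] [IsAlgClosed K] [Algebra K0 K] {π : Place K (Om K)} {w : ES.Pt 3 (Om K)} {w0 : ES.Pt 3 K}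
    (hw : ES.OnW (WE A K) w) (hs : ES.Sp (WE A K) π w w0) {R0 : XP f K} (hR : Lf f w0 R0) : ∃ R : XP f (Om K), Lf f w R := by
  obtain ⟨hβ, hD⟩ := lf_good A hf.hom h1 hR
  have hcn : ∀ c : K0, Rd π.V π.φ (algebraMap K0 (Om K) c) (algebraMap K0 K c) := fun c => by
    rw [IsScalarTower.algebraMap_apply K0 K (Om K)]
    exact π.const _
  obtain ⟨hNZ, γ, hγ, hγβ, hγx, hγy⟩ := hs
  change ∀ i, Rd π.V π.φ (γ ^ 1 * w.β i) (w0.β i) at hγβ
  simp only [pow_one] at hγβ
  refine lf_ex A hf h1 (onE_iff.1 hw).2 ?_ ?_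
  · intro h0
    apply hβ
    funext i
    have h2 := hγβ i
    rw [h0, Pi.zero_apply, mul_zero] at h2
    exact h2.unique Rd.zero
  · intro h0
    apply hD
    have ha := rd_ev hcn A.a hγβ
    have hb := rd_ev hcn A.b hγβ
    rw [ev_smul A.ha] at ha
    rw [ev_smul A.hb] at hb
    have h2 := hb.pow 2
    have h3 : (γ ^ 54 * ev A.b w.β) ^ 2 = (γ ^ 36 * ev A.a w.β) ^ 3 := by
      linear_combination γ ^ 108 * h0
    rw [h3] at h2
    exact h2.unique (ha.pow 3)

theorem ptr_ok [IsAlgClosed K0] [CharZero K0] (A : AB f) (hf : Sm f) (h1 : MvPolynomial.eval ![1, 0, 0] f ≠ 0) {K : Type}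
    [Field K] [IsAlgClosed K] [Algebra K0 K] (x0 : XP f K) :
    PTr (pw (WE A K)) (xpd K f) (Gam A x0) (fun p => (gp x0 p.1 : XP f K)) (fun p => (gm x0 p.1 : XP f K)) where
  tot y := by
    by_cases h : ∃ R : XP f (Om K), Lf f y.1 R
    · obtain ⟨R, hR⟩ := h
      exact ⟨R, R.inv, Or.inl ⟨hR, rfl⟩⟩
    · push Not at h
      exact ⟨_, _, Or.inr ⟨h, rfl, rfl⟩⟩
  act σ y R S h := by
    rcases h with ⟨h2, rfl⟩ | ⟨h2, rfl, rfl⟩
    · refine Or.inl ⟨lf_act σ h2, ?_⟩
      refine XP.ext rfl ?_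
      change σ (-XP.z R) = -σ (XP.z R)
      rw [map_neg]
    · refine Or.inr ⟨fun R0 hR0 => ?_, (xpd K f).act_cst σ x0, (xpd K f).act_cst σ x0⟩
      have h3 := lf_act (K := K) σ.symm hR0
      refine h2 ((xpd K f).act σ.symm R0) ?_
      have h4 : ((((pw (WE A K)).act σ y).1 : ES.Pt 3 (Om K)).map σ.symm) = y.1 := by
        refine ES.Pt.ext ?_ ?_ ?_
        · funext i
          exact σ.symm_apply_apply _
        · exact σ.symm_apply_apply _
        · exact σ.symm_apply_apply _
      rw [h4] at h3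
      exact h3
  one y := rfl
  mul σ τ y := rfl
  one' y := rfl
  mul' σ τ y := rfl
  off π y := id
  fin y := xp_fin y
  prp π y := prp hf.hom π y
  spec π y R S p x x' h hyp hR hS := by
    have hcK : CharZero K := charZero_of_injective_algebraMap (algebraMap K0 K).injective
    classical
    rcases h with ⟨h2, rfl⟩ | ⟨h2, rfl, rfl⟩
    · -- lifted
      have hS' : (xpd K f).sp π R (XP.inv x') := by
        have h3 := sp_inv (K := K) (f := f) hS
        rwa [inv_inv'] at h3
      obtain ⟨c, hc, hc1, hc2⟩ := sp_uniq (K := K) (f := f) hR hS'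
      have h3 : (Finsupp.single (fun _ => XP.inv x) 1 - Finsupp.single (fun _ => x') 1 : Cyc (xpd K f) 1) ∈
          RatEq (xpd K f) 1 := by
        refine scale (c := c) hc (fun i => hc1 i) ?_
        have h4 : -x'.z = c ^ 3 * x.z := hc2
        change x'.z = c ^ 3 * (-x.z)
        linear_combination -h4
      have key : ((Finsupp.single (fun _ => x) 1 - Finsupp.single (fun _ => XP.inv x) 1) -
          (Finsupp.single (fun _ => gp x0 p.1) 1 - Finsupp.single (fun _ => gm x0 p.1) 1) : Cyc (xpd K f) 1) ∈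
          RatEq (xpd K f) 1 := by
        rcases spl A hf h1 y.2 hyp h2 hR with ⟨R0, hR0, h4⟩ | ⟨h4, h5⟩
        · have hex : ∃ R : XP f K, Lf f p.1 R := ⟨R0, hR0⟩
          have hgp : gp x0 p.1 = hex.choose := dif_pos hex
          have hgm : gm x0 p.1 = hex.choose.inv := dif_pos hex
          rw [hgp, hgm]
          have h6 := lf_u A hf.hom h1 (onE_iff.1 p.2).2 hR0 hex.choose_spec
          have h7 := AddSubgroup.add_mem _ h4 h6
          have h8 : ∀ a b c : (Fin 1 → XP f K) →₀ ℤ, a - b + (b - c) = a - c := fun a b c => sub_add_sub_cancel a b c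
          exact h8 _ _ _ ▸ h7
        · have hex : ¬ ∃ R : XP f K, Lf f p.1 R := fun ⟨R0, hR0⟩ => h4 R0 hR0
          have hgp : gp x0 p.1 = x0 := dif_neg hex
          have hgm : gm x0 p.1 = x0 := dif_neg hex
          rw [hgp, hgm]
          have h8 : ∀ a b : (Fin 1 → XP f K) →₀ ℤ, a - (b - b) = a := fun a b => by rw [sub_self, sub_zero]
          exact (h8 _ _).symm ▸ h5
      apply le_tor
      have h7 := AddSubgroup.add_mem _ key h3
      have h8 : ∀ a b c d : (Fin 1 → XP f K) →₀ ℤ, a - b - c + (b - d) = a - d - c := fun a b c d => by abel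
      exact h8 _ _ _ _ ▸ h7
    · -- no lift
      have hex : ¬ ∃ R : XP f K, Lf f p.1 R := fun ⟨R0, hR0⟩ => by
        obtain ⟨R, hR'⟩ := lf_lift A hf h1 y.2 hyp hR0
        exact h2 R hR'
      have hgp : gp x0 p.1 = x0 := dif_neg hex
      have hgm : gm x0 p.1 = x0 := dif_neg hex
      rw [hgp, hgm]
      obtain ⟨c, hc, hc1, hc2⟩ := sp_uniq (K := K) (f := f) hR hS
      have h3 := scale hc hc1 hc2
      apply le_tor
      have h8 : ∀ a b : (Fin 1 → XP f K) →₀ ℤ, a - (b - b) = a := fun a b => by rw [sub_self, sub_zero]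
      exact (h8 _ _).symm ▸ h3

end H25.EX
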