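import Pool.Agent.H25.EX.Def
import Pool.Agent.H34.ES.Def

/-! # EX.LfD : the elliptic surface over the sextic and the lifts of its points to the double plane (definitions only, no sorry)

`WE A K` : `y^2 = x^3 - 3 a x - 2 b` over the curve `f = 0`, weights `1, 18, 27` (`n = 9`), base changed to `K`.
`Lf f w R`: the point `R` of the double plane is the image of the point `w` under a frame over the base point of `w`. -/

namespace H25.EX

open H25.DP

variable {K0 : Type} [Field K0] {f : MvPolynomial (Fin 3) K0}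

/-- the Weierstrass model over `C = {f = 0}`, over the field `K` -/
noncomputable def WE (A : AB f) (K : Type) [Field K] [Algebra K0 K] : ES.Wm K 3 where
  v := fun _ => 1
  n := 9
  I := {MvPolynomial.map (algebraMap K0 K) f}
  a := MvPolynomial.map (algebraMap K0 K) A.a
  b := MvPolynomial.map (algebraMap K0 K) A.b

/-- the equation of `W` at a point -/
def OnE (A : AB f) {F : Type} [Field F] [Algebra K0 F] (w : ES.Pt 3 F) : Prop :=
  ev f w.β = 0 ∧ w.y ^ 2 = w.x ^ 3 - 3 * ev A.a w.β * w.x - 2 * ev A.b w.β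

/-- `R` is the image of `w` under a frame `r` over the base point of `w` -/
def Lf (f : MvPolynomial (Fin 3) K0) {F : Type} [Field F] [Algebra K0 F] (w : ES.Pt 3 F) (R : XP f F) : Prop :=
  ∃ (r : Frm f F) (ρ : F), cr r.d r.e ≠ 0 ∧ ρ ≠ 0 ∧ (∀ i, lc r.t (-r.s) r.d r.e i = ρ * w.β i) ∧
    (∀ i, R.p i = ρ ^ 18 * w.x * r.d i + r.e i) ∧ R.z = (r.s * (ρ ^ 18 * w.x) + r.t) * (ρ ^ 27 * w.y)

theorem es_ev_map {K F : Type} [Field K] [Algebra K0 K] [Field F] [Algebra K F] [Algebra K0 F] [IsScalarTower K0 K F]
    (p : MvPolynomial (Fin 3) K0) (c : Fin 3 → F) : ES.ev (MvPolynomial.map (algebraMap K0 K) p) c = ev p c := by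
  unfold ES.ev ev
  rw [MvPolynomial.aeval_map_algebraMap]

theorem onE_iff {A : AB f} {K F : Type} [Field K] [Algebra K0 K] [Field F] [Algebra K F] [Algebra K0 F]
    [IsScalarTower K0 K F] {w : ES.Pt 3 F} : ES.OnW (WE A K) w ↔ w.NZ ∧ OnE A w := by
  unfold ES.OnW OnE WE
  refine and_congr_right fun _ => and_congr ?_ ?_
  · constructor
    · intro h
      have h1 := h _ (Set.mem_singleton _)
      rwa [es_ev_map] at h1
    · intro h p hp
      rw [Set.mem_singleton_iff] at hp
      rw [hp, es_ev_map]
      exact h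
  · rw [es_ev_map, es_ev_map]

theorem WE_ok (A : AB f) (hf : f.IsHomogeneous 6) (K : Type) [Field K] [Algebra K0 K] : (WE A K).Ok where
  v := fun _ => Nat.one_pos
  n := by
    change 0 < 9
    norm_num
  I := by
    intro p hp
    refine ⟨6, by norm_num, ?_⟩
    have h : p = MvPolynomial.map (algebraMap K0 K) f := hp
    rw [h]
    exact hf.map (algebraMap K0 K)
  a := A.ha.map (algebraMap K0 K)
  b := A.hb.map (algebraMap K0 K)

end H25.EX
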