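import Pool.Agent.H25.EX.AutQ
import Pool.Agent.H25.EX.Col
import Pool.Agent.H25.EX.LfD

/-! # EX.WD : the class of the image of a point does not depend on the frame (about 200 lines; given `aut_q`, `aut_q0`, `col`, `scale`, `inv_rat`)

Two frames `r`, `r'` over proportional points of tangency: `c' = ρ c`, `c = t d - s e`.  `cr d e = grad f c`, `cr d' e' = grad f (ρ c) = ρ^5 grad f c` (`grad_smul`), so both lines are the same: `d' = α d + β e`, `e' = γ d + δ e` (all four: `d'`, `e'` are orthogonal to `cr d' e' = ρ^5 cr d e`, so they are combinations of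
`d`, `e`: linear algebra as in `lb_comb` of `Pool/Agent/H25/DP/LinB.lean`), `cr d' e' = (α δ - β γ) cr d e`, so `α δ - β γ = ρ^5`.
`ρ c = c' = t' d' - s' e'` gives `t' α - s' γ = ρ t`, `t' β - s' δ = - ρ s` (`d`, `e` independent), so `ρ^5 s' = ρ (s α + t β)`, `ρ^5 t' = ρ (s γ + t δ)`, `s' = ρ^(-4) (s α + t β)`, `t' = ρ^(-4) (s γ + t δ)`.
`lin_fun` for `r` and `r'`: for all `x, y`: `(s' x + t' y)^2 q'(x, y) = f(x d' + y e') = (s (α x + γ y) + t (β x + δ y))^2 q(α x + γ y, β x + δ y)`, `q(x,y) = y (x^3 - 3 a x y^2 - 2 b y^3)`; cancel the linear form (nonzero for all but finitely many `(x, y)`; both sides are polynomials):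
`q'(x, y) = ρ^8 q(α x + γ y, β x + δ y)` for all `x, y`.
The point of tangency: `f(c) = 0`, `a' = ρ^36 a`, `b' = ρ^54 b` is a hypothesis (`ha`, `hb`).  Put `A = α ρ^18`, `B = γ`, `C = β ρ^18`, `D = δ`: `q(A x + B y, C x + D y) = ρ^(-8) q'(ρ^18 x, y) = ρ^46 q(x, y)` and `A D - B C = ρ^23`.
Case `β = 0`: `aut_q0` (with `a' := a`, `b' := b`, `k = ρ^46`): `γ = 0`, `ρ^46 = A^3 D`, `A D = ρ^23`, so `A^2 = ρ^23 = A D`, `D = A`: `R'.p = ρ^18 x α d + δ e = δ (x d + e)`, `R'.z = ρ^(-4) δ (s x + t) ρ^27 y = ρ^23 δ (s x + t) y = δ^3 (s x + t) y`: `scale`.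
Case `β ≠ 0`: `aut_q`: `D = - A`, with `e0 = A / C`: `e0^3 - 3 a e0 - 2 b = 0`.  If `y = 0`: `R.z = 0`, `R'.z = 0`, `R.inv = R`, `R'.inv = R'`: the difference is `0`.  If `y ≠ 0`: `x ≠ e0` (else `y^2 = 0`).  `R'.p = (A x + B) d + (C x + D) e = C (x - e0) (x'' d + e)`,
`x'' = (A x + B)/(C x - A) = (e0 x + 2 e0^2 - 3 a)/(x - e0)` (`B C = 2 A^2 - 3 a C^2`); `R'.z = ρ^(-4) (C x + D) (s x'' + t) ρ^27 y = (C x + D)^3 (s x'' + t) y''`, `y'' = ρ^23 y / (C x + D)^2 = - 3 (e0^2 - a) y / (x - e0)^2` (`ρ^23 = A D - B C = - 3 (A^2 - a C^2)`).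
So `R'` is proportional to the point `P''` with the coordinates `(x'', y'')` and `P''.inv = P3` of `col`: `single R + single P3 - single R.inv - single P3.inv ∈ RatEq`, that is `(R - R.inv) - (P'' - P''.inv)`; `scale` and `inv_rat` for `R'` and `P''`. -/

namespace H25.EX

open H25.DP H77.AF
open H68.BB (Om Place Rd tt)

variable {K0 : Type} [Field K0] {f : MvPolynomial (Fin 3) K0}

private theorem wd_comb {K : Type} [Field K] {c v z : Fin 3 → K} (hcv : cr c v ≠ 0)
    (hz : ∑ i, z i * cr c v i = 0) : ∃ x y : K, ∀ i, z i = x * c i + y * v i := by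
  obtain ⟨j, hj⟩ := Function.ne_iff.1 hcv
  rw [Pi.zero_apply] at hj
  have hd : z 0 * cr c v 0 + z 1 * cr c v 1 + z 2 * cr c v 2 = 0 := by
    rw [Fin.sum_univ_three] at hz
    exact hz
  simp only [cr, Matrix.cons_val_zero, Matrix.cons_val_one, Matrix.cons_val] at hd
  refine ⟨cr z v j / cr c v j, cr c z j / cr c v j, ?_⟩
  have key : ∀ i, cr c v j * z i = cr z v j * c i + cr c z j * v i := by
    intro i
    fin_cases j <;> fin_cases i <;>
      simp only [cr, Fin.zero_eta, Fin.mk_one, Fin.reduceFinMk, Matrix.cons_val_zero,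
        Matrix.cons_val_one, Matrix.cons_val] <;>
      first
        | ring1
        | linear_combination hd
  intro i
  have h := key i
  field_simp
  linear_combination h

private theorem wd_indep {K : Type} [Field K] {c v : Fin 3 → K} (hcv : cr c v ≠ 0) {x y : K}
    (h : ∀ i, x * c i + y * v i = 0) : x = 0 ∧ y = 0 := by
  obtain ⟨j, hj⟩ := Function.ne_iff.1 hcv
  rw [Pi.zero_apply] at hj
  have h0 := h 0
  have h1 := h 1
  have h2 := h 2
  constructor
  · refine (mul_eq_zero.1 (?_ : x * cr c v j = 0)).resolve_right hj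
    fin_cases j <;>
      simp only [cr, Fin.zero_eta, Fin.mk_one, Fin.reduceFinMk, Matrix.cons_val_zero,
        Matrix.cons_val_one, Matrix.cons_val]
    · linear_combination v 2 * h1 - v 1 * h2
    · linear_combination v 0 * h2 - v 2 * h0
    · linear_combination v 1 * h0 - v 0 * h1
  · refine (mul_eq_zero.1 (?_ : y * cr c v j = 0)).resolve_right hj
    fin_cases j <;>
      simp only [cr, Fin.zero_eta, Fin.mk_one, Fin.reduceFinMk, Matrix.cons_val_zero,
        Matrix.cons_val_one, Matrix.cons_val]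
    · linear_combination c 1 * h2 - c 2 * h1
    · linear_combination c 2 * h0 - c 0 * h2
    · linear_combination c 0 * h1 - c 1 * h0

open Polynomial in
/-- cancelling a linear form along a line -/
private theorem wd_cancel {K : Type} [Field K] [Infinite K] (P : K[X]) {l0 l1 : K} (h : l1 ≠ 0)
    (H : ∀ T : K, (l0 + l1 * T) ^ 2 * P.eval T = 0) : P.eval 0 = 0 := by
  have h1 : (C l0 + C l1 * X) ^ 2 * P = 0 := by
    refine Polynomial.funext fun T => ?_
    simp only [eval_mul, eval_pow, eval_add, eval_C, eval_X, eval_zero]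
    exact H T
  have h2 : (C l0 + C l1 * X : K[X]) ≠ 0 := by
    intro h3
    have h4 := congrArg (fun q : K[X] => q.coeff 1) h3
    simp only [coeff_add, coeff_C_mul, coeff_X_one, coeff_zero, mul_one] at h4
    rw [coeff_C_of_ne_zero one_ne_zero, zero_add] at h4
    exact h h4
  rw [(mul_eq_zero.1 h1).resolve_left (pow_ne_zero 2 h2), eval_zero]

open Polynomial in
/-- cancelling the square of a nonzero linear form -/
private theorem wd_quar {K : Type} [Field K] [Infinite K] {s t a b a' b' α β γ δ k : K}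
    (hst : s ≠ 0 ∨ t ≠ 0)
    (H : ∀ x y : K, (s * x + t * y) ^ 2 * (quar 1 0 (-(3 * a')) (-(2 * b')) x y -
      k * quar 1 0 (-(3 * a)) (-(2 * b)) (α * x + γ * y) (β * x + δ * y)) = 0) (x y : K) :
    quar 1 0 (-(3 * a')) (-(2 * b')) x y =
      k * quar 1 0 (-(3 * a)) (-(2 * b)) (α * x + γ * y) (β * x + δ * y) := by
  obtain ⟨x1, y1, h1⟩ : ∃ x1 y1 : K, s * x1 + t * y1 ≠ 0 := by
    rcases hst with h | h
    · exact ⟨1, 0, by rwa [mul_one, mul_zero, add_zero]⟩
    · exact ⟨0, 1, by rwa [mul_one, mul_zero, zero_add]⟩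
  have h2 := wd_cancel (quar 1 0 (C (-(3 * a'))) (C (-(2 * b'))) (C x + C x1 * X) (C y + C y1 * X) -
      C k * quar 1 0 (C (-(3 * a))) (C (-(2 * b)))
        (C α * (C x + C x1 * X) + C γ * (C y + C y1 * X))
        (C β * (C x + C x1 * X) + C δ * (C y + C y1 * X)) : K[X]) (l0 := s * x + t * y) h1 (by
    intro T
    have h3 := H (x + x1 * T) (y + y1 * T)
    unfold quar at h3 ⊢
    simp only [eval_mul, eval_pow, eval_add, eval_sub, eval_C, eval_X, eval_one, eval_zero]
    linear_combination h3)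
  unfold quar at h2 ⊢
  simp only [eval_mul, eval_pow, eval_add, eval_sub, eval_C, eval_X, eval_one, eval_zero] at h2
  linear_combination h2

theorem wd (hf : f.IsHomogeneous 6) {K : Type} [Field K] [IsAlgClosed K] [CharZero K] [Algebra K0 K] (r r' : Frm f K)
    (hr : cr r.d r.e ≠ 0) (hr' : cr r'.d r'.e ≠ 0) {ρ x y : K} (hρ : ρ ≠ 0)
    (hc : ∀ i, lc r'.t (-r'.s) r'.d r'.e i = ρ * lc r.t (-r.s) r.d r.e i) (ha : r'.a = ρ ^ 36 * r.a) (hb : r'.b = ρ ^ 54 * r.b)
    (hxy : y ^ 2 = x ^ 3 - 3 * r.a * x - 2 * r.b) {R R' : XP f K} (hR : ∀ i, R.p i = x * r.d i + r.e i)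
    (hRz : R.z = (r.s * x + r.t) * y) (hR' : ∀ i, R'.p i = ρ ^ 18 * x * r'.d i + r'.e i)
    (hRz' : R'.z = (r'.s * (ρ ^ 18 * x) + r'.t) * (ρ ^ 27 * y)) :
    ((Finsupp.single (fun _ => R) 1 - Finsupp.single (fun _ => R.inv) 1) -
      (Finsupp.single (fun _ => R') 1 - Finsupp.single (fun _ => R'.inv) 1) : Cyc (xpd K f) 1) ∈ RatEq (xpd K f) 1 := by
  classical
  haveI : Infinite K := IsAlgClosed.instInfinite
  have hf' : f.IsHomogeneous (5 + 1) := hf
  -- both lines are the same
  have hcr : ∀ i, cr r'.d r'.e i = ρ ^ 5 * cr r.d r.e i := by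
    intro i
    have h1 : lc r'.t (-r'.s) r'.d r'.e = fun j => ρ * lc r.t (-r.s) r.d r.e j := funext hc
    rw [← r'.grd, h1, grad_smul hf', r.grd]
  have hd0 : ∑ i, r'.d i * cr r.d r.e i = 0 := by
    have h1 : ρ ^ 5 * ∑ i, r'.d i * cr r.d r.e i = 0 := by
      rw [Finset.mul_sum]
      have h2 : ∀ i, ρ ^ 5 * (r'.d i * cr r.d r.e i) = r'.d i * cr r'.d r'.e i := fun i => by
        rw [hcr i]
        ring
      rw [Finset.sum_congr rfl fun i _ => h2 i, Fin.sum_univ_three]
      simp only [cr, Matrix.cons_val_zero, Matrix.cons_val_one, Matrix.cons_val]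
      ring
    exact (mul_eq_zero.1 h1).resolve_left (pow_ne_zero 5 hρ)
  have he0 : ∑ i, r'.e i * cr r.d r.e i = 0 := by
    have h1 : ρ ^ 5 * ∑ i, r'.e i * cr r.d r.e i = 0 := by
      rw [Finset.mul_sum]
      have h2 : ∀ i, ρ ^ 5 * (r'.e i * cr r.d r.e i) = r'.e i * cr r'.d r'.e i := fun i => by
        rw [hcr i]
        ring
      rw [Finset.sum_congr rfl fun i _ => h2 i, Fin.sum_univ_three]
      simp only [cr, Matrix.cons_val_zero, Matrix.cons_val_one, Matrix.cons_val]
      ring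
    exact (mul_eq_zero.1 h1).resolve_left (pow_ne_zero 5 hρ)
  obtain ⟨α, β, hd⟩ := wd_comb hr hd0
  obtain ⟨γ, δ, he⟩ := wd_comb hr he0
  have hdet : α * δ - β * γ = ρ ^ 5 := by
    obtain ⟨j, hj⟩ := Function.ne_iff.1 hr
    rw [Pi.zero_apply] at hj
    have h1 : cr r'.d r'.e j = (α * δ - β * γ) * cr r.d r.e j := by
      fin_cases j <;>
        simp only [cr, Fin.zero_eta, Fin.mk_one, Fin.reduceFinMk, Matrix.cons_val_zero,
          Matrix.cons_val_one, Matrix.cons_val, hd, he] <;> ring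
    rw [hcr j] at h1
    exact (mul_right_cancel₀ hj h1).symm
  -- the points of tangency
  have hst : r'.t * α - r'.s * γ = ρ * r.t ∧ r'.t * β - r'.s * δ = -(ρ * r.s) := by
    have h1 : ∀ i, (r'.t * α - r'.s * γ - ρ * r.t) * r.d i +
        (r'.t * β - r'.s * δ + ρ * r.s) * r.e i = 0 := by
      intro i
      have h2 := hc i
      simp only [lc] at h2
      rw [hd i, he i] at h2
      linear_combination h2
    obtain ⟨h3, h4⟩ := wd_indep hr h1
    exact ⟨by linear_combination h3, by linear_combination h4⟩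
  obtain ⟨hst1, hst2⟩ := hst
  have hs' : ρ ^ 4 * r'.s = r.s * α + r.t * β := by
    apply mul_left_cancel₀ hρ
    linear_combination (-r'.s) * hdet + β * hst1 - α * hst2
  have ht' : ρ ^ 4 * r'.t = r.s * γ + r.t * δ := by
    apply mul_left_cancel₀ hρ
    linear_combination (-r'.t) * hdet + δ * hst1 - γ * hst2
  have hne : r'.s ≠ 0 ∨ r'.t ≠ 0 := by
    by_contra h
    push Not at h
    obtain ⟨h1, h2⟩ := h
    apply hr'
    rw [← r'.grd]
    have h3 : lc r'.t (-r'.s) r'.d r'.e = fun i => (0 : K) * r'.d i := by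
      funext i
      simp only [lc, h1, h2, neg_zero, zero_mul, add_zero]
    funext i
    rw [h3, grad_smul hf', zero_pow (by norm_num), zero_mul]
    rfl
  -- the quartics
  have HQ : ∀ x y : K, quar 1 0 (-(3 * r'.a)) (-(2 * r'.b)) x y =
      ρ ^ 8 * quar 1 0 (-(3 * r.a)) (-(2 * r.b)) (α * x + γ * y) (β * x + δ * y) := by
    refine wd_quar hne fun x y => ?_
    have h1 := lin_fun hf r'.line x y
    have h2 := lin_fun hf r.line (α * x + γ * y) (β * x + δ * y)
    have h3 : lc x y r'.d r'.e = lc (α * x + γ * y) (β * x + δ * y) r.d r.e := by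
      funext i
      simp only [lc]
      rw [hd i, he i]
      ring
    rw [h3, h2] at h1
    have h4 : r.s * (α * x + γ * y) + r.t * (β * x + δ * y) = ρ ^ 4 * (r'.s * x + r'.t * y) := by
      linear_combination (-x) * hs' - y * ht'
    rw [h4] at h1
    linear_combination -h1
  set A := α * ρ ^ 18 with hA
  set C := β * ρ ^ 18 with hC
  have hAD : A * δ - γ * C = ρ ^ 23 := by
    rw [hA, hC]
    linear_combination ρ ^ 18 * hdet
  have HA : ∀ x y : K, (C * x + δ * y) * ((A * x + γ * y) ^ 3 -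
      3 * r.a * (A * x + γ * y) * (C * x + δ * y) ^ 2 - 2 * r.b * (C * x + δ * y) ^ 3) =
      ρ ^ 46 * (y * (x ^ 3 - 3 * r.a * x * y ^ 2 - 2 * r.b * y ^ 3)) := by
    intro x y
    apply mul_left_cancel₀ (pow_ne_zero 8 hρ)
    have h1 := HQ (ρ ^ 18 * x) y
    rw [ha, hb] at h1
    unfold quar at h1
    rw [hA, hC]
    linear_combination -h1
  -- the coordinates of `R'`
  have hRp : ∀ i, R'.p i = (A * x + γ) * r.d i + (C * x + δ) * r.e i := by
    intro i
    rw [hR' i, hd i, he i, hA, hC]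
    ring
  have hRz1 : R'.z = ρ ^ 23 * ((r.s * (A * x + γ) + r.t * (C * x + δ)) * y) := by
    apply mul_left_cancel₀ (pow_ne_zero 4 hρ)
    rw [hRz', hA, hC]
    linear_combination (ρ ^ 45 * x * y) * hs' + (ρ ^ 27 * y) * ht'
  have hρ23 : ρ ^ 23 ≠ 0 := pow_ne_zero 23 hρ
  by_cases hβ : β = 0
  · -- the same root at infinity
    have hC0 : C = 0 := by
      rw [hC, hβ, zero_mul]
    rw [hC0, mul_zero, sub_zero] at hAD
    have hA0 : A ≠ 0 := fun h => hρ23 (by rw [← hAD, h, zero_mul])
    have hD0 : δ ≠ 0 := fun h => hρ23 (by rw [← hAD, h, mul_zero])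
    obtain ⟨hB0, hk⟩ := aut_q0 (a := r.a) (b := r.b) (a' := r.a) (b' := r.b) (k := ρ ^ 46)
      (B := γ) hA0 hD0 (fun x y => by
        have h1 := HA x y
        rw [hC0] at h1
        linear_combination h1)
    have hAD2 : δ = A := by
      apply mul_left_cancel₀ (mul_ne_zero (pow_ne_zero 2 hA0) hD0)
      linear_combination hk + (A * δ + ρ ^ 23) * hAD
    have h1 := scale (P := R) (P' := R') (f := f) hD0 (fun i => by
      rw [hRp i, hR i, hC0, hB0, ← hAD2]
      ring) (by
      rw [hRz1, hRz, hC0, hB0, ← hAD, ← hAD2]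
      ring)
    have h2 := inv_rat h1
    have h3 := sub_mem h1 h2
    convert h3 using 1
    abel
  · have hC0 : C ≠ 0 := mul_ne_zero hβ (pow_ne_zero 18 hρ)
    obtain ⟨hD, hBC, hdel, hroot⟩ := aut_q (a := r.a) (b := r.b) (A := A) (B := γ) (D := δ) hC0
      (by rw [hAD]; exact hρ23) (fun x y => by
        rw [hAD, HA x y]
        ring)
    by_cases hy : y = 0
    · have h1 : R.inv = R := XP.ext rfl (by
        change -R.z = R.z
        rw [hRz, hy, mul_zero, neg_zero])
      have h2 : R'.inv = R' := XP.ext rfl (by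
        change -R'.z = R'.z
        rw [hRz', hy, mul_zero, mul_zero, neg_zero])
      rw [h1, h2]
      convert zero_mem (RatEq (xpd K f) 1) using 1
      abel
    · set e0 := A / C with he0'
      have hAe : A = e0 * C := by
        rw [he0']
        field_simp
      have hre : e0 ^ 3 - 3 * r.a * e0 - 2 * r.b = 0 := by
        apply mul_left_cancel₀ (pow_ne_zero 3 hC0)
        rw [hAe] at hroot
        linear_combination hroot
      have hxe : x ≠ e0 := by
        intro h
        apply hy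
        rw [h] at hxy
        rw [hre] at hxy
        exact pow_eq_zero_iff (two_ne_zero) |>.1 hxy
      have hxe' : x - e0 ≠ 0 := sub_ne_zero.2 hxe
      have hm : C * x + δ = C * (x - e0) := by
        rw [hD, hAe]
        ring
      have hm0 : C * x + δ ≠ 0 := by
        rw [hm]
        exact mul_ne_zero hC0 hxe'
      set m := C * x + δ with hmdef
      set x3 := (e0 * x + 2 * e0 ^ 2 - 3 * r.a) / (x - e0) with hx3
      set y3 := 3 * (e0 ^ 2 - r.a) * y / (x - e0) ^ 2 with hy3
      have hAx : A * x + γ = m * x3 := by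
        rw [hm, hx3]
        field_simp
        apply mul_left_cancel₀ hC0
        rw [hAe] at hBC ⊢
        linear_combination hBC
      have hy3' : ρ ^ 23 * y = -(m ^ 2 * y3) := by
        rw [← hAD, hdel, hm, hy3, hAe]
        field_simp
      let P3 : XP f K :=
        { p := fun i => m⁻¹ * R'.p i
          z := -((m⁻¹) ^ 3 * R'.z)
          ne := fun h => R'.ne (by
            funext i
            have h1 := congrFun h i
            rw [Pi.zero_apply, mul_eq_zero] at h1
            exact h1.resolve_left (inv_ne_zero hm0))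
          eq := by
            rw [ev_smul hf, ← R'.eq]
            ring }
      have hP3 : ∀ i, P3.p i = x3 * r.d i + r.e i := by
        intro i
        change m⁻¹ * R'.p i = _
        rw [hRp i, hAx]
        field_simp
      have hP3z : P3.z = (r.s * x3 + r.t) * y3 := by
        change -((m⁻¹) ^ 3 * R'.z) = _
        have h1 : R'.z = -(m ^ 3 * ((r.s * x3 + r.t) * y3)) := by
          rw [hRz1, hAx]
          linear_combination (m * (r.s * x3 + r.t)) * hy3'
        rw [h1]
        field_simp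
      have hcol := col hf r hr hre hxy hxe hx3 hy3 hR hRz hP3 hP3z
      have h1 := scale (P := P3.inv) (P' := R') (f := f) hm0 (fun i => by
        change R'.p i = m * (m⁻¹ * R'.p i)
        rw [mul_inv_cancel_left₀ hm0]) (by
        change R'.z = m ^ 3 * -(-((m⁻¹) ^ 3 * R'.z))
        rw [neg_neg, inv_pow, mul_inv_cancel_left₀ (pow_ne_zero 3 hm0)])
      have h2 := inv_rat h1
      have h3 : P3.inv.inv = P3 := XP.ext rfl (neg_neg P3.z)
      rw [h3] at h2
      have h4 := sub_mem (add_mem hcol h1) h2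
      convert h4 using 1
      abel

end H25.EX
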