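import Pool.Agent.H25.EX.AbV
import Pool.Agent.H25.EX.WD

/-! # EX.LfU : the class of a lift does not depend on the frame; which points of `W` have a lift (assembly) -/

namespace H25.EX

open H25.DP H77.AF

variable {K0 : Type} [Field K0] {f : MvPolynomial (Fin 3) K0}

/-- values at proportional vectors -/
theorem ev_prop {p : MvPolynomial (Fin 3) K0} {n : ℕ} (hp : p.IsHomogeneous n) {F : Type} [Field F] [Algebra K0 F]
    {c c' : Fin 3 → F} {ρ : F} (h : ∀ i, c' i = ρ * c i) : ev p c' = ρ ^ n * ev p c := by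
  have h1 : c' = fun i => ρ * c i := funext h
  rw [h1, ev_smul hp]

/-- the class of a lift of a point does not depend on the lift -/
theorem lf_u [CharZero K0] (A : AB f) (hf : f.IsHomogeneous 6) (h1 : MvPolynomial.eval ![1, 0, 0] f ≠ 0) {K : Type}
    [Field K] [IsAlgClosed K] [Algebra K0 K] {w : ES.Pt 3 K} (hw : OnE A w) {R R' : XP f K} (hR : Lf f w R)
    (hR' : Lf f w R') :
    ((Finsupp.single (fun _ => R) 1 - Finsupp.single (fun _ => R.inv) 1) -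
      (Finsupp.single (fun _ => R') 1 - Finsupp.single (fun _ => R'.inv) 1) : Cyc (xpd K f) 1) ∈ RatEq (xpd K f) 1 := by
  have hchar : CharZero K := charZero_of_injective_algebraMap (algebraMap K0 K).injective
  obtain ⟨r, ρ, hr, hρ, hc, hp, hz⟩ := hR
  obtain ⟨r', ρ', hr', hρ', hc', hp', hz'⟩ := hR'
  obtain ⟨-, -, ea, eb⟩ := ab_frm A hf h1 r hr
  obtain ⟨-, -, ea', eb'⟩ := ab_frm A hf h1 r' hr'
  rw [ev_prop A.ha hc] at ea
  rw [ev_prop A.hb hc] at eb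
  rw [ev_prop A.ha hc'] at ea'
  rw [ev_prop A.hb hc'] at eb'
  obtain ⟨-, hxy⟩ := hw
  refine wd hf r r' hr hr' (ρ := ρ' / ρ) (x := ρ ^ 18 * w.x) (y := ρ ^ 27 * w.y) (div_ne_zero hρ' hρ) ?_ ?_ ?_ ?_ hp hz
    ?_ ?_
  · intro i
    rw [hc, hc', ← mul_assoc, div_mul_cancel₀ _ hρ]
  · rw [← ea, ← ea', div_pow, ← mul_assoc, div_mul_cancel₀ _ (pow_ne_zero _ hρ)]
  · rw [← eb, ← eb', div_pow, ← mul_assoc, div_mul_cancel₀ _ (pow_ne_zero _ hρ)]
  · rw [← ea, ← eb]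
    linear_combination ρ ^ 54 * hxy
  · intro i
    rw [hp', div_pow, ← mul_assoc, div_mul_cancel₀ _ (pow_ne_zero _ hρ)]
  · rw [hz', div_pow, div_pow, ← mul_assoc (ρ' ^ 18 / ρ ^ 18), div_mul_cancel₀ _ (pow_ne_zero _ hρ),
      ← mul_assoc (ρ' ^ 27 / ρ ^ 27), div_mul_cancel₀ _ (pow_ne_zero _ hρ)]

/-- points with a lift -/
theorem lf_good [CharZero K0] (A : AB f) (hf : f.IsHomogeneous 6) (h1 : MvPolynomial.eval ![1, 0, 0] f ≠ 0) {F : Type}
    [Field F] [Algebra K0 F] {w : ES.Pt 3 F} {R : XP f F} (h : Lf f w R) :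
    w.β ≠ 0 ∧ ev A.b w.β ^ 2 ≠ ev A.a w.β ^ 3 := by
  obtain ⟨r, ρ, hr, hρ, hc, -, -⟩ := h
  obtain ⟨hc0, -, ea, eb⟩ := ab_frm A hf h1 r hr
  refine ⟨?_, ?_⟩
  · intro h0
    apply hc0
    funext i
    rw [hc, h0]
    simp
  · intro h0
    have h2 := r.disc
    rw [← ea, ← eb, ev_prop A.ha hc, ev_prop A.hb hc] at h2
    have h3 : (ρ ^ 54 * ev A.b w.β) ^ 2 - (ρ ^ 36 * ev A.a w.β) ^ 3 = ρ ^ 108 * (ev A.b w.β ^ 2 - ev A.a w.β ^ 3) := by
      ring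
    rw [h3, h0, sub_self, mul_zero] at h2
    exact zero_ne_one h2

/-- lifts exist over an algebraically closed field -/
theorem lf_ex [IsAlgClosed K0] [CharZero K0] (A : AB f) (hf : Sm f) (h1 : MvPolynomial.eval ![1, 0, 0] f ≠ 0) {K : Type}
    [Field K] [IsAlgClosed K] [Algebra K0 K] {w : ES.Pt 3 K} (hw : OnE A w) (hβ : w.β ≠ 0)
    (hD : ev A.b w.β ^ 2 ≠ ev A.a w.β ^ 3) : ∃ R : XP f K, Lf f w R := by
  obtain ⟨r, ρ, hr, hρ, hc⟩ := fr_exists A hf h1 hβ hw.1 hD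
  obtain ⟨-, -, ea, eb⟩ := ab_frm A hf.hom h1 r hr
  rw [ev_prop A.ha hc] at ea
  rw [ev_prop A.hb hc] at eb
  refine ⟨⟨lc (ρ ^ 18 * w.x) 1 r.d r.e, (r.s * (ρ ^ 18 * w.x) + r.t) * (ρ ^ 27 * w.y), ?_, ?_⟩, r, ρ, hr, hρ, hc, ?_, rfl⟩
  · intro h0
    exact hr (cr_lc _ _ _ h0)
  · rw [← lin_eval, r.line]
    have hxy := hw.2
    simp only [Polynomial.eval_mul, Polynomial.eval_add, Polynomial.eval_sub, Polynomial.eval_pow, Polynomial.eval_C,
      Polynomial.eval_X]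
    rw [← ea, ← eb]
    linear_combination (r.s * (ρ ^ 18 * w.x) + r.t) ^ 2 * ρ ^ 54 * hxy
  · intro i
    simp only [lc]
    ring

end H25.EX
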