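import Pool.Agent.H79.GM.Lift
import Pool.Agent.H77.PB.Mcon

/-! # EX.PTr : transfer of torsion relations along a correspondence with values in differences of points (complete; given `lift_stable`)

`D`, `D'` point data, `Γ y R S`: to the point `y` of `D` over `Om K` belongs the pair `R`, `S` of points of `D'`; `gp`, `gm : D.X → D'.X` are such that the class of `gp p - gm p` is, up to torsion, that of the specialisations of `R - S` when `y` specialises to `p`.
Then `phi` (`single P 1 ↦ ∏ (gp (P i) - gm (P i))`) sends `tor (RatEq D k)` to `tor (RatEq D' k)`. -/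

namespace H25.EX

open H68.BB (Om Place)
open H77.AF H25.DP

variable {K : Type} [Field K] {D D' : PD K}

/-- the hypotheses of the transfer -/
structure PTr (D D' : PD K) (Γ : D.Y → D'.Y → D'.Y → Prop) (gp gm : D.X → D'.X) : Prop where
  tot : ∀ y, ∃ R S, Γ y R S
  act : ∀ (σ : Om K ≃ₐ[RatFunc K] Om K) y R S, Γ y R S → Γ (D.act σ y) (D'.act σ R) (D'.act σ S)
  one : ∀ y, D.act 1 y = y
  mul : ∀ σ τ y, D.act (σ * τ) y = D.act σ (D.act τ y)
  one' : ∀ y, D'.act 1 y = y
  mul' : ∀ σ τ y, D'.act (σ * τ) y = D'.act σ (D'.act τ y)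
  off : ∀ π y, ¬ D.off π y
  fin : ∀ y : D'.Y, (Set.range fun σ => D'.act σ y).Finite
  prp : ∀ (π : Place K (Om K)) (y : D'.Y), ∃ x, D'.sp π y x
  spec : ∀ (π : Place K (Om K)) y R S p x x', Γ y R S → D.sp π y p → D'.sp π R x → D'.sp π S x' →
    ((Finsupp.single (fun _ => x) 1 - Finsupp.single (fun _ => x') 1) -
      (Finsupp.single (fun _ => gp p) 1 - Finsupp.single (fun _ => gm p) 1) : Cyc D' 1) ∈ tor (RatEq D' 1)

variable {Γ : D.Y → D'.Y → D'.Y → Prop} {gp gm : D.X → D'.X}

private theorem pt_lift (h : PTr D D' Γ gp gm) {k : ℕ} {S : Multiset (Fin k → D.Y)} (hS : GalStable S) :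
    ∃ (N : ℕ) (T : Multiset (Fin k → D'.Y × D'.Y)), 0 < N ∧
      (∀ σ : Om K ≃ₐ[RatFunc K] Om K, T.map (fun P i => (D'.act σ (P i).1, D'.act σ (P i).2)) = T) ∧
      Multiset.Rel (fun P Q => ∀ i, Γ (P i) (Q i).1 (Q i).2) (N • S) T := by
  let _ : MulAction (Om K ≃ₐ[RatFunc K] Om K) (Fin k → D.Y) :=
    { smul := fun σ P i => D.act σ (P i)
      one_smul := fun P => funext fun i => h.one (P i)
      mul_smul := fun σ τ P => funext fun i => h.mul σ τ (P i) }
  let _ : MulAction (Om K ≃ₐ[RatFunc K] Om K) (Fin k → D'.Y × D'.Y) :=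
    { smul := fun σ P i => (D'.act σ (P i).1, D'.act σ (P i).2)
      one_smul := fun P => funext fun i => Prod.ext (h.one' _) (h.one' _)
      mul_smul := fun σ τ P => funext fun i => Prod.ext (h.mul' σ τ _) (h.mul' σ τ _) }
  refine H79.GM.lift_stable (G := Om K ≃ₐ[RatFunc K] Om K) (A := Fin k → D.Y) (B := Fin k → D'.Y × D'.Y)
    (R := fun P Q => ∀ i, Γ (P i) (Q i).1 (Q i).2) ?_ ?_ ?_ S hS
  · intro P
    choose R T hRT using h.tot
    exact ⟨fun i => (R (P i), T (P i)), fun i => hRT (P i)⟩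
  · intro σ P Q hPQ i
    exact h.act σ _ _ _ (hPQ i)
  · intro b
    refine (Set.Finite.pi' fun i => (h.fin (b i).1).prod (h.fin (b i).2)).subset ?_
    rintro _ ⟨σ, rfl⟩ i
    exact ⟨⟨σ, rfl⟩, ⟨σ, rfl⟩⟩

private theorem rel_sum {α β γ A : Type} [AddCommGroup A] (H : AddSubgroup A) {r : α → β → Prop} {r' : α → γ → Prop}
    (F : β → A) (G : γ → A) (hFG : ∀ a b c, r a b → r' a c → F b - G c ∈ H) (S : Multiset α) :
    ∀ (T : Multiset β) (C : Multiset γ), Multiset.Rel r S T → Multiset.Rel r' S C →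
      (T.map F).sum - (C.map G).sum ∈ H := by
  induction S using Multiset.induction_on with
  | empty =>
    intro T C hT hC
    rw [Multiset.rel_zero_left] at hT hC
    subst hT hC
    simp
  | cons a S ih =>
    intro T C hT hC
    obtain ⟨b, T', hb, hT', rfl⟩ := Multiset.rel_cons_left.1 hT
    obtain ⟨c, C', hc, hC', rfl⟩ := Multiset.rel_cons_left.1 hC
    rw [Multiset.map_cons, Multiset.sum_cons, Multiset.map_cons, Multiset.sum_cons, add_sub_add_comm]
    exact H.add_mem (hFG a b c hb hc) (ih T' C' hT' hC')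

private theorem rel_nsmul {α β : Type} {r : α → β → Prop} {S : Multiset α} {T : Multiset β} (h : Multiset.Rel r S T)
    (N : ℕ) : Multiset.Rel r (N • S) (N • T) := by
  induction N with
  | zero => rw [zero_smul, zero_smul]; exact Multiset.Rel.zero
  | succ N ih => rw [succ_nsmul, succ_nsmul]; exact ih.add h

private theorem up_single {E : PD K} (a : E.X) :
    up (D := E) (Finsupp.single a 1) = Finsupp.single (fun _ => a) 1 := by
  unfold up
  rw [Finsupp.mapDomain.addMonoidHom_apply, Finsupp.mapDomain_single]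

private theorem pt_fib (h : PTr D D' Γ gp gm) {k : ℕ} {S : Multiset (Fin k → D.Y)} {N : ℕ}
    {T : Multiset (Fin k → D'.Y × D'.Y)} (hT : Multiset.Rel (fun P Q => ∀ i, Γ (P i) (Q i).1 (Q i).2) (N • S) T)
    {π : Place K (Om K)} {c : Multiset (Fin k → D.X)} (hc : Fibre π S c) :
    ∃ d : Finset (Fin k) → Multiset (Fin k → D'.X),
      (∀ J, Fibre (D := D') π (T.map (fun P i => if i ∈ J then (P i).2 else (P i).1)) (d J)) ∧
      ∑ J : Finset (Fin k), (-1 : ℤ) ^ J.card • cyc (D := D') (d J) - N • phi D gp gm k (cyc c) ∈ tor (RatEq D' k) := by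
  obtain ⟨S1, S2, hS, hR, hoff⟩ := hc
  have h0 : S2 = 0 := by
    refine Multiset.eq_zero_of_forall_notMem fun P hP => ?_
    obtain ⟨i, hi⟩ := hoff P hP
    exact h.off _ _ hi
  rw [h0, add_zero] at hS
  subst hS
  choose xs hxs using h.prp π
  refine ⟨fun J => T.map (fun P i => if i ∈ J then xs (P i).2 else xs (P i).1), fun J => ?_, ?_⟩
  · refine ⟨_, 0, (add_zero _).symm, ?_, fun P hP => absurd hP (Multiset.notMem_zero P)⟩
    rw [Multiset.rel_map]
    refine Multiset.rel_refl_of_refl_on fun P _ i => ?_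
    change D'.sp π (if i ∈ J then (P i).2 else (P i).1) (if i ∈ J then xs (P i).2 else xs (P i).1)
    split_ifs
    · exact hxs _
    · exact hxs _
  · obtain ⟨mul, hmul⟩ : ∃ mul : ∀ k : ℕ, MultilinearMap ℤ (fun _ : Fin k => Cyc1 D') (Cyc D' k), ∀ k, IsPr (mul k) := by
      choose mul hmul using fun k => exists_mul D' k
      exact ⟨mul, fun k => (hmul k).2⟩
    have h1 : ∑ J : Finset (Fin k), (-1 : ℤ) ^ J.card •
        cyc (D := D') (T.map (fun P i => if i ∈ J then xs (P i).2 else xs (P i).1)) =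
        (T.map (fun P => pr2 (D' := D') (fun q : D'.Y × D'.Y => xs q.1) (fun q => xs q.2) P)).sum := by
      have hsw : ∀ U : Multiset (Fin k → D'.Y × D'.Y), ∑ J : Finset (Fin k), (-1 : ℤ) ^ J.card •
          cyc (D := D') (U.map (fun P i => if i ∈ J then xs (P i).2 else xs (P i).1)) =
          (U.map (fun P => pr2 (D' := D') (fun q : D'.Y × D'.Y => xs q.1) (fun q => xs q.2) P)).sum := by
        intro U
        induction U using Multiset.induction_on with
        | empty => simp [cyc]
        | cons a U ih =>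
          rw [Multiset.map_cons, Multiset.sum_cons, ← ih, pr2, ← Finset.sum_add_distrib]
          refine Finset.sum_congr rfl fun J _ => ?_
          unfold cyc
          rw [Multiset.map_cons, Multiset.map_cons, Multiset.sum_cons, smul_add]
      exact hsw T
    have h2 : N • phi D gp gm k (cyc c) = ((N • c).map (fun P => pr2 (D' := D') gp gm P)).sum := by
      rw [Multiset.map_nsmul, Multiset.sum_nsmul]
      congr 1
      unfold cyc
      rw [map_multiset_sum, Multiset.map_map]
      congr 1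
      refine Multiset.map_congr rfl fun P _ => ?_
      rw [Function.comp_apply, phi_single, one_smul]
    rw [h1, h2]
    refine rel_sum (tor (RatEq D' k)) _ _ ?_ (N • S) T (N • c) hT (rel_nsmul hR N)
    intro P Q p hPQ hPp
    rw [pr2_eq hmul, pr2_eq hmul]
    refine H77.PB.mul_con (hmul k) _ _ fun i => ?_
    have h3 := h.spec π _ _ _ _ _ _ (hPQ i) (hPp i) (hxs (Q i).1) (hxs (Q i).2)
    rw [map_sub, map_sub, map_sub, up_single, up_single, up_single, up_single]
    exact h3

/-- the transfer -/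
theorem ptr (h : PTr D D' Γ gp gm) {k : ℕ} {z : Cyc D k} (hz : z ∈ tor (RatEq D k)) :
    phi D gp gm k z ∈ tor (RatEq D' k) := by
  have key : ∀ z ∈ RatEq D k, phi D gp gm k z ∈ tor (RatEq D' k) := by
    intro z hz
    unfold RatEq at hz
    induction hz using AddSubgroup.closure_induction with
    | mem z hz =>
      obtain ⟨S, π, π', c, c', hG, hF, hF', rfl⟩ := hz
      obtain ⟨N, T, hN, hT1, hT2⟩ := pt_lift h hG
      obtain ⟨d, hd1, hd2⟩ := pt_fib h hT2 hF
      obtain ⟨d', hd1', hd2'⟩ := pt_fib h hT2 hF'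
      have h1 : ∀ J : Finset (Fin k), cyc (D := D') (d J) - cyc (D := D') (d' J) ∈ tor (RatEq D' k) := by
        intro J
        apply le_tor
        apply AddSubgroup.subset_closure
        refine ⟨_, π, π', d J, d' J, ?_, hd1 J, hd1' J, rfl⟩
        intro σ
        have h2 := congrArg (Multiset.map (fun (P : Fin k → D'.Y × D'.Y) i => if i ∈ J then (P i).2 else (P i).1)) (hT1 σ)
        rw [Multiset.map_map] at h2 ⊢
        refine Eq.trans ?_ h2
        refine Multiset.map_congr rfl fun P _ => ?_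
        funext i
        simp only [Function.comp_apply]
        split_ifs <;> rfl
      have h2 : ∑ J : Finset (Fin k), (-1 : ℤ) ^ J.card • cyc (D := D') (d J) -
          ∑ J : Finset (Fin k), (-1 : ℤ) ^ J.card • cyc (D := D') (d' J) ∈ tor (RatEq D' k) := by
        rw [← Finset.sum_sub_distrib]
        refine AddSubgroup.sum_mem _ fun J _ => ?_
        rw [← smul_sub]
        exact AddSubgroup.zsmul_mem _ (h1 J) _
      have h3 : N • phi D gp gm k (cyc c - cyc c') ∈ tor (RatEq D' k) := by
        have h4 := AddSubgroup.sub_mem _ h2 (AddSubgroup.sub_mem _ hd2 hd2')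
        rw [map_sub, smul_sub]
        have h5 : N • phi D gp gm k (cyc c) - N • phi D gp gm k (cyc c') =
          ∑ J : Finset (Fin k), (-1 : ℤ) ^ J.card • cyc (D := D') (d J) -
          ∑ J : Finset (Fin k), (-1 : ℤ) ^ J.card • cyc (D := D') (d' J) -
          (∑ J : Finset (Fin k), (-1 : ℤ) ^ J.card • cyc (D := D') (d J) - N • phi D gp gm k (cyc c) -
          (∑ J : Finset (Fin k), (-1 : ℤ) ^ J.card • cyc (D := D') (d' J) - N • phi D gp gm k (cyc c'))) := by abel
        rw [h5]
        exact h4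
      obtain ⟨M, hM, h6⟩ := h3
      refine ⟨M * N, Nat.mul_pos hM hN, ?_⟩
      rw [mul_smul]
      exact h6
    | zero => rw [map_zero]; exact AddSubgroup.zero_mem _
    | add x y _ _ hx hy => rw [map_add]; exact AddSubgroup.add_mem _ hx hy
    | neg x _ hx => rw [map_neg]; exact AddSubgroup.neg_mem _ hx
  obtain ⟨N, hN, h1⟩ := hz
  obtain ⟨M, hM, h2⟩ := key _ h1
  refine ⟨M * N, Nat.mul_pos hM hN, ?_⟩
  rw [mul_smul, ← map_nsmul]
  exact h2

end H25.EX
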