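import Pool.Agent.H25.EX.Def

/-! # EX.RdL : the coefficients `qc` under a ring homomorphism which also changes the coefficients of `f` (about 100 lines)

`ι : V → F`, `φ : V → G` ring homomorphisms, `fV` a polynomial over `V` whose images are the polynomials `f0` over `F` and `f1` over `G`.  `v` = the same expression for `fV` over `V`:
`w : Fin 3 → V`, `w = cr (fun i => aeval c (pderiv i fV)) (ee 2)` and so on: `v = coefficient of X^(j+2) of fV(X w + c)`, that is of `MvPolynomial.aeval (fun l => C (w l) * X + C (c l)) fV : V[X]`.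
Key: for a ring homomorphism `ι : V → F` with `fV.map ι = f0.map (algebraMap K0 F)`: `ι (eval c p_V) = ev p0 (ι c)` for `p_V.map ι = p0.map (algebraMap K0 F)` (`MvPolynomial.eval_map`, `aeval_def`, `MvPolynomial.eval₂_map`, `MvPolynomial.map_pderiv` or `pderiv_map` for the partial derivatives),
and `(aeval (..) fV).map ι = lin f0 ..` (`Polynomial.mapRingHom`, `MvPolynomial.eval₂_comp`-like; use `MvPolynomial.hom_eval₂`, `eval₂_map`); `Polynomial.coeff_map`. -/

namespace H25.EX

open H25.DP

open Polynomial in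
private theorem evOne {K0 F V : Type} [Field K0] [CommRing F] [Algebra K0 F] [CommRing V] (ι : V →+* F)
    {pV : MvPolynomial (Fin 3) V} {p0 : MvPolynomial (Fin 3) K0} (h : pV.map ι = p0.map (algebraMap K0 F))
    (c : Fin 3 → V) : ι (MvPolynomial.eval c pV) = ev p0 (fun l => ι (c l)) := by
  have h1 : ι (MvPolynomial.eval c pV) = MvPolynomial.eval (fun l => ι (c l)) (pV.map ι) := by
    rw [MvPolynomial.eval_map]
    have := MvPolynomial.eval₂_comp_left ι (RingHom.id V) c pV
    rw [RingHom.comp_id] at this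
    exact this
  rw [h1, h, MvPolynomial.eval_map]
  rfl

private noncomputable def gV {V : Type} [CommRing V] (fV : MvPolynomial (Fin 3) V) (c : Fin 3 → V) : Fin 3 → V :=
  fun j => MvPolynomial.eval c (MvPolynomial.pderiv j fV)

private theorem gV_map {K0 F V : Type} [Field K0] [CommRing F] [Algebra K0 F] [CommRing V] (ι : V →+* F)
    {fV : MvPolynomial (Fin 3) V} {f0 : MvPolynomial (Fin 3) K0} (h : fV.map ι = f0.map (algebraMap K0 F))
    (c : Fin 3 → V) : (fun j => ι (gV fV c j)) = grad f0 (fun l => ι (c l)) := by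
  funext j
  refine evOne ι ?_ c
  rw [← MvPolynomial.pderiv_map, h, MvPolynomial.pderiv_map]

private noncomputable def wV {V : Type} [CommRing V] (fV : MvPolynomial (Fin 3) V) (i : Fin 3) (c : Fin 3 → V) :
    Fin 3 → V := cr (gV fV c) (ee i)

private theorem wV_map {K0 F V : Type} [Field K0] [CommRing F] [Algebra K0 F] [CommRing V] (ι : V →+* F)
    {fV : MvPolynomial (Fin 3) V} {f0 : MvPolynomial (Fin 3) K0} (h : fV.map ι = f0.map (algebraMap K0 F))
    (i : Fin 3) (c : Fin 3 → V) : (fun j => ι (wV fV i c j)) = tv f0 i (fun l => ι (c l)) := by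
  have h1 := cr_map ι (gV fV c) (ee i)
  rw [gV_map ι h c, ee_map] at h1
  exact h1

open Polynomial in
private noncomputable def lV {V : Type} [CommRing V] (fV : MvPolynomial (Fin 3) V) (w c : Fin 3 → V) : V[X] :=
  MvPolynomial.eval₂ (C : V →+* V[X]) (fun l => C (w l) * X + C (c l)) fV

open Polynomial in
private theorem lV_map {K0 F V : Type} [Field K0] [CommRing F] [Algebra K0 F] [CommRing V] (ι : V →+* F)
    {fV : MvPolynomial (Fin 3) V} {f0 : MvPolynomial (Fin 3) K0} (h : fV.map ι = f0.map (algebraMap K0 F))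
    (w c : Fin 3 → V) : (lV fV w c).map ι = lin f0 (fun l => ι (w l)) (fun l => ι (c l)) := by
  have h1 := MvPolynomial.eval₂_comp_left (mapRingHom ι) (C : V →+* V[X]) (fun l => C (w l) * X + C (c l)) fV
  have h2 : (mapRingHom ι).comp (C : V →+* V[X]) = (C : F →+* F[X]).comp ι := by
    ext x
    simp
  have h3 : (mapRingHom ι : V[X] → F[X]) ∘ (fun l => C (w l) * X + C (c l)) = fun l => C (ι (w l)) * X + C (ι (c l)) := by
    funext l
    simp
  rw [h2, h3, ← MvPolynomial.eval₂_map, h, MvPolynomial.eval₂_map] at h1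
  exact h1

private theorem qcOne {K0 F V : Type} [Field K0] [CommRing F] [Algebra K0 F] [CommRing V] (ι : V →+* F)
    {fV : MvPolynomial (Fin 3) V} {f0 : MvPolynomial (Fin 3) K0} (h : fV.map ι = f0.map (algebraMap K0 F))
    (i : Fin 3) (c : Fin 3 → V) (j : ℕ) :
    ι ((lV fV (wV fV i c) c).coeff (j + 2)) = qc f0 i (fun l => ι (c l)) j := by
  unfold qc
  rw [← wV_map ι h i c, ← lV_map ι h, Polynomial.coeff_map]

theorem qc_hom {K0 K1 F G V : Type} [Field K0] [Field K1] [CommRing F] [Algebra K0 F] [CommRing G] [Algebra K1 G]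
    [CommRing V] {f0 : MvPolynomial (Fin 3) K0} {f1 : MvPolynomial (Fin 3) K1} (ι : V →+* F) (φ : V →+* G)
    (fV : MvPolynomial (Fin 3) V) (h0 : fV.map ι = f0.map (algebraMap K0 F)) (h1 : fV.map φ = f1.map (algebraMap K1 G))
    (i : Fin 3) (c : Fin 3 → V) (j : ℕ) :
    ∃ v : V, ι v = qc f0 i (fun l => ι (c l)) j ∧ φ v = qc f1 i (fun l => φ (c l)) j := by
  exact ⟨(lV fV (wV fV i c) c).coeff (j + 2), qcOne ι h0 i c j, qcOne φ h1 i c j⟩

/-- the value of the form -/
theorem ev_hom {K0 K1 F G V : Type} [Field K0] [Field K1] [CommRing F] [Algebra K0 F] [CommRing G] [Algebra K1 G]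
    [CommRing V] {f0 : MvPolynomial (Fin 3) K0} {f1 : MvPolynomial (Fin 3) K1} (ι : V →+* F) (φ : V →+* G)
    (fV : MvPolynomial (Fin 3) V) (h0 : fV.map ι = f0.map (algebraMap K0 F)) (h1 : fV.map φ = f1.map (algebraMap K1 G))
    (c : Fin 3 → V) : ∃ v : V, ι v = ev f0 (fun l => ι (c l)) ∧ φ v = ev f1 (fun l => φ (c l)) := by
  exact ⟨MvPolynomial.eval c fV, evOne ι h0 c, evOne φ h1 c⟩

end H25.EX
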