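import Mathlib

/-! # EX.Reg : `X_1^m`, `X_2^m` is a regular sequence modulo a form which does not vanish at `(1,0,0)` (MATHLIB only, about 150 lines)

Step 1: if `X_2 z ∈ (X_1, f)` then `z ∈ (X_1, f)`: put `X_1 = 0` (the homomorphism `aeval ![X 0, 0, X 2]` of `MvPolynomial (Fin 3) K`, kernel `(X 1)`): `X_2 z̄ = f̄ q̄`; `X_2` is prime and does not divide `f̄` (value of `f̄` at `(1,0,0)` is that of `f`), so it divides `q̄`: `q̄ = X_2 r`, `z̄ = f̄ r`,
`z - f r ∈ ker = (X_1)`.
Step 2, induction on `j`: if `X_2 z ∈ (X_1^j, f)` then `z ∈ (X_1^j, f)` (`j = 0` trivial): `X_2 z = X_1^(j+1) p + f q`.  By step 1 `z = X_1 z' + f w`.  `X_1 (X_2 z' - X_1^j p) = f (q - X_2 w)`; `X_1` is prime and does not divide `f`, so `q - X_2 w = X_1 r` and `X_2 z' - X_1^j p = f r`;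
by induction `z' ∈ (X_1^j, f)`.
Step 3: `X_2^m x ∈ (X_1^m, f)` so `x ∈ (X_1^m, f)` (step 2, `m` times): `x = X_1^m a0 + f g0`.  Then `X_1^m (X_2^m a0 - y) ∈ (f)`, `X_1` is prime and does not divide `f` and `f` divides `X_1^m u` implies `f` divides `u` (for `X_1` prime, `X_1 ∤ f`: if `X_1 u = f v` then `X_1 ∣ v`; induction).
Step 4: homogeneous components: `a` = the component of degree `N` of `a0`: the component of degree `m + N` of `X_1^m a0 - x = - f g0` is `X_1^m a - x`, that of `f g0` is `f * (component of degree m + N - 6 of g0)` (zero if `m + N < 6`): membership of homogeneous components in `(f)`, `f` homogeneous: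
`MvPolynomial.homogeneousComponent`, or the lemmas on homogeneous ideals.  The same for `y`. -/

namespace H25.EX

open MvPolynomial

private theorem dvd_pow_left {K : Type} [Field K] {p f : MvPolynomial (Fin 3) K} (hp : Prime p)
    (hpf : ¬ p ∣ f) : ∀ (m : ℕ) (u : MvPolynomial (Fin 3) K), f ∣ p ^ m * u → f ∣ u := by
  intro m
  induction m with
  | zero => intro u h; simpa using h
  | succ m ih =>
    intro u h
    apply ih
    obtain ⟨v, hv⟩ := h
    have h1 : p ∣ f * v := ⟨p ^ m * u, by rw [← hv]; ring⟩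
    rcases hp.dvd_or_dvd h1 with h2 | h2
    · exact absurd h2 hpf
    · obtain ⟨w, rfl⟩ := h2
      refine ⟨w, ?_⟩
      have h3 : p * (p ^ m * u) = p * (f * w) := by
        linear_combination hv
      exact mul_left_cancel₀ hp.ne_zero h3

private theorem step1 {K : Type} [Field K] {f z p q : MvPolynomial (Fin 3) K}
    (hf : MvPolynomial.eval ![1, 0, 0] f ≠ 0) (h : X 2 * z = X 1 * p + f * q) :
    ∃ p' q', z = X 1 * p' + f * q' := by
  let φ : MvPolynomial (Fin 3) K →ₐ[K] MvPolynomial (Fin 3) K := aeval ![X 0, 0, X 2]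
  have hφ0 : φ (X 0) = X 0 := by simp [φ]
  have hφ1 : φ (X 1) = 0 := by simp [φ]
  have hφ2 : φ (X 2) = X 2 := by simp [φ]
  have hker : ∀ g : MvPolynomial (Fin 3) K, ∃ g', g - φ g = X 1 * g' := by
    intro g
    let I : Ideal (MvPolynomial (Fin 3) K) := Ideal.span {X 1}
    have h1 : (Ideal.Quotient.mkₐ K I) = (Ideal.Quotient.mkₐ K I).comp φ := by
      apply MvPolynomial.algHom_ext
      intro i
      fin_cases i
      · simp [φ]
      · simp only [AlgHom.comp_apply]
        change Ideal.Quotient.mkₐ K I (X 1) = Ideal.Quotient.mkₐ K I (φ (X 1))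
        rw [hφ1, map_zero]
        exact Ideal.Quotient.eq_zero_iff_mem.2 (Ideal.subset_span rfl)
      · simp [φ]
    have h2 : Ideal.Quotient.mk I g = Ideal.Quotient.mk I (φ g) := by
      have := congrArg (fun F => F g) h1
      simpa using this
    rw [Ideal.Quotient.eq] at h2
    obtain ⟨g', hg'⟩ := Ideal.mem_span_singleton'.1 h2
    exact ⟨g', by rw [← hg']; ring⟩
  have heval : ∀ g : MvPolynomial (Fin 3) K, MvPolynomial.eval ![1, 0, 0] (φ g) = MvPolynomial.eval ![1, 0, 0] g := by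
    intro g
    obtain ⟨g', hg'⟩ := hker g
    have := congrArg (MvPolynomial.eval ![(1 : K), 0, 0]) hg'
    simp only [map_sub, map_mul, eval_X] at this
    have h3 : (![(1 : K), 0, 0] : Fin 3 → K) 1 = 0 := rfl
    rw [h3, zero_mul] at this
    exact (sub_eq_zero.1 this).symm
  have hp2 : Prime (X 2 : MvPolynomial (Fin 3) K) := X_prime
  have h4 : X 2 * φ z = φ f * φ q := by
    have := congrArg φ h
    simpa [hφ1, hφ2] using this
  have h5 : ¬ X 2 ∣ φ f := by
    rintro ⟨g, hg⟩
    apply hf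
    rw [← heval f, hg]
    have h3 : (![(1 : K), 0, 0] : Fin 3 → K) 2 = 0 := rfl
    simp [h3]
  have h6 : X 2 ∣ φ f * φ q := ⟨φ z, h4.symm⟩
  rcases hp2.dvd_or_dvd h6 with h7 | ⟨r, hr⟩
  · exact absurd h7 h5
  · rw [hr] at h4
    have h8 : φ z = φ f * r := by
      apply mul_left_cancel₀ hp2.ne_zero
      linear_combination h4
    obtain ⟨z', hz'⟩ := hker z
    obtain ⟨f', hf'⟩ := hker f
    refine ⟨z' - f' * r, r, ?_⟩
    linear_combination hz' + h8 - r * hf'

private theorem not_dvd {K : Type} [Field K] {f : MvPolynomial (Fin 3) K}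
    (hf : MvPolynomial.eval ![1, 0, 0] f ≠ 0) : ¬ (X 1 : MvPolynomial (Fin 3) K) ∣ f := by
  rintro ⟨g, hg⟩
  apply hf
  rw [hg]
  have h3 : (![(1 : K), 0, 0] : Fin 3 → K) 1 = 0 := rfl
  simp [h3]

private theorem step2 {K : Type} [Field K] {f : MvPolynomial (Fin 3) K}
    (hf : MvPolynomial.eval ![1, 0, 0] f ≠ 0) : ∀ (j : ℕ) (z p q : MvPolynomial (Fin 3) K),
    X 2 * z = X 1 ^ j * p + f * q → ∃ p' q', z = X 1 ^ j * p' + f * q' := by
  intro j
  induction j with
  | zero => intro z p q _; exact ⟨z, 0, by ring⟩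
  | succ j ih =>
    intro z p q h
    obtain ⟨z', w, hz⟩ := step1 (p := X 1 ^ j * p) (q := q) hf (z := z) (by rw [h]; ring)
    have hp1 : Prime (X 1 : MvPolynomial (Fin 3) K) := X_prime
    have h1 : X 1 * (X 2 * z' - X 1 ^ j * p) = f * (q - X 2 * w) := by
      rw [hz] at h
      linear_combination h
    have h2 : X 1 ∣ f * (q - X 2 * w) := ⟨_, h1.symm⟩
    rcases hp1.dvd_or_dvd h2 with h3 | ⟨r, hr⟩
    · exact absurd h3 (not_dvd hf)
    · rw [hr] at h1
      have h4 : X 2 * z' - X 1 ^ j * p = f * r := by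
        apply mul_left_cancel₀ hp1.ne_zero
        linear_combination h1
      obtain ⟨p', q', h5⟩ := ih z' p r (by linear_combination h4)
      refine ⟨p', X 1 * q' + w, ?_⟩
      rw [hz, h5]
      ring

private theorem step2' {K : Type} [Field K] {f : MvPolynomial (Fin 3) K}
    (hf : MvPolynomial.eval ![1, 0, 0] f ≠ 0) (j : ℕ) : ∀ (m : ℕ) (z p q : MvPolynomial (Fin 3) K),
    X 2 ^ m * z = X 1 ^ j * p + f * q → ∃ p' q', z = X 1 ^ j * p' + f * q' := by
  intro m
  induction m with
  | zero => intro z p q h; exact ⟨p, q, by rw [← h]; ring⟩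
  | succ m ih =>
    intro z p q h
    obtain ⟨p', q', h1⟩ := step2 hf j (X 2 ^ m * z) p q (by rw [← h]; ring)
    exact ih z p' q' h1

attribute [local instance] MvPolynomial.gradedAlgebra in
private theorem comp_mem {K : Type} [Field K] {f : MvPolynomial (Fin 3) K} (hh : f.IsHomogeneous 6)
    (i : Fin 3) {m N : ℕ} {a0 x : MvPolynomial (Fin 3) K} (hx : x.IsHomogeneous (m + N))
    (h : X i ^ m * a0 - x ∈ Ideal.span {f}) :
    X i ^ m * homogeneousComponent N a0 - x ∈ Ideal.span {f} := by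
  have hI : (Ideal.span {f}).IsHomogeneous (homogeneousSubmodule (Fin 3) K) := by
    apply Ideal.homogeneous_span
    rintro g hg
    rw [Set.mem_singleton_iff] at hg
    subst hg
    exact ⟨6, hh⟩
  have h1 := homogeneousComponent_mem_of_mem hI h (m + N)
  rw [map_sub, homogeneousComponent_eq_self hx] at h1
  have hXm : (X i ^ m : MvPolynomial (Fin 3) K).IsHomogeneous m := by
    simpa using (isHomogeneous_X K i).pow m
  have h2 : homogeneousComponent (m + N) (X i ^ m * a0) = X i ^ m * homogeneousComponent N a0 := by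
    have h3 := DirectSum.coe_decompose_mul_of_left_mem_of_le (homogeneousSubmodule (Fin 3) K)
      (a := X i ^ m) (b := a0) (i := m) (n := m + N) hXm (Nat.le_add_right m N)
    rw [Nat.add_sub_cancel_left] at h3
    rw [← decomposition.decompose'_apply, ← decomposition.decompose'_apply]
    exact h3
  rw [h2] at h1
  exact h1

theorem reg {K : Type} [Field K] {f x y : MvPolynomial (Fin 3) K} (hf : MvPolynomial.eval ![1, 0, 0] f ≠ 0)
    (hh : f.IsHomogeneous 6) {m N : ℕ} (hx : x.IsHomogeneous (m + N)) (hy : y.IsHomogeneous (m + N))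
    (h : X 2 ^ m * x - X 1 ^ m * y ∈ Ideal.span {f}) :
    ∃ a : MvPolynomial (Fin 3) K, a.IsHomogeneous N ∧ X 1 ^ m * a - x ∈ Ideal.span {f} ∧ X 2 ^ m * a - y ∈ Ideal.span {f} := by
  obtain ⟨g, hg⟩ := Ideal.mem_span_singleton'.1 h
  obtain ⟨a0, g0, hx0⟩ := step2' hf m m x y g (by linear_combination -hg)
  have hp1 : Prime (X 1 : MvPolynomial (Fin 3) K) := X_prime
  have h1 : f ∣ X 1 ^ m * (X 2 ^ m * a0 - y) :=
    ⟨g - X 2 ^ m * g0, by rw [hx0] at hg; linear_combination -hg⟩
  have h2 := dvd_pow_left hp1 (not_dvd hf) m _ h1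
  have h3 : X 2 ^ m * a0 - y ∈ Ideal.span {f} := Ideal.mem_span_singleton.2 h2
  have h4 : X 1 ^ m * a0 - x ∈ Ideal.span {f} :=
    Ideal.mem_span_singleton.2 ⟨-g0, by rw [hx0]; ring⟩
  exact ⟨homogeneousComponent N a0, homogeneousComponent_isHomogeneous N a0,
    comp_mem hh 1 hx h4, comp_mem hh 2 hy h3⟩

end H25.EX
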